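import Pool.Agent.Lib.MP_ae2e71_gt.CountMain

set_option linter.unusedSectionVars false

/-!
# The counting theorem for interlacement data
-/

namespace Pool.Agent.Lib.MP_ae2e71_gt

open Finset

section Graph

variable {X : Type} [Fintype X] [DecidableEq X]

/-- The coefficient of `s i * s j * s k`. -/
def AA (lam : X → X → ℚ) (i j k : X) : ℚ := 3 * (lam i j * lam i k) - lam i j * lam j k * lam i k

/-- The coefficient of `s i` coming from `j` and `k`. -/
def BB (lam h : X → X → ℚ) (i j k : X) : ℚ := - 3 * (h i j * h i k * lam j k)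

/-- The cubic function. -/
def VV (lam h : X → X → ℚ) (s : X → ℤˣ) : ℚ :=
  ∑ i, ∑ j, ∑ k, (AA lam i j k * (vv s i * (vv s j * vv s k)) + BB lam h i j k * vv s i)

lemma VV_neg (lam h : X → X → ℚ) (s : X → ℤˣ) : VV lam h (-s) = - VV lam h s := by
  unfold VV
  simp only [vv_neg, ← Finset.sum_neg_distrib]
  refine Finset.sum_congr rfl fun i _ => Finset.sum_congr rfl fun j _ =>
    Finset.sum_congr rfl fun k _ => ?_
  ring

lemma VV_mul_mem (lam h : X → X → ℚ) (d : ℕ) (f : (X → ℤˣ) → ℚ) (hf : f ∈ F X d) :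
    (fun s => VV lam h s * f s) ∈ F X (d + 3) := by
  have h1 : (fun s => VV lam h s * f s)
      = ∑ i, ∑ j, ∑ k, (AA lam i j k • (fun s => vv s i * (vv s j * (vv s k * f s)))
        + BB lam h i j k • (fun s => vv s i * f s)) := by
    funext s
    simp only [VV, Finset.sum_apply, Pi.add_apply, Pi.smul_apply, smul_eq_mul, Finset.sum_mul]
    refine Finset.sum_congr rfl fun i _ => Finset.sum_congr rfl fun j _ =>
      Finset.sum_congr rfl fun k _ => ?_
    ring
  rw [h1]
  refine Submodule.sum_mem _ fun i _ => Submodule.sum_mem _ fun j _ =>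
    Submodule.sum_mem _ fun k _ => Submodule.add_mem _ (Submodule.smul_mem _ _ ?_)
      (Submodule.smul_mem _ _ ?_)
  · exact F_vv_mul (F_vv_mul (F_vv_mul hf k) j) i
  · exact F_mono (by omega) (F_vv_mul hf i)

/-- The pointwise inequality for a triple. -/
lemma triple_ineq {a a' b b' c c' x y z : ℚ}
    (ha : a = 0 ∨ a = 1 ∨ a = -1) (hb : b = 0 ∨ b = 1 ∨ b = -1) (hc : c = 0 ∨ c = 1 ∨ c = -1)
    (hx : x = 1 ∨ x = -1) (hy : y = 1 ∨ y = -1) (hz : z = 1 ∨ z = -1)
    (ha' : a' ^ 2 = a ^ 2) (hb' : b' ^ 2 = b ^ 2) (hc' : c' ^ 2 = c ^ 2)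
    (h1 : a * a' = - (x * y) * a ^ 2) (h2 : b * b' = - (y * z) * b ^ 2)
    (h3 : c * c' = - (x * z) * c ^ 2) :
    -- a = h i j, a' = h j i, b = h j k, b' = h k j, c = h i k, c' = h k i
    a * c * b ^ 2 + a' * b * c ^ 2 + c' * b' * a ^ 2 ≤ a ^ 2 * b ^ 2 * c ^ 2 := by
  have ea : a' = - (x * y) * a := by
    rcases ha with rfl | rfl | rfl
    · nlinarith
    · linarith
    · linarith
  have eb : b' = - (y * z) * b := by
    rcases hb with rfl | rfl | rfl
    · nlinarith
    · linarith
    · linarith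
  have ec : c' = - (x * z) * c := by
    rcases hc with rfl | rfl | rfl
    · nlinarith
    · linarith
    · linarith
  subst ea eb ec
  clear h1 h2 h3 ha' hb' hc'
  rcases ha with rfl | rfl | rfl <;> rcases hb with rfl | rfl | rfl <;>
    rcases hc with rfl | rfl | rfl <;> rcases hx with rfl | rfl <;> rcases hy with rfl | rfl <;>
    rcases hz with rfl | rfl <;> norm_num

/-- The local weight of a component. -/
noncomputable def mu {C : Type} [DecidableEq C] (comp : X → C) (h : X → X → ℚ) (c : C) : ℚ :=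
  ∑ i ∈ univ.filter (fun i => comp i = c), ∑ j, ∑ k,
    (AA (fun i j => h i j ^ 2) i j k + BB (fun i j => h i j ^ 2) h i j k)

lemma VV_comp {C : Type} [Fintype C] [DecidableEq C] (comp : X → C) (h : X → X → ℚ)
    (hcomp : ∀ i j, h i j ≠ 0 → comp i = comp j) (τ : C → ℤˣ) :
    VV (fun i j => h i j ^ 2) h (fun x => τ (comp x)) = ∑ c, ((τ c : ℤ) : ℚ) * mu comp h c := by
  have h1 : ∀ i j k, AA (fun i j => h i j ^ 2) i j k *
      (vv (fun x => τ (comp x)) i * (vv (fun x => τ (comp x)) j * vv (fun x => τ (comp x)) k))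
      = AA (fun i j => h i j ^ 2) i j k * vv (fun x => τ (comp x)) i := by
    intro i j k
    by_cases hij : h i j = 0
    · simp [AA, hij]
    · by_cases hik : h i k = 0
      · simp [AA, hik]
      · have e1 := hcomp i j hij
        have e2 := hcomp i k hik
        have e3 : vv (fun x => τ (comp x)) j * vv (fun x => τ (comp x)) k = 1 := by
          have : vv (fun x => τ (comp x)) k = vv (fun x => τ (comp x)) j := by
            simp only [vv, ← e1, ← e2]
          rw [this]; exact vv_mul_self _ _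
        rw [e3, mul_one]
  have h2 : VV (fun i j => h i j ^ 2) h (fun x => τ (comp x))
      = ∑ i, ((τ (comp i) : ℤ) : ℚ) * ∑ j, ∑ k,
        (AA (fun i j => h i j ^ 2) i j k + BB (fun i j => h i j ^ 2) h i j k) := by
    unfold VV
    refine Finset.sum_congr rfl fun i _ => ?_
    rw [Finset.mul_sum]
    refine Finset.sum_congr rfl fun j _ => ?_
    rw [Finset.mul_sum]
    refine Finset.sum_congr rfl fun k _ => ?_
    rw [h1]
    simp only [vv]
    ring
  rw [h2, ← Finset.sum_fiberwise univ comp]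
  refine Finset.sum_congr rfl fun c _ => ?_
  unfold mu
  rw [Finset.mul_sum]
  refine Finset.sum_congr rfl fun i hi => ?_
  simp only [Finset.mem_filter, Finset.mem_univ, true_and] at hi
  rw [hi]

lemma mu_pos {C : Type} [Fintype C] [DecidableEq C] (comp : X → C) (h : X → X → ℚ) (σ : X → ℚ)
    (hcomp : ∀ i j, h i j ≠ 0 → comp i = comp j)
    (hval : ∀ i j, h i j = 0 ∨ h i j = 1 ∨ h i j = -1)
    (hsym : ∀ i j, h j i ^ 2 = h i j ^ 2)
    (hσ : ∀ i, σ i = 1 ∨ σ i = -1)
    (hprod : ∀ i j, h i j * h j i = - (σ i * σ j) * h i j ^ 2)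
    (c : C) (hne : ∃ i, comp i = c ∧ ∃ j, h i j ≠ 0) : 0 < mu comp h c := by
  classical
  -- indicator of the component
  set I : X → ℚ := fun i => if comp i = c then 1 else 0 with hI
  have hIadj : ∀ i j, h i j ≠ 0 → I i = I j := by
    intro i j hij
    simp only [hI, hcomp i j hij]
  have hI0 : ∀ i, 0 ≤ I i := by
    intro i; simp only [hI]; split_ifs <;> norm_num
  have hmu : mu comp h c = ∑ i, ∑ j, ∑ k,
      I i * (3 * (h i j ^ 2 * h i k ^ 2) - h i j ^ 2 * h j k ^ 2 * h i k ^ 2
        - 3 * (h i j * h i k * h j k ^ 2)) := by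
    unfold mu
    rw [Finset.sum_filter]
    refine Finset.sum_congr rfl fun i _ => ?_
    by_cases hc : comp i = c
    · simp only [hI, if_pos hc, one_mul]
      refine Finset.sum_congr rfl fun j _ => Finset.sum_congr rfl fun k _ => ?_
      simp only [AA, BB]; ring
    · simp only [hI, if_neg hc, zero_mul, Finset.sum_const_zero]
  -- the symmetrised sum
  set W : X → X → X → ℚ := fun i j k => I i * (h i j * h i k * h j k ^ 2) with hW
  have hW1 : ∑ i, ∑ j, ∑ k, W i j k = ∑ i, ∑ j, ∑ k, I i * (h j i * h j k * h i k ^ 2) := by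
    rw [Finset.sum_comm]
    refine Finset.sum_congr rfl fun i _ => Finset.sum_congr rfl fun j _ =>
      Finset.sum_congr rfl fun k _ => ?_
    simp only [hW]
    by_cases hji : h j i = 0
    · simp [hji]
    · rw [hIadj j i hji]
  have hW2 : ∑ i, ∑ j, ∑ k, W i j k = ∑ i, ∑ j, ∑ k, I i * (h k i * h k j * h i j ^ 2) := by
    have e1 : ∑ i, ∑ j, ∑ k, W i j k = ∑ k, ∑ i, ∑ j, W k i j := rfl
    have e2 : ∑ k, ∑ i, ∑ j, W k i j = ∑ i, ∑ j, ∑ k, W k i j := by
      rw [Finset.sum_comm]
      refine Finset.sum_congr rfl fun i _ => ?_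
      rw [Finset.sum_comm]
    rw [e1, e2]
    refine Finset.sum_congr rfl fun i _ => Finset.sum_congr rfl fun j _ =>
      Finset.sum_congr rfl fun k _ => ?_
    simp only [hW]
    by_cases hki : h k i = 0
    · simp [hki]
    · rw [hIadj k i hki]
  have hineq : ∑ i, ∑ j, ∑ k, 3 * W i j k ≤ ∑ i, ∑ j, ∑ k,
      I i * (h i j ^ 2 * h j k ^ 2 * h i k ^ 2) := by
    have e1 : ∑ i, ∑ j, ∑ k, 3 * W i j k
        = ∑ i, ∑ j, ∑ k, I i * (h i j * h i k * h j k ^ 2 + h j i * h j k * h i k ^ 2
          + h k i * h k j * h i j ^ 2) := by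
      have e2 : ∑ i, ∑ j, ∑ k, 3 * W i j k = ∑ i, ∑ j, ∑ k, W i j k + ∑ i, ∑ j, ∑ k, W i j k
          + ∑ i, ∑ j, ∑ k, W i j k := by
        simp only [← Finset.sum_add_distrib]
        refine Finset.sum_congr rfl fun i _ => Finset.sum_congr rfl fun j _ =>
          Finset.sum_congr rfl fun k _ => ?_
        ring
      have e3 : ∑ i, ∑ j, ∑ k, W i j k + ∑ i, ∑ j, ∑ k, W i j k + ∑ i, ∑ j, ∑ k, W i j k
          = ∑ i, ∑ j, ∑ k, W i j k + ∑ i, ∑ j, ∑ k, I i * (h j i * h j k * h i k ^ 2)
            + ∑ i, ∑ j, ∑ k, I i * (h k i * h k j * h i j ^ 2) := by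
        rw [← hW1, ← hW2]
      rw [e2, e3]
      simp only [hW, ← Finset.sum_add_distrib]
      refine Finset.sum_congr rfl fun i _ => Finset.sum_congr rfl fun j _ =>
        Finset.sum_congr rfl fun k _ => ?_
      ring
    rw [e1]
    refine Finset.sum_le_sum fun i _ => Finset.sum_le_sum fun j _ => Finset.sum_le_sum fun k _ => ?_
    apply mul_le_mul_of_nonneg_left _ (hI0 i)
    have := triple_ineq (a := h i j) (a' := h j i) (b := h j k) (b' := h k j) (c := h i k)
      (c' := h k i) (x := σ i) (y := σ j) (z := σ k) (hval i j) (hval j k) (hval i k)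
      (hσ i) (hσ j) (hσ k) (hsym i j) (hsym j k) (hsym i k) (hprod i j) (hprod j k) (hprod i k)
    linarith
  have hnn : ∀ i j k, 0 ≤ I i * (h i j ^ 2 * h i k ^ 2) := fun i j k =>
    mul_nonneg (hI0 i) (by positivity)
  have hlow : ∑ i, ∑ j, ∑ k, I i * (h i j ^ 2 * h i k ^ 2) ≤ mu comp h c := by
    have hle1 : ∀ i j k : X, I i * (h i j ^ 2 * h j k ^ 2 * h i k ^ 2)
        ≤ I i * (h i j ^ 2 * h i k ^ 2) := by
      intro i j k
      apply mul_le_mul_of_nonneg_left _ (hI0 i)
      have h1 : h j k ^ 2 ≤ 1 := by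
        rcases hval j k with e | e | e <;> rw [e] <;> norm_num
      nlinarith [mul_nonneg (sq_nonneg (h i j)) (sq_nonneg (h i k))]
    have hS : ∑ i, ∑ j, ∑ k, I i * (h i j ^ 2 * h j k ^ 2 * h i k ^ 2)
        ≤ ∑ i, ∑ j, ∑ k, I i * (h i j ^ 2 * h i k ^ 2) :=
      Finset.sum_le_sum fun i _ => Finset.sum_le_sum fun j _ => Finset.sum_le_sum fun k _ =>
        hle1 i j k
    have hsplit : mu comp h c = 3 * ∑ i, ∑ j, ∑ k, I i * (h i j ^ 2 * h i k ^ 2)
        - ∑ i, ∑ j, ∑ k, I i * (h i j ^ 2 * h j k ^ 2 * h i k ^ 2)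
        - ∑ i, ∑ j, ∑ k, 3 * W i j k := by
      rw [hmu]
      simp only [Finset.mul_sum, ← Finset.sum_sub_distrib]
      refine Finset.sum_congr rfl fun i _ => Finset.sum_congr rfl fun j _ =>
        Finset.sum_congr rfl fun k _ => ?_
      simp only [hW]; ring
    rw [hsplit]
    linarith
  refine lt_of_lt_of_le ?_ hlow
  obtain ⟨i, hi, j, hj⟩ := hne
  have h1 : 0 < I i * (h i j ^ 2 * h i j ^ 2) := by
    simp only [hI, if_pos hi, one_mul]
    positivity
  have h2 : I i * (h i j ^ 2 * h i j ^ 2) ≤ ∑ k, I i * (h i j ^ 2 * h i k ^ 2) :=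
    Finset.single_le_sum (f := fun k => I i * (h i j ^ 2 * h i k ^ 2)) (fun k _ => hnn i j k)
      (Finset.mem_univ j)
  have h3 : ∑ k, I i * (h i j ^ 2 * h i k ^ 2) ≤ ∑ j, ∑ k, I i * (h i j ^ 2 * h i k ^ 2) :=
    Finset.single_le_sum (f := fun j => ∑ k, I i * (h i j ^ 2 * h i k ^ 2))
      (fun j _ => Finset.sum_nonneg fun k _ => hnn i j k) (Finset.mem_univ j)
  have h4 : ∑ j, ∑ k, I i * (h i j ^ 2 * h i k ^ 2)
      ≤ ∑ i, ∑ j, ∑ k, I i * (h i j ^ 2 * h i k ^ 2) :=
    Finset.single_le_sum (f := fun i => ∑ j, ∑ k, I i * (h i j ^ 2 * h i k ^ 2))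
      (fun i _ => Finset.sum_nonneg fun j _ => Finset.sum_nonneg fun k _ => hnn i j k)
      (Finset.mem_univ i)
  linarith

/-- The counting theorem for the signed interlacement matrix of a reduced plane curve. -/
theorem count_graph (h : X → X → ℚ) (σ : X → ℚ)
    (hval : ∀ i j, h i j = 0 ∨ h i j = 1 ∨ h i j = -1)
    (hii : ∀ i, h i i = 0)
    (hsym : ∀ i j, h j i ^ 2 = h i j ^ 2)
    (hσ : ∀ i, σ i = 1 ∨ σ i = -1)
    (hprod : ∀ i j, h i j * h j i = - (σ i * σ j) * h i j ^ 2)
    (hP1 : ∀ i, ∑ j, h i j = 0) (hne : ∀ i, ∃ j, h i j ≠ 0) :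
    Fintype.card X ≤ (univ.image (fun s : X → ℤˣ =>
      (qq (fun i j => h i j ^ 2) s, VV (fun i j => h i j ^ 2) h s))).card := by
  classical
  have hsym0 : ∀ i j, h i j ≠ 0 → h j i ≠ 0 := by
    intro i j hij h0
    have := hsym i j
    rw [h0] at this
    exact hij (by nlinarith [this])
  let G : SimpleGraph X :=
    { Adj := fun i j => h i j ≠ 0
      symm := ⟨fun i j hij => hsym0 i j hij⟩
      loopless := ⟨fun i hi => hi (hii i)⟩ }
  have : Fintype G.ConnectedComponent := Fintype.ofFinite _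
  let comp : X → G.ConnectedComponent := G.connectedComponentMk
  have hcomp : ∀ i j, h i j ≠ 0 → comp i = comp j := by
    intro i j hij
    exact SimpleGraph.ConnectedComponent.sound (SimpleGraph.Adj.reachable (G := G) hij)
  have hsurj : Function.Surjective comp := by
    intro c
    induction c using SimpleGraph.ConnectedComponent.ind with
    | h v => exact ⟨v, rfl⟩
  refine count_main comp hsurj _ ?_ ?_ ?_ ?_ _ (VV_neg _ _) (VV_mul_mem _ _) (mu comp h) ?_
    (VV_comp comp h hcomp)
  · intro i j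
    rcases hval i j with e | e | e <;> rw [e] <;> norm_num
  · intro i j hij
    apply hcomp
    intro h0
    rw [h0] at hij; norm_num at hij
  · intro s hs i j hij
    have hr : G.Reachable i j := SimpleGraph.ConnectedComponent.exact hij
    rw [SimpleGraph.reachable_iff_reflTransGen] at hr
    induction hr with
    | refl => rfl
    | tail hab hbc ih =>
      rename_i b c
      have e1 : s b = s c := by
        apply hs
        have hbc' : h b c ≠ 0 := hbc
        rcases hval b c with e | e | e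
        · exact absurd e hbc'
        · rw [e]; norm_num
        · rw [e]; norm_num
      rw [← e1]
      apply ih
      rw [hcomp b c hbc]
      exact hij
  · intro c
    obtain ⟨i, rfl⟩ := hsurj c
    obtain ⟨j, hj⟩ := hne i
    have hex : ∃ k, k ≠ j ∧ h i k ≠ 0 := by
      by_contra hno
      push Not at hno
      have : ∑ k, h i k = h i j := Finset.sum_eq_single j (fun k _ hk => hno k hk) (by simp)
      rw [hP1] at this
      exact hj this.symm
    obtain ⟨k, hkj, hk⟩ := hex
    have hij : i ≠ j := fun e => hj (by rw [← e]; exact hii i)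
    have hik : i ≠ k := fun e => hk (by rw [← e]; exact hii i)
    have hsub : ({i, j, k} : Finset X) ⊆ univ.filter (fun x => comp x = comp i) := by
      intro x hx
      simp only [Finset.mem_insert, Finset.mem_singleton] at hx
      simp only [Finset.mem_filter, Finset.mem_univ, true_and]
      rcases hx with rfl | rfl | rfl
      · rfl
      · exact (hcomp i x hj).symm
      · exact (hcomp i x hk).symm
    have hcard : ({i, j, k} : Finset X).card = 3 := by
      rw [Finset.card_eq_three]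
      exact ⟨i, j, k, hij, hik, hkj.symm, rfl⟩
    calc 3 = ({i, j, k} : Finset X).card := hcard.symm
      _ ≤ _ := Finset.card_le_card hsub
  · intro c
    obtain ⟨i, hi⟩ := hsurj c
    exact mu_pos comp h σ hcomp hval hsym hσ hprod c ⟨i, hi, hne i⟩

end Graph

end Pool.Agent.Lib.MP_ae2e71_gt
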