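import Pool.Agent.Lib.MP_ae2e71_gt.Invariant
import Pool.Agent.Lib.MP_ae2e71_gt.CountGraph

set_option linter.unusedVariables false
set_option linter.unusedSimpArgs false

namespace Pool.Agent.Lib.MP_ae2e71_gt

open Finset Pool.Agent.KnotCode Pool.Agent.KnotCode.Code

/-- Exchange of the two passages of the crossings in `A`. -/
def flipP (A : Finset ℕ) (x : Passage) : Passage := if x.1 ∈ A then (x.1, !x.2) else x

lemma flipP_flipP (A : Finset ℕ) (x : Passage) : flipP A (flipP A x) = x := by
  obtain ⟨i, b⟩ := x
  unfold flipP
  by_cases h : i ∈ A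
  · simp [h]
  · simp [h]

lemma flipP_fst (A : Finset ℕ) (x : Passage) : (flipP A x).1 = x.1 := by
  unfold flipP; split_ifs <;> rfl

lemma flipP_inj (A : Finset ℕ) : Function.Injective (flipP A) := fun x y h => by
  rw [← flipP_flipP A x, h, flipP_flipP]

lemma change_word (D : Code) (A : Finset ℕ) : (D.change A).word = D.word.map (flipP A) := rfl

lemma mem_change (D : Code) (A : Finset ℕ) (x : Passage) :
    x ∈ (D.change A).word ↔ flipP A x ∈ D.word := by
  rw [change_word, List.mem_map]
  constructor
  · rintro ⟨y, hy, rfl⟩
    rw [flipP_flipP]; exact hy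
  · intro h
    exact ⟨_, h, flipP_flipP A x⟩

lemma change_crossings (D : Code) (A : Finset ℕ) : (D.change A).crossings = D.crossings := by
  unfold Code.crossings
  rw [change_word, List.map_map]
  congr 1
  apply List.map_congr_left
  intro x _
  exact flipP_fst A x

lemma change_wf {D : Code} (h : D.WellFormed) (A : Finset ℕ) : (D.change A).WellFormed := by
  refine ⟨?_, ?_⟩
  · rw [change_word]
    exact h.1.map (flipP_inj A)
  · intro i
    rw [mem_change, mem_change]
    unfold flipP
    by_cases hi : i ∈ A
    · simp only [hi, if_true, Bool.not_true, Bool.not_false]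
      exact (h.2 i).symm
    · simp only [hi, if_false]
      exact h.2 i

/-- The rotation of the corners when a crossing of sign `ε` is changed: the corner of the old
picture at a given corner of the new one. -/
def turn (ε : ℤˣ) (c : Corner) : Corner :=
  if ε = 1 then
    match c with
    | Corner.ne => Corner.nw
    | Corner.nw => Corner.sw
    | Corner.sw => Corner.se
    | Corner.se => Corner.ne
  else
    match c with
    | Corner.ne => Corner.se
    | Corner.se => Corner.sw
    | Corner.sw => Corner.nw
    | Corner.nw => Corner.ne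

lemma turn_surj (ε : ℤˣ) (c : Corner) : ∃ c', turn ε c' = c := by
  unfold turn
  rcases Int.units_eq_one_or ε with rfl | rfl
  · cases c
    · exact ⟨Corner.se, rfl⟩
    · exact ⟨Corner.ne, rfl⟩
    · exact ⟨Corner.nw, rfl⟩
    · exact ⟨Corner.sw, rfl⟩
  · cases c
    · exact ⟨Corner.nw, rfl⟩
    · exact ⟨Corner.sw, rfl⟩
    · exact ⟨Corner.se, rfl⟩
    · exact ⟨Corner.ne, rfl⟩

lemma turn_corner (ε : ℤˣ) (b : Bool) :
    turn ε (leftOut (-ε) b) = leftOut ε (!b) ∧ turn ε (rightOut (-ε) b) = rightOut ε (!b) ∧
    turn ε (leftIn (-ε) b) = leftIn ε (!b) ∧ turn ε (rightIn (-ε) b) = rightIn ε (!b) := by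
  rcases Int.units_eq_one_or ε with rfl | rfl <;> cases b <;>
    refine ⟨?_, ?_, ?_, ?_⟩ <;> rfl

lemma change_planar {D : Code} (h : D.Planar) (A : Finset ℕ) : (D.change A).Planar := by
  rcases h with h | ⟨region, hF, hS⟩
  · left
    rw [change_word, h]; rfl
  · right
    rw [change_crossings]
    refine ⟨fun i c => region i (if i ∈ A then turn (D.sign i) c else c), ?_, ?_⟩
    · intro x y hxy
      have hxy' : D.Follows (flipP A x) (flipP A y) := by
        obtain ⟨l, hl⟩ := hxy
        refine ⟨l.map (flipP A), ?_⟩
        have h1 := hl.map (flipP A)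
        rw [change_word, List.map_map] at h1
        have h2 : (flipP A ∘ flipP A) = id := by
          funext z; exact flipP_flipP A z
        rw [h2, List.map_id] at h1
        exact h1
      have h1 := hF _ _ hxy'
      rw [flipP_fst, flipP_fst] at h1
      have g : ∀ z : Passage,
          (if z.1 ∈ A then turn (D.sign z.1) (leftOut ((D.change A).sign z.1) z.2)
            else leftOut ((D.change A).sign z.1) z.2) = leftOut (D.sign z.1) (flipP A z).2 ∧
          (if z.1 ∈ A then turn (D.sign z.1) (rightOut ((D.change A).sign z.1) z.2)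
            else rightOut ((D.change A).sign z.1) z.2) = rightOut (D.sign z.1) (flipP A z).2 ∧
          (if z.1 ∈ A then turn (D.sign z.1) (leftIn ((D.change A).sign z.1) z.2)
            else leftIn ((D.change A).sign z.1) z.2) = leftIn (D.sign z.1) (flipP A z).2 ∧
          (if z.1 ∈ A then turn (D.sign z.1) (rightIn ((D.change A).sign z.1) z.2)
            else rightIn ((D.change A).sign z.1) z.2) = rightIn (D.sign z.1) (flipP A z).2 := by
        intro z
        have hz : (D.change A).sign z.1 = if z.1 ∈ A then - D.sign z.1 else D.sign z.1 := rfl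
        rw [hz]
        unfold flipP
        by_cases hA : z.1 ∈ A
        · simp only [hA, if_true]
          exact turn_corner _ _
        · simp only [hA, if_false, and_self]
      obtain ⟨x1, x2, x3, x4⟩ := g x
      obtain ⟨y1, y2, y3, y4⟩ := g y
      simp only
      rw [x1, x2, y3, y4]
      exact h1
    · intro r
      obtain ⟨i, hi, c, hc⟩ := hS r
      refine ⟨i, hi, ?_⟩
      by_cases hA : i ∈ A
      · obtain ⟨c', hc'⟩ := turn_surj (D.sign i) c
        refine ⟨c', ?_⟩
        simp only [hA, if_true, hc', hc]
      · refine ⟨c, ?_⟩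
        simp only [hA, if_false, hc]

/-- The diagram obtained by changing the crossings in `A`. -/
def changeDiagram (D : Diagram) (A : Finset ℕ) : Diagram where
  code := D.code.change A
  wellFormed := change_wf D.wellFormed A
  planar := change_planar D.planar A

lemma pos_change (D : Code) (A : Finset ℕ) (x : Passage) :
    pos (D.change A).word x = pos D.word (flipP A x) := by
  rw [change_word]
  have := pos_map (flipP_inj A) D.word (flipP A x)
  rw [flipP_flipP] at this
  exact this

lemma ins_change (D : Code) (A : Finset ℕ) (i : ℕ) (y : Passage) :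
    ins (pos (D.change A).word) i y = ins (pos D.word) i (flipP A y) := by
  unfold ins
  rw [pos_change, pos_change, pos_change]
  by_cases hi : i ∈ A
  · have h1 : flipP A (i, true) = (i, false) := by simp [flipP, hi]
    have h2 : flipP A (i, false) = (i, true) := by simp [flipP, hi]
    rw [h1, h2]
    by_cases h : (pos D.word (i, true) < pos D.word (flipP A y) ↔
      pos D.word (i, false) < pos D.word (flipP A y))
    · rw [if_pos h, if_pos h.symm]
    · rw [if_neg h, if_neg (fun h' => h (Iff.symm h'))]
  · have h1 : flipP A (i, true) = (i, true) := by simp [flipP, hi]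
    have h2 : flipP A (i, false) = (i, false) := by simp [flipP, hi]
    rw [h1, h2]

lemma ee_change (D : Code) (A : Finset ℕ) (i j : ℕ) :
    ((D.change A).sign j : ℤ) * ee (pos (D.change A).word) i j
      = (D.sign j : ℤ) * ee (pos D.word) i j := by
  have hz : (D.change A).sign j = if j ∈ A then - D.sign j else D.sign j := rfl
  rw [hz]
  unfold ee
  by_cases hij : i = j
  · rw [if_pos hij, if_pos hij]; ring
  · rw [if_neg hij, if_neg hij, ins_change, ins_change]
    by_cases hj : j ∈ A
    · have h1 : flipP A (j, true) = (j, false) := by simp [flipP, hj]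
      have h2 : flipP A (j, false) = (j, true) := by simp [flipP, hj]
      rw [h1, h2, if_pos hj, Units.val_neg]
      ring
    · have h1 : flipP A (j, true) = (j, true) := by simp [flipP, hj]
      have h2 : flipP A (j, false) = (j, false) := by simp [flipP, hj]
      rw [h1, h2, if_neg hj]

/-- A crossing which is not nugatory is interlaced with another one. -/
lemma exists_interlaced {D : Code} (hw : D.WellFormed) {i : ℕ} (hi : i ∈ D.crossings)
    (hn : ¬ D.Nugatory i) : ∃ j ∈ D.crossings, ee (pos D.word) i j ≠ 0 := by
  have hdec : ∃ (b : Bool) (s t1 t2 : List Passage),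
      D.word = s ++ (i, b) :: (t1 ++ (i, !b) :: t2) := by
    obtain ⟨s, t, hst⟩ := List.append_of_mem (wf_mem hw hi true)
    have h2 := wf_mem hw hi false
    rw [hst] at h2
    simp only [List.mem_append, List.mem_cons, Prod.mk.injEq, reduceCtorEq, and_false,
      false_or] at h2
    rcases h2 with h2 | h2
    · obtain ⟨s1, s2, hs⟩ := List.append_of_mem h2
      refine ⟨false, s1, s2, t, ?_⟩
      rw [hst, hs]
      simp
    · obtain ⟨t1, t2, ht⟩ := List.append_of_mem h2
      refine ⟨true, s, t1, t2, ?_⟩
      rw [hst, ht]
      simp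
  obtain ⟨b, s, t1, t2, hD⟩ := hdec
  have hex : ∃ x ∈ t1, ∃ y ∈ t2 ++ s, x.1 = y.1 := by
    by_contra hno
    push Not at hno
    apply hn
    refine ⟨b, t1, t2 ++ s, ?_, hno⟩
    rw [hD]
    have e : (i, b) :: (t1 ++ (i, !b) :: (t2 ++ s)) = ((i, b) :: (t1 ++ (i, !b) :: t2)) ++ s := by
      simp
    rw [e]
    exact List.isRotated_append
  obtain ⟨x, hx, y, hy, hxy⟩ := hex
  have hnd := hw.1
  rw [hD] at hnd
  have n1 := List.nodup_append.mp hnd
  have n2 := List.nodup_cons.mp n1.2.1
  have n3 := List.nodup_append.mp n2.2
  have n4 := List.nodup_cons.mp n3.2.1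
  have hb_s : (i, b) ∉ s := fun h => n1.2.2 _ h _ List.mem_cons_self rfl
  have hnb_s : (i, !b) ∉ s := fun h => n1.2.2 _ h (i, !b) (by simp) rfl
  have hnb_t1 : (i, !b) ∉ t1 := fun h => n3.2.2 _ h _ List.mem_cons_self rfl
  have p1 : pos D.word (i, b) = s.length := by
    rw [hD, pos_append_not hb_s, pos_cons_self]; rfl
  have p2 : pos D.word (i, !b) = s.length + 1 + t1.length := by
    rw [hD, pos_append_not hnb_s, pos_cons_ne (by simp), pos_append_not hnb_t1, pos_cons_self]
    omega
  have px : pos D.word x = s.length + 1 + pos t1 x := by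
    have h1 : x ∉ s := fun h => n1.2.2 _ h x (by simp [hx]) rfl
    have h2 : (i, b) ≠ x := fun h => n2.1 (by rw [h]; simp [hx])
    rw [hD, pos_append_not h1, pos_cons_ne h2, pos_append_mem hx]
    omega
  have hpx := pos_lt hx
  have py : pos D.word y < s.length ∨ s.length + 1 + t1.length < pos D.word y := by
    rcases List.mem_append.mp hy with h | h
    · right
      have h1 : y ∉ s := fun h' => n1.2.2 _ h' y (by simp [h]) rfl
      have h2 : (i, b) ≠ y := fun h' => n2.1 (by rw [h']; simp [h])
      have h3 : y ∉ t1 := fun h' => n3.2.2 _ h' y (by simp [h]) rfl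
      have h4 : (i, !b) ≠ y := fun h' => n4.1 (by rw [h']; exact h)
      rw [hD, pos_append_not h1, pos_cons_ne h2, pos_append_not h3, pos_cons_ne h4]
      omega
    · left
      rw [hD, pos_append_mem h]
      exact pos_lt h
  have ix : ins (pos D.word) i x = 1 := by
    unfold ins
    cases b
    · simp only [Bool.not_false] at p2
      rw [if_neg]; omega
    · simp only [Bool.not_true] at p2
      rw [if_neg]; omega
  have iy : ins (pos D.word) i y = 0 := by
    unfold ins
    cases b
    · simp only [Bool.not_false] at p2
      rw [if_pos]; omega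
    · simp only [Bool.not_true] at p2
      rw [if_pos]; omega
  obtain ⟨j, c⟩ := x
  obtain ⟨j', d⟩ := y
  simp only at hxy
  subst hxy
  have hij : i ≠ j := by
    rintro rfl
    have : c = b ∨ c = !b := by cases b <;> cases c <;> simp
    rcases this with rfl | rfl
    · rw [p1] at px; omega
    · rw [p2] at px; omega
  have hcd : d = !c := by
    cases c <;> cases d <;> simp only [Bool.not_true, Bool.not_false, reduceCtorEq] <;>
      · rw [ix] at iy; exact absurd iy (by norm_num)
  refine ⟨j, mem_crossings.mpr ⟨c, ?_⟩, ?_⟩
  · rw [hD]; simp [hx]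
  · unfold ee
    rw [if_neg hij]
    subst hcd
    cases c
    · simp only [Bool.not_false] at iy
      rw [ix, iy]; norm_num
    · simp only [Bool.not_true] at iy
      rw [ix, iy]; norm_num

end Pool.Agent.Lib.MP_ae2e71_gt
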