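import Pool.Agent.Lib.MP_ae2e71_gt.Inv

namespace Pool.Agent.Lib.MP_ae2e71_gt

open Finset Pool.Agent.KnotCode

/-- The position of a passage. -/
def pos (w : List Passage) (x : Passage) : ℕ := w.idxOf x

lemma mem_crossings {D : Code} {i : ℕ} : i ∈ D.crossings ↔ ∃ b, (i, b) ∈ D.word := by
  unfold Code.crossings
  rw [List.mem_toFinset, List.mem_map]
  constructor
  · rintro ⟨⟨j, b⟩, h, rfl⟩
    exact ⟨b, h⟩
  · rintro ⟨b, h⟩
    exact ⟨(i, b), h, rfl⟩

lemma wf_mem {D : Code} (h : D.WellFormed) {i : ℕ} (hi : i ∈ D.crossings) (b : Bool) :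
    (i, b) ∈ D.word := by
  obtain ⟨c, hc⟩ := mem_crossings.mp hi
  have := h.2 i
  cases b <;> cases c
  · exact hc
  · exact this.mp hc
  · exact this.mpr hc
  · exact hc

lemma pos_ne {D : Code} {x y : Passage} (hx : x ∈ D.word) (hxy : x ≠ y) :
    pos D.word x ≠ pos D.word y := by
  intro e
  exact hxy ((List.idxOf_inj hx).mp e)

lemma sep_of_wf {D : Code} (h : D.WellFormed) {i j : ℕ} (hi : i ∈ D.crossings)
    (hj : j ∈ D.crossings) (hij : i ≠ j) : Sep (pos D.word) i j := by
  refine ⟨?_, ?_, ?_⟩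
  · exact pos_ne (wf_mem h hi _) (by simp)
  · exact pos_ne (wf_mem h hj _) (by simp)
  · intro b c
    exact pos_ne (wf_mem h hi _) (by simp [hij])

/-- The passages of a code, listed in cyclic order. -/
def codeE (D : Code) (h : D.WellFormed) : {i // i ∈ D.crossings} × Bool ≃ Fin D.word.length where
  toFun x := ⟨D.word.idxOf (x.1.1, x.2), List.idxOf_lt_length_iff.mpr (wf_mem h x.1.2 x.2)⟩
  invFun t := (⟨(D.word[t]).1, mem_crossings.mpr ⟨(D.word[t]).2, List.getElem_mem _⟩⟩,
    (D.word[t]).2)
  left_inv := by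
    rintro ⟨⟨i, hi⟩, b⟩
    simp
  right_inv := by
    intro t
    apply Fin.ext
    simp [h.1.idxOf_getElem]

lemma codeE_apply (D : Code) (h : D.WellFormed) (i : {i // i ∈ D.crossings}) (b : Bool) :
    (codeE D h (i, b)).val = pos D.word (i.1, b) := rfl

lemma word_codeE (D : Code) (h : D.WellFormed) (i : {i // i ∈ D.crossings}) (b : Bool) :
    D.word[codeE D h (i, b)] = (i.1, b) := by
  simp [codeE]

lemma follows_succ (D : Code) [NeZero D.word.length] (h2 : 2 ≤ D.word.length)
    (t : Fin D.word.length) : D.Follows D.word[t] D.word[t + 1] := by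
  have hl : (D.word.rotate t).length = D.word.length := List.length_rotate _ _
  have h0 : (D.word.rotate t)[0]'(by omega) = D.word[t] := by
    rw [List.getElem_rotate]
    simp [Nat.mod_eq_of_lt t.isLt]
  have h1 : (D.word.rotate t)[1]'(by omega) = D.word[t + 1] := by
    rw [List.getElem_rotate]
    have : (t + 1).val = (1 + t.val) % D.word.length := by
      simp [Fin.val_add, Nat.add_comm]
    simp [this]
  refine ⟨(D.word.rotate t).drop 2, ?_⟩
  have h3 : D.word[t] :: D.word[t + 1] :: (D.word.rotate t).drop 2 = D.word.rotate t := by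
    rw [← h0, ← h1]
    have e1 : (D.word.rotate t) = (D.word.rotate t).drop 0 := by simp
    have e2 : (D.word.rotate t).drop 0 = (D.word.rotate t)[0]'(by omega) ::
      (D.word.rotate t).drop 1 := by
      rw [← List.cons_getElem_drop_succ]
    have e3 : (D.word.rotate t).drop 1 = (D.word.rotate t)[1]'(by omega) ::
      (D.word.rotate t).drop 2 := by
      rw [← List.cons_getElem_drop_succ]
    rw [← e3, ← e2, ← e1]
  rw [h3]
  exact List.IsRotated.symm ⟨t.val, rfl⟩

lemma length_ge (D : Code) (h : D.WellFormed) (hne : D.word ≠ []) : 2 ≤ D.word.length := by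
  obtain ⟨x, hx⟩ := List.exists_mem_of_ne_nil _ hne
  have hi : x.1 ∈ D.crossings := mem_crossings.mpr ⟨x.2, hx⟩
  have h1 := wf_mem h hi true
  have h2 := wf_mem h hi false
  have h3 : D.word.idxOf (x.1, true) < D.word.length := List.idxOf_lt_length_iff.mpr h1
  have h4 : D.word.idxOf (x.1, false) < D.word.length := List.idxOf_lt_length_iff.mpr h2
  have h5 : D.word.idxOf (x.1, true) ≠ D.word.idxOf (x.1, false) := pos_ne h1 (by simp)
  omega

/-- The plane curve data of a planar code. -/
def codePlane (D : Code) (h : D.WellFormed) [NeZero D.word.length]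
    (region : ℕ → Corner → Fin (D.crossings.card + 2))
    (hF : ∀ x y, D.Follows x y →
      region x.1 (leftOut (D.sign x.1) x.2) = region y.1 (leftIn (D.sign y.1) y.2) ∧
      region x.1 (rightOut (D.sign x.1) x.2) = region y.1 (rightIn (D.sign y.1) y.2))
    (hS : ∀ r, ∃ i ∈ D.crossings, ∃ c, region i c = r) :
    PlaneData {i // i ∈ D.crossings} (Fin (D.crossings.card + 2)) D.word.length where
  E := codeE D h
  s i := ((D.sign i.1 : ℤ) : ℚ)
  hs i := by
    rcases Int.units_eq_one_or (D.sign i.1) with e | e <;> rw [e] <;> simp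
  L t := region (D.word[t]).1 (leftIn (D.sign (D.word[t]).1) (D.word[t]).2)
  R t := region (D.word[t]).1 (rightIn (D.sign (D.word[t]).1) (D.word[t]).2)
  hκ := by simp
  hsurj := by
    intro r
    obtain ⟨i, hi, c, rfl⟩ := hS r
    have h2 : 2 ≤ D.word.length := length_ge D h (by
      intro e
      have := NeZero.ne D.word.length
      rw [e] at this; simp at this)
    have hf := follows_succ D h2 (codeE D h (⟨i, hi⟩, true))
    have hF' := hF _ _ hf
    rw [word_codeE] at hF'
    cases c
    · refine ⟨codeE D h (⟨i, hi⟩, true) + 1, Or.inl ?_⟩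
      rw [← hF'.1]; rfl
    · refine ⟨codeE D h (⟨i, hi⟩, true), Or.inl ?_⟩
      rw [word_codeE]; rfl
    · refine ⟨codeE D h (⟨i, hi⟩, true), Or.inr ?_⟩
      rw [word_codeE]; rfl
    · refine ⟨codeE D h (⟨i, hi⟩, true) + 1, Or.inr ?_⟩
      rw [← hF'.2]; rfl
  hcross := by
    rintro ⟨i, hi⟩
    have h2 : 2 ≤ D.word.length := length_ge D h (by
      intro e
      have := NeZero.ne D.word.length
      rw [e] at this; simp at this)
    have ho := hF _ _ (follows_succ D h2 (codeE D h (⟨i, hi⟩, true)))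
    have hu := hF _ _ (follows_succ D h2 (codeE D h (⟨i, hi⟩, false)))
    unfold CrossRel
    beta_reduce
    rw [← ho.1, ← ho.2, ← hu.1, ← hu.2]
    simp only [word_codeE]
    rcases Int.units_eq_one_or (D.sign i) with e | e
    · rw [e]
      constructor
      · intro _
        simp [leftOut, rightOut, leftIn, rightIn]
      · intro hc
        exfalso
        exact hc (by simp)
    · rw [e]
      constructor
      · intro hc
        exfalso
        norm_num at hc
      · intro _
        simp [leftOut, rightOut, leftIn, rightIn]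

lemma ez_codeE (D : Code) (h : D.WellFormed) (i j : {i // i ∈ D.crossings}) :
    ez (codeE D h) i j = (ee (pos D.word) i.1 j.1 : ℚ) := by
  unfold ez ee
  by_cases hij : i = j
  · rw [if_pos hij, if_pos (by rw [hij])]; simp
  · rw [if_neg hij, if_neg (fun e => hij (Subtype.ext e))]
    have hz : ∀ y : {i // i ∈ D.crossings} × Bool, zz (codeE D h) i (codeE D h y)
        = (ins (pos D.word) i.1 (y.1.1, y.2) : ℚ) := by
      intro y
      unfold zz ins
      simp only [Fin.lt_def, codeE_apply]
      push_cast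
      rfl
    rw [hz, hz]
    push_cast
    rfl

lemma code_P1 (D : Code) (h : D.WellFormed) (hp : D.Planar) (i : ℕ) (hi : i ∈ D.crossings) :
    ∑ j ∈ D.crossings, (D.sign j : ℤ) * ee (pos D.word) i j = 0 := by
  have hne : D.word ≠ [] := by
    rintro e
    obtain ⟨b, hb⟩ := mem_crossings.mp hi
    rw [e] at hb; simp at hb
  rcases hp with e | ⟨region, hF, hS⟩
  · exact absurd e hne
  have : NeZero D.word.length := ⟨by simpa using hne⟩
  have h1 := plane_P1 (codePlane D h region hF hS) ⟨i, hi⟩
  have h2 : ∀ j : {i // i ∈ D.crossings}, (codePlane D h region hF hS).s j *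
      ez (codePlane D h region hF hS).E ⟨i, hi⟩ j
      = (((D.sign j.1 : ℤ) * ee (pos D.word) i j.1 : ℤ) : ℚ) := by
    intro j
    push_cast
    rw [← ez_codeE D h ⟨i, hi⟩ j]
    rfl
  rw [Finset.sum_congr rfl fun j _ => h2 j, ← Int.cast_sum] at h1
  have h3 : ∑ j : {i // i ∈ D.crossings}, (D.sign j.1 : ℤ) * ee (pos D.word) i j.1 = 0 := by
    exact_mod_cast h1
  rw [← h3]
  exact (Finset.sum_coe_sort D.crossings (fun j => (D.sign j : ℤ) * ee (pos D.word) i j)).symm

lemma code_P2 (D : Code) (h : D.WellFormed) (hp : D.Planar) (i k : ℕ) (hi : i ∈ D.crossings)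
    (hk : k ∈ D.crossings) (hik : i ≠ k) (h0 : ee (pos D.word) i k = 0) :
    ∑ j ∈ D.crossings, (D.sign j : ℤ) * (ee (pos D.word) i j * ee (pos D.word) k j ^ 2) = 0 := by
  have hne : D.word ≠ [] := by
    rintro e
    obtain ⟨b, hb⟩ := mem_crossings.mp hi
    rw [e] at hb; simp at hb
  rcases hp with e | ⟨region, hF, hS⟩
  · exact absurd e hne
  have : NeZero D.word.length := ⟨by simpa using hne⟩
  have h1 := plane_P2 (codePlane D h region hF hS) ⟨i, hi⟩ ⟨k, hk⟩
    (fun e => hik (congrArg Subtype.val e))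
    (by
      have := ez_codeE D h ⟨i, hi⟩ ⟨k, hk⟩
      rw [h0] at this
      push_cast at this
      exact this)
  have h2 : ∀ j : {i // i ∈ D.crossings}, (codePlane D h region hF hS).s j *
      (ez (codePlane D h region hF hS).E ⟨i, hi⟩ j *
        ez (codePlane D h region hF hS).E ⟨k, hk⟩ j ^ 2)
      = (((D.sign j.1 : ℤ) * (ee (pos D.word) i j.1 * ee (pos D.word) k j.1 ^ 2) : ℤ) : ℚ) := by
    intro j
    push_cast
    rw [← ez_codeE D h ⟨i, hi⟩ j, ← ez_codeE D h ⟨k, hk⟩ j]
    rfl
  rw [Finset.sum_congr rfl fun j _ => h2 j, ← Int.cast_sum] at h1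
  have h3 : ∑ j : {i // i ∈ D.crossings},
      (D.sign j.1 : ℤ) * (ee (pos D.word) i j.1 * ee (pos D.word) k j.1 ^ 2) = 0 := by
    exact_mod_cast h1
  rw [← h3]
  exact (Finset.sum_coe_sort D.crossings
    (fun j => (D.sign j : ℤ) * (ee (pos D.word) i j * ee (pos D.word) k j ^ 2))).symm

end Pool.Agent.Lib.MP_ae2e71_gt
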