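import Pool.Agent.Lib.MP_ae2e71_gt.Cube

set_option linter.unusedSectionVars false

/-!
# The counting theorem

Sets of coordinates with few odd components, and positivity of a character sum.
-/

namespace Pool.Agent.Lib.MP_ae2e71_gt

open Finset

section Sets

variable {X C : Type} [Fintype X] [DecidableEq X] [Fintype C] [DecidableEq C]

/-- The number of points of `T` in the component `c`. -/
def cnt (comp : X → C) (T : Finset X) (c : C) : ℕ := (T.filter (fun x => comp x = c)).card

/-- The components which meet `T` in an odd number of points. -/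
def oddSet (comp : X → C) (T : Finset X) : Finset C := univ.filter (fun c => Odd (cnt comp T c))

lemma card_eq_sum_cnt (comp : X → C) (T : Finset X) : T.card = ∑ c, cnt comp T c := by
  unfold cnt
  exact Finset.card_eq_sum_card_fiberwise (fun x _ => Finset.mem_coe.mpr (Finset.mem_univ (comp x)))

lemma oddSet_parity (comp : X → C) (T : Finset X) : (oddSet comp T).card % 2 = T.card % 2 := by
  rw [card_eq_sum_cnt comp T, oddSet, Finset.card_filter, Finset.sum_nat_mod,
    Finset.sum_nat_mod _ _ (fun c => cnt comp T c)]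
  congr 1
  refine Finset.sum_congr rfl fun c _ => ?_
  by_cases h : Odd (cnt comp T c)
  · rw [if_pos h]; rw [Nat.odd_iff] at h; omega
  · rw [if_neg h]; rw [Nat.not_odd_iff] at h; omega

set_option linter.unusedVariables false in
lemma cnt_swap_add (comp : X → C) {T : Finset X} {x y : X} (hx : x ∉ T) (hy : y ∈ T)
    (hxy : comp x ≠ comp y) : cnt comp (insert x (T.erase y)) (comp x) = cnt comp T (comp x) + 1 := by
  unfold cnt
  have hne : x ≠ y := fun h => hxy (by rw [h])
  rw [Finset.filter_insert, if_pos rfl, Finset.filter_erase]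
  have h1 : y ∉ T.filter (fun z => comp z = comp x) := by
    simp only [Finset.mem_filter, not_and]
    intro _ h; exact hxy h.symm
  rw [Finset.erase_eq_of_notMem h1, Finset.card_insert_of_notMem]
  simp [hx]

set_option linter.unusedVariables false in
lemma cnt_swap_sub (comp : X → C) {T : Finset X} {x y : X} (hx : x ∉ T) (hy : y ∈ T)
    (hxy : comp x ≠ comp y) : cnt comp (insert x (T.erase y)) (comp y) + 1 = cnt comp T (comp y) := by
  unfold cnt
  rw [Finset.filter_insert, if_neg hxy, Finset.filter_erase]
  have h1 : y ∈ T.filter (fun z => comp z = comp y) := by simp [hy]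
  rw [Finset.card_erase_of_mem h1]
  have := Finset.card_pos.mpr ⟨y, h1⟩
  omega

lemma cnt_swap_other (comp : X → C) {T : Finset X} {x y : X} {c : C}
    (hcx : c ≠ comp x) (hcy : c ≠ comp y) : cnt comp (insert x (T.erase y)) c = cnt comp T c := by
  unfold cnt
  rw [Finset.filter_insert, if_neg (fun h => hcx h.symm), Finset.filter_erase]
  have h1 : y ∉ T.filter (fun z => comp z = c) := by
    simp only [Finset.mem_filter, not_and]
    intro _ h; exact hcy h.symm
  rw [Finset.erase_eq_of_notMem h1]

lemma exists_good_set (comp : X → C)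
    (hsize : ∀ c, 3 ≤ (univ.filter (fun j => comp j = c)).card) (m : ℕ) (hm : 2 ≤ m)
    (hmX : m ≤ Fintype.card X) :
    ∃ T : Finset X, T.card = m ∧ 3 * (oddSet comp T).card ≤ m := by
  have hne : (Finset.powersetCard m (univ : Finset X)).Nonempty := by
    apply Finset.powersetCard_nonempty.mpr
    simpa using hmX
  obtain ⟨T, hT, hmin⟩ := Finset.exists_min_image _ (fun T => (oddSet comp T).card) hne
  have hTc : T.card = m := (Finset.mem_powersetCard.mp hT).2
  refine ⟨T, hTc, ?_⟩
  have hpar := oddSet_parity comp T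
  rcases Nat.lt_or_ge (oddSet comp T).card 2 with hl | hl
  · omega
  · -- all odd components are full
    have hfull : ∀ c ∈ oddSet comp T, 3 ≤ cnt comp T c := by
      intro c hc
      by_contra hcon
      -- c is not full
      have hex : ∃ x, x ∉ T ∧ comp x = c := by
        by_contra hno
        push Not at hno
        apply hcon
        refine le_trans (hsize c) ?_
        unfold cnt
        apply Finset.card_le_card
        intro x hx
        simp only [Finset.mem_filter, Finset.mem_univ, true_and] at hx ⊢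
        refine ⟨?_, hx⟩
        by_contra hxT
        exact hno x hxT hx
      obtain ⟨x, hxT, hxc⟩ := hex
      obtain ⟨c', hc', hcc'⟩ := Finset.exists_mem_ne (by omega : 1 < (oddSet comp T).card) c
      have hodd' : Odd (cnt comp T c') := by simpa [oddSet] using hc'
      have hpos : 0 < cnt comp T c' := hodd'.pos
      obtain ⟨y, hy⟩ := Finset.card_pos.mp hpos
      simp only [Finset.mem_filter] at hy
      have hxy : comp x ≠ comp y := by rw [hxc, hy.2]; exact hcc'.symm
      have hcard : (insert x (T.erase y)).card = m := by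
        rw [Finset.card_insert_of_notMem (by simp [hxT]), Finset.card_erase_of_mem hy.1]
        have := Finset.card_pos.mpr ⟨y, hy.1⟩
        omega
      have hmem : insert x (T.erase y) ∈ Finset.powersetCard m (univ : Finset X) := by
        rw [Finset.mem_powersetCard]; exact ⟨Finset.subset_univ _, hcard⟩
      have hge := hmin _ hmem
      have hsub : oddSet comp (insert x (T.erase y)) ⊆ (oddSet comp T).erase c := by
        intro d hd
        have hd' : Odd (cnt comp (insert x (T.erase y)) d) := by simpa [oddSet] using hd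
        by_cases h1 : d = comp x
        · exfalso
          subst h1
          rw [cnt_swap_add comp hxT hy.1 hxy] at hd'
          have h2 : Odd (cnt comp T (comp x)) := by rw [hxc]; simpa [oddSet] using hc
          rw [Nat.odd_iff] at hd' h2; omega
        · by_cases h2 : d = comp y
          · exfalso
            subst h2
            have h3 := cnt_swap_sub comp hxT hy.1 hxy
            rw [← hy.2] at hodd'
            rw [Nat.odd_iff] at hd' hodd'; omega
          · rw [cnt_swap_other comp h1 h2] at hd'
            rw [Finset.mem_erase]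
            refine ⟨by rw [← hxc]; exact h1, ?_⟩
            simpa [oddSet] using hd'
      have hlt := Finset.card_le_card hsub
      rw [Finset.card_erase_of_mem hc] at hlt
      omega
    have h1 : ∑ c ∈ oddSet comp T, 3 ≤ ∑ c ∈ oddSet comp T, cnt comp T c :=
      Finset.sum_le_sum hfull
    have h2 : ∑ c ∈ oddSet comp T, cnt comp T c ≤ ∑ c, cnt comp T c :=
      Finset.sum_le_sum_of_subset (Finset.subset_univ _)
    rw [← card_eq_sum_cnt, hTc] at h2
    simp only [Finset.sum_const, smul_eq_mul] at h1
    omega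

end Sets

section CharSum

variable {X C : Type} [Fintype X] [DecidableEq X] [Fintype C] [DecidableEq C]

lemma sum_units_pow (k : ℕ) : ∑ t : ℤˣ, (((t : ℤ) : ℚ)) ^ k = 1 + (-1) ^ k := by
  rw [UnitsInt.univ]
  rw [Finset.sum_insert (by decide), Finset.sum_singleton]
  simp

lemma sum_prod_pow (n : C → ℕ) :
    ∑ τ : C → ℤˣ, ∏ c, (((τ c : ℤ) : ℚ)) ^ n c = ∏ c, (1 + (-1 : ℚ) ^ n c) := by
  have h := Finset.prod_univ_sum (fun _ : C => (univ : Finset ℤˣ))
    (fun (c : C) (t : ℤˣ) => (((t : ℤ) : ℚ)) ^ n c)
  rw [Fintype.piFinset_univ] at h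
  rw [← h]
  exact Finset.prod_congr rfl fun c _ => sum_units_pow (n c)

lemma sum_prod_pow_nonneg (n : C → ℕ) :
    0 ≤ ∑ τ : C → ℤˣ, ∏ c, (((τ c : ℤ) : ℚ)) ^ n c := by
  rw [sum_prod_pow]
  apply Finset.prod_nonneg
  intro c _
  rcases neg_one_pow_eq_or ℚ (n c) with h | h <;> rw [h] <;> norm_num

lemma sum_prod_pow_pos (n : C → ℕ) (h : ∀ c, Even (n c)) :
    0 < ∑ τ : C → ℤˣ, ∏ c, (((τ c : ℤ) : ℚ)) ^ n c := by
  rw [sum_prod_pow]
  apply Finset.prod_pos
  intro c _
  rw [(h c).neg_one_pow]; norm_num

lemma charSum_pos (comp : X → C) (T : Finset X) (mu : C → ℚ) (hmu : ∀ c, 0 < mu c) :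
    0 < ∑ τ : C → ℤˣ, (∑ c, ((τ c : ℤ) : ℚ) * mu c) ^ (oddSet comp T).card
      * ∏ x ∈ T, ((τ (comp x) : ℤ) : ℚ) := by
  set l := (oddSet comp T).card with hl
  have h1 : ∀ τ : C → ℤˣ, (∑ c, ((τ c : ℤ) : ℚ) * mu c) ^ l
      = ∑ φ : Fin l → C, ∏ a, (((τ (φ a) : ℤ) : ℚ) * mu (φ a)) := by
    intro τ
    have h := Finset.prod_univ_sum (fun _ : Fin l => (univ : Finset C))
      (fun (_ : Fin l) (c : C) => ((τ c : ℤ) : ℚ) * mu c)
    rw [Fintype.piFinset_univ] at h
    rw [← h, Finset.prod_const, Finset.card_univ, Fintype.card_fin]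
  have h2 : ∀ (τ : C → ℤˣ), ∏ x ∈ T, ((τ (comp x) : ℤ) : ℚ)
      = ∏ c, (((τ c : ℤ) : ℚ)) ^ cnt comp T c := by
    intro τ
    rw [← Finset.prod_fiberwise' T comp (fun c => ((τ c : ℤ) : ℚ))]
    refine Finset.prod_congr rfl fun c _ => ?_
    rw [Finset.prod_const]; rfl
  have h3 : ∀ (φ : Fin l → C) (τ : C → ℤˣ), ∏ a, ((τ (φ a) : ℤ) : ℚ)
      = ∏ c, (((τ c : ℤ) : ℚ)) ^ (univ.filter (fun a => φ a = c)).card := by
    intro φ τ
    rw [← Finset.prod_fiberwise' univ φ (fun c => ((τ c : ℤ) : ℚ))]
    refine Finset.prod_congr rfl fun c _ => ?_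
    rw [Finset.prod_const]
  have h4 : ∑ τ : C → ℤˣ, (∑ c, ((τ c : ℤ) : ℚ) * mu c) ^ l
      * ∏ x ∈ T, ((τ (comp x) : ℤ) : ℚ)
      = ∑ φ : Fin l → C, (∏ a, mu (φ a)) * ∑ τ : C → ℤˣ,
        ∏ c, (((τ c : ℤ) : ℚ)) ^ ((univ.filter (fun a => φ a = c)).card + cnt comp T c) := by
    calc _ = ∑ τ : C → ℤˣ, ∑ φ : Fin l → C, (∏ a, mu (φ a)) *
          ∏ c, (((τ c : ℤ) : ℚ)) ^ ((univ.filter (fun a => φ a = c)).card + cnt comp T c) := by
          refine Finset.sum_congr rfl fun τ _ => ?_
          rw [h1, h2, Finset.sum_mul]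
          refine Finset.sum_congr rfl fun φ _ => ?_
          rw [Finset.prod_mul_distrib, h3]
          simp only [pow_add, Finset.prod_mul_distrib]
          ring
      _ = _ := by
          rw [Finset.sum_comm]
          refine Finset.sum_congr rfl fun φ _ => ?_
          rw [Finset.mul_sum]
  rw [h4]
  apply Finset.sum_pos'
  · intro φ _
    exact mul_nonneg (Finset.prod_nonneg fun a _ => (hmu _).le) (sum_prod_pow_nonneg _)
  · refine ⟨fun a => ((oddSet comp T).equivFin.symm a : C), Finset.mem_univ _, ?_⟩
    apply mul_pos (Finset.prod_pos fun a _ => hmu _)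
    apply sum_prod_pow_pos
    intro c
    by_cases hc : c ∈ oddSet comp T
    · have h5 : (univ.filter (fun a : Fin l => ((oddSet comp T).equivFin.symm a : C) = c)).card = 1 := by
        rw [Finset.card_eq_one]
        refine ⟨(oddSet comp T).equivFin ⟨c, hc⟩, ?_⟩
        ext a
        simp only [Finset.mem_filter, Finset.mem_univ, true_and, Finset.mem_singleton]
        constructor
        · intro h
          rw [← Equiv.symm_apply_eq]
          exact Subtype.ext h
        · intro h; rw [h]; simp
      rw [h5]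
      have : Odd (cnt comp T c) := by simpa [oddSet] using hc
      rw [Nat.odd_iff] at this
      rw [Nat.even_iff]; omega
    · have h5 : (univ.filter (fun a : Fin l => ((oddSet comp T).equivFin.symm a : C) = c)).card = 0 := by
        rw [Finset.card_eq_zero, Finset.filter_eq_empty_iff]
        intro a _ h
        exact hc (h ▸ ((oddSet comp T).equivFin.symm a).2)
      rw [h5]
      have : ¬ Odd (cnt comp T c) := by simpa [oddSet] using hc
      rw [Nat.not_odd_iff] at this
      rw [Nat.even_iff]; omega

end CharSum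

end Pool.Agent.Lib.MP_ae2e71_gt
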