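import Pool.Agent.Lib.MP_ae2e71_gt.Count

set_option linter.unusedSectionVars false

/-!
# The counting theorem: a quadratic and a cubic function on the cube take many joint values
-/

namespace Pool.Agent.Lib.MP_ae2e71_gt

open Finset

section Main

variable {X C : Type} [Fintype X] [DecidableEq X] [Fintype C] [DecidableEq C]

/-- The quadratic function of a 0/1 matrix. -/
def qq (lam : X → X → ℚ) (s : X → ℤˣ) : ℚ := ∑ i, ∑ j, lam i j * (vv s i * vv s j)

lemma qq_neg (lam : X → X → ℚ) (s : X → ℤˣ) : qq lam (-s) = qq lam s := by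
  unfold qq
  simp only [vv_neg]
  refine Finset.sum_congr rfl fun i _ => Finset.sum_congr rfl fun j _ => ?_
  ring

lemma qq_mul_mem (lam : X → X → ℚ) {d : ℕ} {f : (X → ℤˣ) → ℚ} (hf : f ∈ F X d) :
    (fun s => qq lam s * f s) ∈ F X (d + 2) := by
  have h1 : (fun s => qq lam s * f s)
      = ∑ i, ∑ j, lam i j • (fun s => vv s i * (vv s j * f s)) := by
    funext s
    simp only [qq, Finset.sum_apply, Pi.smul_apply, smul_eq_mul, Finset.sum_mul]
    refine Finset.sum_congr rfl fun i _ => Finset.sum_congr rfl fun j _ => ?_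
    ring
  rw [h1]
  refine Submodule.sum_mem _ fun i _ => Submodule.sum_mem _ fun j _ => Submodule.smul_mem _ _ ?_
  exact F_vv_mul (F_vv_mul hf j) i

lemma vv_mul_le (s : X → ℤˣ) (i j : X) : vv s i * vv s j ≤ 1 := by
  rcases units_cases (s i) with h | h <;> rcases units_cases (s j) with h' | h' <;>
    simp [vv, h, h']

lemma vv_mul_eq_one_iff (s : X → ℤˣ) (i j : X) : vv s i * vv s j = 1 ↔ s i = s j := by
  rcases Int.units_eq_one_or (s i) with h | h <;> rcases Int.units_eq_one_or (s j) with h' | h' <;>
    simp [vv, h, h'] <;> norm_num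

lemma qq_eq_max_iff (lam : X → X → ℚ) (hlam : ∀ i j, lam i j = 0 ∨ lam i j = 1) (s : X → ℤˣ) :
    qq lam s = ∑ i, ∑ j, lam i j ↔ ∀ i j, lam i j = 1 → s i = s j := by
  have hle : ∀ i j, lam i j * (vv s i * vv s j) ≤ lam i j := by
    intro i j
    rcases hlam i j with h | h
    · rw [h]; simp
    · rw [h, one_mul]; exact vv_mul_le s i j
  constructor
  · intro h i j hij
    unfold qq at h
    have h1 := (Finset.sum_eq_sum_iff_of_le (fun i _ => Finset.sum_le_sum fun j _ => hle i j)).mp h
      i (Finset.mem_univ _)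
    have h2 := (Finset.sum_eq_sum_iff_of_le (fun j _ => hle i j)).mp h1 j (Finset.mem_univ _)
    rw [hij, one_mul] at h2
    exact (vv_mul_eq_one_iff s i j).mp h2
  · intro h
    unfold qq
    refine Finset.sum_congr rfl fun i _ => Finset.sum_congr rfl fun j _ => ?_
    rcases hlam i j with h' | h'
    · rw [h']; simp
    · rw [(vv_mul_eq_one_iff s i j).mpr (h i j h'), mul_one]

/-- The algebra of functions which factor through `q` and `V`. -/
def Alg (q V : (X → ℤˣ) → ℚ) : Submodule ℚ ((X → ℤˣ) → ℚ) where
  carrier := {f | ∀ s s', q s = q s' → V s = V s' → f s = f s'}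
  add_mem' := by
    intro a b ha hb s s' h1 h2
    simp only [Pi.add_apply]
    rw [ha s s' h1 h2, hb s s' h1 h2]
  zero_mem' := by intro s s' _ _; rfl
  smul_mem' := by
    intro c f hf s s' h1 h2
    simp only [Pi.smul_apply]
    rw [hf s s' h1 h2]

lemma finrank_Alg_le (q V : (X → ℤˣ) → ℚ) :
    Module.finrank ℚ (Alg q V) ≤ (univ.image (fun s => (q s, V s))).card := by
  set P := univ.image (fun s => (q s, V s)) with hP
  let L : (P → ℚ) →ₗ[ℚ] ((X → ℤˣ) → ℚ) :=
    { toFun := fun φ s => φ ⟨(q s, V s), by rw [hP]; exact Finset.mem_image_of_mem _ (Finset.mem_univ s)⟩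
      map_add' := by intro a b; rfl
      map_smul' := by intro c a; rfl }
  have h1 : Alg q V ≤ LinearMap.range L := by
    intro f hf
    have hsec : ∀ p : P, ∃ s, (q s, V s) = (p : ℚ × ℚ) := by
      intro p
      have hp : (p : ℚ × ℚ) ∈ univ.image (fun s => (q s, V s)) := p.2
      obtain ⟨s, _, hs⟩ := Finset.mem_image.mp hp
      exact ⟨s, hs⟩
    choose sec hsec using hsec
    refine ⟨fun p => f (sec p), ?_⟩
    funext s
    change f (sec _) = f s
    have h2 := hsec ⟨(q s, V s), by rw [hP]; exact Finset.mem_image_of_mem _ (Finset.mem_univ s)⟩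
    simp only [Prod.mk.injEq] at h2
    exact hf _ _ h2.1 h2.2
  calc Module.finrank ℚ (Alg q V) ≤ Module.finrank ℚ (LinearMap.range L) :=
        Submodule.finrank_mono h1
    _ ≤ Module.finrank ℚ (P → ℚ) := LinearMap.finrank_range_le L
    _ = P.card := by simp

theorem count_main (comp : X → C) (hsurj : Function.Surjective comp)
    (lam : X → X → ℚ) (hlam : ∀ i j, lam i j = 0 ∨ lam i j = 1)
    (hcomp : ∀ i j, lam i j = 1 → comp i = comp j)
    (hconn : ∀ s : X → ℤˣ, (∀ i j, lam i j = 1 → s i = s j) → ∀ i j, comp i = comp j → s i = s j)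
    (hsize : ∀ c, 3 ≤ (univ.filter (fun j => comp j = c)).card)
    (V : (X → ℤˣ) → ℚ) (hodd : ∀ s, V (-s) = - V s)
    (hdeg : ∀ d, ∀ f ∈ F X d, (fun s => V s * f s) ∈ F X (d + 3))
    (mu : C → ℚ) (hmu : ∀ c, 0 < mu c)
    (hV : ∀ τ : C → ℤˣ, V (fun x => τ (comp x)) = ∑ c, ((τ c : ℤ) : ℚ) * mu c) :
    Fintype.card X ≤ (univ.image (fun s : X → ℤˣ => (qq lam s, V s))).card := by
  set q := qq lam with hq
  refine le_trans ?_ (finrank_Alg_le q V)
  have hone : (fun _ => (1 : ℚ)) ∈ Alg q V := by intro s s' _ _; rfl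
  have hA : ∀ l k, (fun s => V s ^ l * q s ^ k) ∈ Alg q V := by
    intro l k s s' h1 h2
    simp only [h1, h2]
  have hVpow : ∀ l, (fun s => V s ^ l) ∈ F X (3 * l) := by
    intro l
    induction l with
    | zero => simpa using one_mem_F
    | succ l ih =>
      have := hdeg _ _ ih
      have h1 : (fun s => V s ^ (l + 1)) = fun s => V s * V s ^ l := by
        funext s; ring
      rw [h1]
      exact F_mono (by omega) this
  set qmax := ∑ i, ∑ j, lam i j with hqmax
  -- the key step
  have key : ∀ m, 2 ≤ m → m ≤ Fintype.card X → ¬ (Alg q V ⊓ F X m ≤ F X (m - 1)) := by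
    intro m hm hmX hle
    obtain ⟨T, hTm, hTl⟩ := exists_good_set comp hsize m hm hmX
    set l := (oddSet comp T).card with hl
    have hpar : l % 2 = m % 2 := by rw [hl, ← hTm]; exact oddSet_parity comp T
    have hmono : ∀ k, (fun s => V s ^ l * q s ^ k) ∈ F X (m - 1) := by
      intro k
      induction k with
      | zero =>
        apply hle
        refine ⟨hA l 0, ?_⟩
        have h1 : (fun s => V s ^ l * q s ^ 0) = fun s => V s ^ l := by funext s; simp
        rw [h1]
        exact F_mono hTl (hVpow l)
      | succ k ih =>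
        apply hle
        refine ⟨hA l (k + 1), ?_⟩
        have h1 : (fun s => V s ^ l * q s ^ k) ∈ F X (m - 2) := by
          apply mem_F_of_parity
          · intro s
            have h2 : q (-s) = q s := qq_neg lam s
            rw [h2, hodd, neg_pow]
            have h3 : ((-1 : ℚ)) ^ l = (-1) ^ (m - 2) := by
              rw [neg_one_pow_eq_pow_mod_two, neg_one_pow_eq_pow_mod_two (n := m - 2)]
              congr 1
              omega
            rw [h3]; ring
          · have : m - 2 + 1 = m - 1 := by omega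
            rw [this]; exact ih
        have h2 := qq_mul_mem lam h1
        have h3 : (fun s => V s ^ l * q s ^ (k + 1)) = fun s => qq lam s * (V s ^ l * q s ^ k) := by
          funext s; rw [hq]; ring
        rw [h3]
        have : m - 2 + 2 = m := by omega
        rw [this] at h2
        exact h2
    -- polynomials in q
    have hpoly : ∀ p : Polynomial ℚ, (fun s => V s ^ l * p.eval (q s)) ∈ F X (m - 1) := by
      intro p
      have h1 : (fun s => V s ^ l * p.eval (q s))
          = ∑ k ∈ Finset.range (p.natDegree + 1), p.coeff k • (fun s => V s ^ l * q s ^ k) := by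
        funext s
        rw [Polynomial.eval_eq_sum_range]
        simp only [Finset.sum_apply, Pi.smul_apply, smul_eq_mul, Finset.mul_sum]
        refine Finset.sum_congr rfl fun k _ => ?_
        ring
      rw [h1]
      exact Submodule.sum_mem _ fun k _ => Submodule.smul_mem _ _ (hmono k)
    let p : Polynomial ℚ := ∏ r ∈ (univ.image q).erase qmax, (Polynomial.X - Polynomial.C r)
    have hp0 : ∀ s, q s ≠ qmax → p.eval (q s) = 0 := by
      intro s hs
      simp only [p]
      rw [Polynomial.eval_prod]
      apply Finset.prod_eq_zero (i := q s)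
      · rw [Finset.mem_erase]; exact ⟨hs, Finset.mem_image_of_mem _ (Finset.mem_univ s)⟩
      · simp
    have hp1 : p.eval qmax ≠ 0 := by
      simp only [p]
      rw [Polynomial.eval_prod]
      rw [Finset.prod_ne_zero_iff]
      intro r hr
      simp only [Polynomial.eval_sub, Polynomial.eval_X, Polynomial.eval_C]
      rw [Finset.mem_erase] at hr
      exact sub_ne_zero.mpr hr.1.symm
    have hcoef : coef T (fun s => V s ^ l * p.eval (q s)) = 0 := hpoly p T (by omega)
    have himg : univ.filter (fun s : X → ℤˣ => q s = qmax)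
        = univ.image (fun (τ : C → ℤˣ) (x : X) => τ (comp x)) := by
      ext s
      simp only [Finset.mem_filter, Finset.mem_univ, true_and, Finset.mem_image]
      rw [hq, hqmax, qq_eq_max_iff lam hlam s]
      constructor
      · intro h
        obtain ⟨sec, hsec⟩ := hsurj.hasRightInverse
        refine ⟨fun c => s (sec c), ?_⟩
        funext x
        exact hconn s h _ _ (hsec (comp x))
      · rintro ⟨τ, rfl⟩ i j hij
        exact congrArg τ (hcomp i j hij)
    have hinj : Set.InjOn (fun (τ : C → ℤˣ) (x : X) => τ (comp x)) (univ : Finset (C → ℤˣ)) := by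
      intro τ _ τ' _ h
      funext c
      obtain ⟨x, rfl⟩ := hsurj c
      exact congrFun h x
    have hcoef2 : coef T (fun s => V s ^ l * p.eval (q s)) = p.eval qmax *
        ∑ τ : C → ℤˣ, (∑ c, ((τ c : ℤ) : ℚ) * mu c) ^ l * ∏ x ∈ T, ((τ (comp x) : ℤ) : ℚ) := by
      unfold coef
      rw [← Finset.sum_filter_add_sum_filter_not univ (fun s : X → ℤˣ => q s = qmax)]
      have h2 : ∑ s ∈ univ.filter (fun s : X → ℤˣ => ¬ q s = qmax),
          V s ^ l * p.eval (q s) * chi T s = 0 := by
        apply Finset.sum_eq_zero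
        intro s hs
        simp only [Finset.mem_filter, Finset.mem_univ, true_and] at hs
        rw [hp0 s hs]; ring
      rw [h2, add_zero, himg, Finset.sum_image hinj, Finset.mul_sum]
      refine Finset.sum_congr rfl fun τ _ => ?_
      have h3 : q (fun x => τ (comp x)) = qmax := by
        rw [hq, hqmax, qq_eq_max_iff lam hlam]
        intro i j hij
        exact congrArg τ (hcomp i j hij)
      change V (fun x => τ (comp x)) ^ l * p.eval (q (fun x => τ (comp x)))
        * chi T (fun x => τ (comp x)) = _
      rw [h3, hV]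
      unfold chi vv
      ring
    rw [hcoef2] at hcoef
    have hpos := charSum_pos comp T mu hmu
    rcases mul_eq_zero.mp hcoef with h | h
    · exact hp1 h
    · rw [← hl] at hpos
      linarith
  -- induction on the degree
  have hind : ∀ m, 1 ≤ m → m ≤ Fintype.card X →
      m ≤ Module.finrank ℚ (Alg q V ⊓ F X m : Submodule ℚ ((X → ℤˣ) → ℚ)) := by
    intro m
    induction m with
    | zero => intro h; omega
    | succ m ih =>
      intro _ hmX
      rcases Nat.eq_zero_or_pos m with h0 | h0
      · subst h0
        have hmem : (fun _ => (1 : ℚ)) ∈ (Alg q V ⊓ F X (0 + 1) : Submodule ℚ ((X → ℤˣ) → ℚ)) :=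
          ⟨hone, F_mono (by omega) one_mem_F⟩
        have hne : (⟨_, hmem⟩ : (Alg q V ⊓ F X (0 + 1) : Submodule ℚ ((X → ℤˣ) → ℚ))) ≠ 0 := by
          intro h
          have := congrArg Subtype.val h
          have h2 := congrFun this (fun _ => 1)
          simp at h2
        have : Nontrivial (Alg q V ⊓ F X (0 + 1) : Submodule ℚ ((X → ℤˣ) → ℚ)) := ⟨⟨_, _, hne⟩⟩
        exact Module.finrank_pos
      · have h1 := ih h0 (by omega)
        have h2 := key (m + 1) (by omega) hmX
        have h3 : (Alg q V ⊓ F X m : Submodule ℚ ((X → ℤˣ) → ℚ)) < Alg q V ⊓ F X (m + 1) := by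
          refine lt_of_le_of_ne (inf_le_inf_left _ (F_mono (by omega))) ?_
          intro heq
          apply h2
          rw [← heq]
          exact inf_le_right
        have h4 := Submodule.finrank_lt_finrank_of_lt h3
        omega
  rcases Nat.eq_zero_or_pos (Fintype.card X) with h0 | h0
  · omega
  · have h1 := hind _ h0 le_rfl
    have h2 : Module.finrank ℚ (Alg q V ⊓ F X (Fintype.card X) : Submodule ℚ ((X → ℤˣ) → ℚ))
        ≤ Module.finrank ℚ (Alg q V) := Submodule.finrank_mono inf_le_left
    omega

end Main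

end Pool.Agent.Lib.MP_ae2e71_gt
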