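import Mathlib

/-!
# Polynomial functions on the cube of sign vectors

The degree filtration `F d` on rational functions on `X → ℤˣ`, and the counting theorem.
-/

set_option linter.unusedSectionVars false

namespace Pool.Agent.Lib.MP_ae2e71_gt

open Finset

section Cube

variable {X : Type} [Fintype X] [DecidableEq X]

/-- The coordinate `i` of a sign vector, as a rational number. -/
def vv (s : X → ℤˣ) (i : X) : ℚ := ((s i : ℤ) : ℚ)

/-- The character of a set of coordinates. -/
def chi (T : Finset X) (s : X → ℤˣ) : ℚ := ∏ i ∈ T, vv s i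

/-- The (non-normalised) coefficient of a character. -/
def coef (T : Finset X) (f : (X → ℤˣ) → ℚ) : ℚ := ∑ s, f s * chi T s

lemma units_cases (u : ℤˣ) : ((u : ℤ) : ℚ) = 1 ∨ ((u : ℤ) : ℚ) = -1 := by
  rcases Int.units_eq_one_or u with h | h <;> simp [h]

lemma vv_mul_self (s : X → ℤˣ) (i : X) : vv s i * vv s i = 1 := by
  rcases units_cases (s i) with h | h <;> simp [vv, h]

lemma vv_neg (s : X → ℤˣ) (i : X) : vv (-s) i = - vv s i := by
  simp [vv]

lemma vv_mul_chi_mem {T : Finset X} {i : X} (h : i ∈ T) (s : X → ℤˣ) :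
    vv s i * chi T s = chi (T.erase i) s := by
  unfold chi
  rw [← Finset.mul_prod_erase T _ h, ← mul_assoc, vv_mul_self, one_mul]

lemma vv_mul_chi_not_mem {T : Finset X} {i : X} (h : i ∉ T) (s : X → ℤˣ) :
    vv s i * chi T s = chi (insert i T) s := by
  unfold chi
  rw [Finset.prod_insert h]

/-- Functions of degree at most `d`. -/
def F (X : Type) [Fintype X] [DecidableEq X] (d : ℕ) : Submodule ℚ ((X → ℤˣ) → ℚ) where
  carrier := {f | ∀ T : Finset X, d < T.card → coef T f = 0}
  add_mem' := by
    intro a b ha hb T hT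
    have h1 := ha T hT
    have h2 := hb T hT
    simp only [coef, Pi.add_apply, add_mul, Finset.sum_add_distrib] at *
    rw [h1, h2, add_zero]
  zero_mem' := by
    intro T _
    simp [coef]
  smul_mem' := by
    intro c f hf T hT
    have h1 := hf T hT
    simp only [coef, Pi.smul_apply, smul_eq_mul, mul_assoc, ← Finset.mul_sum] at *
    rw [h1, mul_zero]

lemma mem_F {d : ℕ} {f : (X → ℤˣ) → ℚ} : f ∈ F X d ↔ ∀ T : Finset X, d < T.card → coef T f = 0 :=
  Iff.rfl

lemma F_mono {d d' : ℕ} (h : d ≤ d') : F X d ≤ F X d' := by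
  intro f hf T hT
  exact hf T (lt_of_le_of_lt h hT)

lemma F_vv_mul {d : ℕ} {f : (X → ℤˣ) → ℚ} (hf : f ∈ F X d) (i : X) :
    (fun s => vv s i * f s) ∈ F X (d + 1) := by
  intro T hT
  by_cases hi : i ∈ T
  · have h1 : coef T (fun s => vv s i * f s) = coef (T.erase i) f := by
      unfold coef
      refine Finset.sum_congr rfl fun s _ => ?_
      rw [← vv_mul_chi_mem hi s]; ring
    rw [h1]
    apply hf
    rw [Finset.card_erase_of_mem hi]; omega
  · have h1 : coef T (fun s => vv s i * f s) = coef (insert i T) f := by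
      unfold coef
      refine Finset.sum_congr rfl fun s _ => ?_
      rw [← vv_mul_chi_not_mem hi s]; ring
    rw [h1]
    apply hf
    rw [Finset.card_insert_of_notMem hi]; omega

lemma one_mem_F : (fun _ => (1 : ℚ)) ∈ F X 0 := by
  intro T hT
  -- flip a coordinate in T
  obtain ⟨i, hi⟩ := Finset.card_pos.mp hT
  unfold coef
  have key : ∀ s : X → ℤˣ, chi T (Function.update s i (-(s i))) = - chi T s := by
    intro s
    unfold chi
    rw [← Finset.mul_prod_erase T _ hi, ← Finset.mul_prod_erase T _ hi]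
    have h1 : vv (Function.update s i (-(s i))) i = - vv s i := by simp [vv]
    have h2 : ∏ x ∈ T.erase i, vv (Function.update s i (-(s i))) x = ∏ x ∈ T.erase i, vv s x := by
      refine Finset.prod_congr rfl fun x hx => ?_
      have : x ≠ i := Finset.ne_of_mem_erase hx
      simp [vv, Function.update_of_ne this]
    rw [h1, h2]; ring
  let e : (X → ℤˣ) ≃ (X → ℤˣ) :=
    { toFun := fun s => Function.update s i (-(s i))
      invFun := fun s => Function.update s i (-(s i))
      left_inv := by intro s; simp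
      right_inv := by intro s; simp }
  have h3 : ∑ s, (1 : ℚ) * chi T s = ∑ s, (1 : ℚ) * chi T (e s) := (Equiv.sum_comp e _).symm
  have h4 : ∑ s, (1 : ℚ) * chi T (e s) = - ∑ s, (1 : ℚ) * chi T s := by
    rw [← Finset.sum_neg_distrib]
    refine Finset.sum_congr rfl fun s _ => ?_
    have : e s = Function.update s i (-(s i)) := rfl
    rw [this, key s]; ring
  linarith

/-- Coefficients of the wrong parity vanish. -/
lemma coef_eq_zero_of_parity {f : (X → ℤˣ) → ℚ} {p : ℕ} (hf : ∀ s, f (-s) = (-1) ^ p * f s)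
    {T : Finset X} (hT : ¬ (p % 2 = T.card % 2)) : coef T f = 0 := by
  have h1 : ∀ s : X → ℤˣ, chi T (-s) = (-1) ^ T.card * chi T s := by
    intro s
    unfold chi
    rw [← Finset.prod_const, ← Finset.prod_mul_distrib]
    refine Finset.prod_congr rfl fun i _ => ?_
    rw [vv_neg]; ring
  have h2 : coef T f = ∑ s, f (-s) * chi T (-s) := (Equiv.sum_comp (Equiv.neg (X → ℤˣ)) _).symm
  have h3 : ∀ s : X → ℤˣ, f (-s) * chi T (-s) = - (f s * chi T s) := by
    intro s
    rw [hf, h1]
    have : ((-1 : ℚ)) ^ p * (-1) ^ T.card = -1 := by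
      rw [← pow_add]
      apply Odd.neg_one_pow
      rw [Nat.odd_iff]; omega
    calc (-1 : ℚ) ^ p * f s * ((-1) ^ T.card * chi T s)
        = ((-1 : ℚ) ^ p * (-1) ^ T.card) * (f s * chi T s) := by ring
      _ = _ := by rw [this]; ring
  have h4 : coef T f = - coef T f := by
    conv_lhs => rw [h2]
    unfold coef
    rw [← Finset.sum_neg_distrib]
    exact Finset.sum_congr rfl fun s _ => h3 s
  linarith

/-- A function of degree at most `m + 1` with the parity of `m` has degree at most `m`. -/
lemma mem_F_of_parity {f : (X → ℤˣ) → ℚ} {m : ℕ} (hf : ∀ s, f (-s) = (-1) ^ m * f s)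
    (h : f ∈ F X (m + 1)) : f ∈ F X m := by
  intro T hT
  by_cases h1 : m + 1 < T.card
  · exact h T h1
  · have : T.card = m + 1 := by omega
    apply coef_eq_zero_of_parity hf
    omega

end Cube

end Pool.Agent.Lib.MP_ae2e71_gt
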