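import Mathlib

/-!
# Plane knot diagrams, Reidemeister moves and resolutions of shadows

Knots are treated through their diagrams, in the usual combinatorial form.  An oriented knot
diagram on the sphere is recorded by its signed Gauss code.  A Gauss code comes from a diagram on
the sphere exactly when the closed curve with that code, which has `n` crossings and `2 n` arcs,
has `n + 2` complementary regions (Euler's formula); this is how planarity is defined below.
By Reidemeister's theorem, unoriented knots up to ambient isotopy of three-space are the
classes of planar diagrams under the moves `R1`, `R2`, `R3`, change of base point, renaming of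
the crossings, and reversal of the orientation.
-/

namespace Pool.Agent.KnotCode

/-- A passage of a closed curve through one of its crossings: the label of the crossing, together
with `true` for the passage along the over strand and `false` for the passage along the under
strand. -/
abbrev Passage : Type := ℕ × Bool

/-- A signed Gauss code: the list of the passages met when the oriented curve is traversed once
from some base point, and the sign (`1` or `-1`) of each crossing. -/
structure Code where
  word : List Passage
  sign : ℕ → ℤˣ

/-- The four corners at a crossing, in the picture where the over strand runs from west to east.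
At a positive crossing the under strand runs from south to north, at a negative crossing it runs
from north to south. -/
inductive Corner where
  | ne
  | nw
  | sw
  | se

/-- The corner on the left of the arc leaving a crossing of sign `ε` along the over strand
(`b = true`) or along the under strand (`b = false`). -/
def leftOut (ε : ℤˣ) (b : Bool) : Corner :=
  if b = true then Corner.ne else if ε = 1 then Corner.nw else Corner.se

/-- The corner on the right of the arc leaving a crossing. -/
def rightOut (ε : ℤˣ) (b : Bool) : Corner :=
  if b = true then Corner.se else if ε = 1 then Corner.ne else Corner.sw

/-- The corner on the left of the arc entering a crossing. -/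
def leftIn (ε : ℤˣ) (b : Bool) : Corner :=
  if b = true then Corner.nw else if ε = 1 then Corner.sw else Corner.ne

/-- The corner on the right of the arc entering a crossing. -/
def rightIn (ε : ℤˣ) (b : Bool) : Corner :=
  if b = true then Corner.sw else if ε = 1 then Corner.se else Corner.nw

namespace Code

/-- The crossings of a code. -/
def crossings (D : Code) : Finset ℕ := (D.word.map Prod.fst).toFinset

/-- Each crossing is passed exactly twice: once over and once under. -/
def WellFormed (D : Code) : Prop :=
  D.word.Nodup ∧ ∀ i, (i, true) ∈ D.word ↔ (i, false) ∈ D.word

/-- `y` is the passage which follows `x` in the cyclic order. -/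
def Follows (D : Code) (x y : Passage) : Prop := ∃ l, (x :: y :: l) ~r D.word

/-- A code with `n` crossings is planar if it is empty, or if the corners at its crossings can be
labelled by `n + 2` regions, all of them used, so that the two corners on the left of each arc
carry the same label, and so do the two corners on its right. -/
def Planar (D : Code) : Prop :=
  D.word = [] ∨ ∃ region : ℕ → Corner → Fin (D.crossings.card + 2),
    (∀ x y, D.Follows x y →
      region x.1 (leftOut (D.sign x.1) x.2) = region y.1 (leftIn (D.sign y.1) y.2) ∧
      region x.1 (rightOut (D.sign x.1) x.2) = region y.1 (rightIn (D.sign y.1) y.2)) ∧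
    ∀ r, ∃ i ∈ D.crossings, ∃ c, region i c = r

/-- Two adjacent passages, in one order or the other. -/
def pair (a : Bool) (x y : Passage) : List Passage := if a = true then [x, y] else [y, x]

/-- The sign `1` if `a = b` and `-1` otherwise. -/
def agree (a b : Bool) : ℤˣ := if a = b then 1 else -1

/-- The elementary moves between codes: change of base point, reversal of the orientation,
renaming of the crossings, and the three Reidemeister moves.

In `r2` the over strand carries the passages `(i, true)`, `(j, true)` and the under strand the
passages `(i, false)`, `(j, false)`, in either order.  In `r3` the top strand passes over at `i`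
and `j`, the middle strand passes under at `i` and over at `k`, and the bottom strand passes under
at `j` and `k`; the move exchanges the two passages on each of the three strands.  The bits
`a`, `b`, `c` record the orders of the two passages on the three strands, and the two conditions
on the signs are those satisfied by three oriented lines in general position. -/
inductive Move : Code → Code → Prop
  | rotate (x : Passage) (w : List Passage) (s : ℕ → ℤˣ) :
      Move ⟨x :: w, s⟩ ⟨w ++ [x], s⟩
  | reverse (w : List Passage) (s : ℕ → ℤˣ) :
      Move ⟨w, s⟩ ⟨w.reverse, s⟩
  | rename (w : List Passage) (s t : ℕ → ℤˣ) (f : ℕ ≃ ℕ) (h : ∀ x ∈ w, t (f x.1) = s x.1) :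
      Move ⟨w, s⟩ ⟨w.map (fun x => (f x.1, x.2)), t⟩
  | r1 (i : ℕ) (b : Bool) (w : List Passage) (s : ℕ → ℤˣ) :
      Move ⟨(i, b) :: (i, !b) :: w, s⟩ ⟨w, s⟩
  | r2 (i j : ℕ) (a : Bool) (u v : List Passage) (s : ℕ → ℤˣ) (h : s i = - s j) :
      Move ⟨(i, true) :: (j, true) :: (u ++ pair a (i, false) (j, false) ++ v), s⟩ ⟨u ++ v, s⟩
  | r3 (i j k : ℕ) (a b c : Bool) (u v w : List Passage) (s : ℕ → ℤˣ)
      (h₁ : s i = agree b c * s j) (h₂ : s k = agree a b * s j) :
      Move
        ⟨pair a (i, true) (j, true) ++ u ++ pair b (i, false) (k, true) ++ v
          ++ pair c (j, false) (k, false) ++ w, s⟩
        ⟨pair (!a) (i, true) (j, true) ++ u ++ pair (!b) (i, false) (k, true) ++ v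
          ++ pair (!c) (j, false) (k, false) ++ w, s⟩
  | r3' (i j k : ℕ) (a b c : Bool) (u v w : List Passage) (s : ℕ → ℤˣ)
      (h₁ : s i = agree b c * s j) (h₂ : s k = agree a b * s j) :
      Move
        ⟨pair a (i, true) (j, true) ++ u ++ pair c (j, false) (k, false) ++ v
          ++ pair b (i, false) (k, true) ++ w, s⟩
        ⟨pair (!a) (i, true) (j, true) ++ u ++ pair (!c) (j, false) (k, false) ++ v
          ++ pair (!b) (i, false) (k, true) ++ w, s⟩

/-- The code obtained by changing all crossings in `A`: the over and the under strand are
exchanged, and the sign is changed, at each crossing in `A`. -/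
def change (D : Code) (A : Finset ℕ) : Code where
  word := D.word.map (fun x => if x.1 ∈ A then (x.1, !x.2) else x)
  sign := fun i => if i ∈ A then - D.sign i else D.sign i

/-- The crossing `i` is nugatory: the two loops into which it cuts the curve have no crossing in
common, that is, removing the double point `i` disconnects the curve. -/
def Nugatory (D : Code) (i : ℕ) : Prop :=
  ∃ (b : Bool) (u v : List Passage), ((i, b) :: (u ++ (i, !b) :: v)) ~r D.word ∧
    ∀ x ∈ u, ∀ y ∈ v, x.1 ≠ y.1

/-- No crossing is nugatory. -/
def Reduced (D : Code) : Prop := ∀ i ∈ D.crossings, ¬ D.Nugatory i

end Code

/-- A knot diagram: a well-formed planar signed Gauss code. -/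
structure Diagram where
  code : Code
  wellFormed : code.WellFormed
  planar : code.Planar

/-- Knots: diagrams modulo the relation generated by the elementary moves. -/
def Knot : Type := Quot (fun D D' : Diagram => Code.Move D.code D'.code)

/-- The knot presented by a diagram. -/
def Diagram.knot (D : Diagram) : Knot := Quot.mk _ D

/-- The number of crossings of a diagram. -/
def Diagram.numCrossings (D : Diagram) : ℕ := D.code.crossings.card

/-- The knots into which the shadow of `D` resolves: the knots which have a diagram obtained from
`D` by crossing changes. -/
def Diagram.resolutions (D : Diagram) : Set Knot :=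
  {K | ∃ (A : Finset ℕ) (D' : Diagram), D'.code = D.code.change A ∧ D'.knot = K}

end Pool.Agent.KnotCode
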