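import Pool.Agent.Lib.MP_ae2e71_gt.Change

set_option linter.unusedVariables false
set_option linter.unusedSimpArgs false

namespace Pool.Agent.Lib.MP_ae2e71_gt

open Finset Pool.Agent.KnotCode Pool.Agent.KnotCode.Code

/-- The signed interlacement matrix of a shadow. -/
def hh (D : Code) (i j : {i // i ∈ D.crossings}) : ℚ :=
  (((D.sign j.1 : ℤ) * ee (pos D.word) i.1 j.1 : ℤ) : ℚ)

/-- The crossings to be changed in order to obtain given signs. -/
def chg (D : Code) (χ : {i // i ∈ D.crossings} → ℤˣ) : Finset ℕ :=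
  (univ.filter (fun i : {i // i ∈ D.crossings} => χ i ≠ D.sign i.1)).image Subtype.val

lemma chg_sign (D : Code) (χ : {i // i ∈ D.crossings} → ℤˣ) (i : {i // i ∈ D.crossings}) :
    (D.change (chg D χ)).sign i.1 = χ i := by
  have hz : (D.change (chg D χ)).sign i.1 = if i.1 ∈ chg D χ then - D.sign i.1 else D.sign i.1 :=
    rfl
  rw [hz]
  have hm : i.1 ∈ chg D χ ↔ χ i ≠ D.sign i.1 := by
    unfold chg
    rw [Finset.mem_image]
    constructor
    · rintro ⟨j, hj, e⟩
      rw [Finset.mem_filter] at hj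
      have : j = i := Subtype.ext e
      rw [← this]; exact hj.2
    · intro h
      exact ⟨i, by rw [Finset.mem_filter]; exact ⟨Finset.mem_univ _, h⟩, rfl⟩
  by_cases h : i.1 ∈ chg D χ
  · rw [if_pos h]
    have h1 := hm.mp h
    rcases Int.units_eq_one_or (χ i) with e | e <;>
      rcases Int.units_eq_one_or (D.sign i.1) with e' | e' <;> rw [e, e'] at h1 <;> rw [e, e'] <;>
      first | exact absurd rfl h1 | rfl
  · rw [if_neg h]
    by_contra hne
    exact h (hm.mpr (Ne.symm hne))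

/-- The constant term of the quadratic invariant. -/
def cst (D : Code) : ℚ := ∑ i : {i // i ∈ D.crossings}, ∑ j, hh D i j * hh D j i

lemma ee_chg (D : Code) (χ : {i // i ∈ D.crossings} → ℤˣ) (i j : {i // i ∈ D.crossings}) :
    ((ee (pos (D.change (chg D χ)).word) i.1 j.1 : ℤ) : ℚ) = vv χ j * hh D i j := by
  have h := ee_change D (chg D χ) i.1 j.1
  rw [chg_sign] at h
  unfold vv hh
  rw [← h]
  push_cast
  have h1 : ((χ j : ℤ) : ℚ) * ((χ j : ℤ) : ℚ) = 1 := by
    rcases Int.units_eq_one_or (χ j) with e | e <;> rw [e] <;> norm_num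
  linear_combination (-(ee (pos (D.change (chg D χ)).word) i.1 j.1 : ℚ)) * h1

lemma vv_sq' {X : Type} (χ : X → ℤˣ) (i : X) : vv χ i * vv χ i = 1 := by
  unfold vv
  rcases Int.units_eq_one_or (χ i) with e | e <;> rw [e] <;> norm_num

lemma inv2_change (D : Code) (χ : {i // i ∈ D.crossings} → ℤˣ) :
    ((inv2 (D.change (chg D χ)) : ℤ) : ℚ) = qq (fun i j => hh D i j ^ 2) χ + cst D := by
  unfold inv2 W2
  rw [change_crossings]
  rw [← Finset.sum_coe_sort D.crossings]
  unfold qq cst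
  rw [Int.cast_sum, ← Finset.sum_add_distrib]
  refine Finset.sum_congr rfl fun i _ => ?_
  rw [← Finset.sum_coe_sort D.crossings, Int.cast_sum, ← Finset.sum_add_distrib]
  refine Finset.sum_congr rfl fun j _ => ?_
  beta_reduce
  rw [chg_sign, chg_sign]
  push_cast
  rw [ee_chg, ee_chg]
  have h1 := vv_sq' χ i
  have h2 := vv_sq' χ j
  have e1 : ((χ i : ℤ) : ℚ) = vv χ i := rfl
  have e2 : ((χ j : ℤ) : ℚ) = vv χ j := rfl
  rw [e1, e2]
  linear_combination (vv χ i * vv χ j * hh D i j ^ 2 + vv χ i * vv χ i * hh D i j * hh D j i) * h2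
    + (hh D i j * hh D j i) * h1

lemma hh_cases (D : Code) (i j : {i // i ∈ D.crossings}) :
    hh D i j = 0 ∨ hh D i j = 1 ∨ hh D i j = -1 := by
  unfold hh
  rcases Int.units_eq_one_or (D.sign j.1) with e | e <;>
    rcases ee_val (pos D.word) i.1 j.1 with h | h | h <;> rw [e, h] <;> simp

lemma inv3_change (D : Code) (χ : {i // i ∈ D.crossings} → ℤˣ) :
    ((inv3 (D.change (chg D χ)) : ℤ) : ℚ) = VV (fun i j => hh D i j ^ 2) (hh D) χ := by
  unfold inv3 W3 w3
  rw [change_crossings]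
  rw [← Finset.sum_coe_sort D.crossings]
  unfold VV AA BB
  rw [Int.cast_sum]
  refine Finset.sum_congr rfl fun i _ => ?_
  rw [← Finset.sum_coe_sort D.crossings, Int.cast_sum]
  refine Finset.sum_congr rfl fun j _ => ?_
  rw [← Finset.sum_coe_sort D.crossings, Int.cast_sum]
  refine Finset.sum_congr rfl fun k _ => ?_
  beta_reduce
  rw [chg_sign, chg_sign, chg_sign]
  push_cast
  rw [ee_chg, ee_chg, ee_chg]
  have h1 := vv_sq' χ i
  have h2 := vv_sq' χ j
  have h3 := vv_sq' χ k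
  have e1 : ((χ i : ℤ) : ℚ) = vv χ i := rfl
  have e2 : ((χ j : ℤ) : ℚ) = vv χ j := rfl
  have e3 : ((χ k : ℤ) : ℚ) = vv χ k := rfl
  rw [e1, e2, e3]
  have c1 : hh D i j ^ 3 = hh D i j := by
    rcases hh_cases D i j with h | h | h <;> rw [h] <;> norm_num
  have c2 : hh D i k ^ 3 = hh D i k := by
    rcases hh_cases D i k with h | h | h <;> rw [h] <;> norm_num
  have s2 : vv χ j ^ 2 = 1 := by rw [pow_two]; exact h2
  have s3 : vv χ k ^ 2 = 1 := by rw [pow_two]; exact h3
  have t1 : (vv χ j * hh D i j) ^ 2 = hh D i j ^ 2 := by rw [mul_pow, s2, one_mul]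
  have t2 : (vv χ k * hh D i k) ^ 2 = hh D i k ^ 2 := by rw [mul_pow, s3, one_mul]
  have t3 : (vv χ k * hh D j k) ^ 2 = hh D j k ^ 2 := by rw [mul_pow, s3, one_mul]
  rw [t1, t2, t3]
  have u1 : vv χ i * vv χ j * vv χ k * (hh D i j ^ 2 * hh D i k ^ 2 *
      (3 - hh D j k ^ 2 * (1 + 3 * (vv χ j * hh D i j * (vv χ k * hh D i k)))))
      = vv χ i * vv χ j * vv χ k * (hh D i j ^ 2 * hh D i k ^ 2 *
      (3 - hh D j k ^ 2)) - 3 * vv χ i * (vv χ j ^ 2) * (vv χ k ^ 2) * (hh D j k ^ 2) *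
        (hh D i j ^ 3) * (hh D i k ^ 3) := by ring
  rw [u1, c1, c2, s2, s3]
  ring

/-- The pair of invariants, normalised. -/
def phi (D : Code) (K : Knot) : ℚ × ℚ := (((knotInv K).1 : ℚ) - cst D, ((knotInv K).2 : ℚ))

lemma count_inv (D : Diagram) (hred : D.code.Reduced) :
    Fintype.card {i // i ∈ D.code.crossings} ≤
      (univ.image (fun χ : {i // i ∈ D.code.crossings} → ℤˣ =>
        (qq (fun i j => hh D.code i j ^ 2) χ,
          VV (fun i j => hh D.code i j ^ 2) (hh D.code) χ))).card := by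
  have hsep : ∀ i j : {i // i ∈ D.code.crossings}, i.1 ≠ j.1 → Sep (pos D.code.word) i.1 j.1 :=
    fun i j h => sep_of_wf D.wellFormed i.2 j.2 h
  refine count_graph (hh D.code)
    (fun i => (((D.code.sign i.1 : ℤ) * eps (pos D.code.word) i.1 : ℤ) : ℚ))
    (hh_cases _) ?_ ?_ ?_ ?_ ?_ ?_
  · intro i
    unfold hh
    rw [ee_self]; simp
  · intro i j
    unfold hh
    have h1 := (ee_prod _ _ _ (hsep i j)).2
    have h1' : ((ee (pos D.code.word) i.1 j.1 : ℤ) : ℚ) ^ 2
        = ((ee (pos D.code.word) j.1 i.1 : ℤ) : ℚ) ^ 2 := by exact_mod_cast h1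
    push_cast
    rw [mul_pow, mul_pow, ← h1']
    congr 1
    rcases Int.units_eq_one_or (D.code.sign i.1) with e | e <;>
      rcases Int.units_eq_one_or (D.code.sign j.1) with e' | e' <;> rw [e, e'] <;> norm_num
  · intro i
    rcases Int.units_eq_one_or (D.code.sign i.1) with e | e <;>
      rcases eps_cases (pos D.code.word) i.1 with h | h <;> rw [e, h] <;> simp
  · intro i j
    have h1 := (ee_prod _ _ _ (hsep i j)).1
    have h1' : ((ee (pos D.code.word) i.1 j.1 : ℤ) : ℚ) * ((ee (pos D.code.word) j.1 i.1 : ℤ) : ℚ)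
        = - (((eps (pos D.code.word) i.1 : ℤ) : ℚ) * ((eps (pos D.code.word) j.1 : ℤ) : ℚ)) *
          ((ee (pos D.code.word) i.1 j.1 : ℤ) : ℚ) ^ 2 := by exact_mod_cast h1
    have h2 : ((D.code.sign j.1 : ℤ) : ℚ) ^ 2 = 1 := by
      rcases Int.units_eq_one_or (D.code.sign j.1) with e | e <;> rw [e] <;> norm_num
    unfold hh
    push_cast
    linear_combination (((D.code.sign i.1 : ℤ) : ℚ) * ((D.code.sign j.1 : ℤ) : ℚ)) * h1'
      + (((D.code.sign i.1 : ℤ) : ℚ) * ((D.code.sign j.1 : ℤ) : ℚ)) *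
        (((eps (pos D.code.word) i.1 : ℤ) : ℚ) * ((eps (pos D.code.word) j.1 : ℤ) : ℚ) *
          ((ee (pos D.code.word) i.1 j.1 : ℤ) : ℚ) ^ 2) * h2
  · intro i
    have h1 := code_P1 D.code D.wellFormed D.planar i.1 i.2
    rw [← Finset.sum_coe_sort D.code.crossings] at h1
    unfold hh
    rw [← Int.cast_sum, h1]; rfl
  · intro i
    obtain ⟨j, hj, hne⟩ := exists_interlaced D.wellFormed i.2 (hred i.1 i.2)
    refine ⟨⟨j, hj⟩, ?_⟩
    unfold hh
    rw [Ne, Int.cast_eq_zero]
    exact mul_ne_zero (Units.ne_zero _) hne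

/-- A reduced shadow with `n` crossings resolves into at least `n` knots. -/
theorem main (D : Diagram) (hred : D.code.Reduced) :
    (D.numCrossings : ℕ∞) ≤ D.resolutions.encard := by
  have h1 := count_inv D hred
  rw [Fintype.card_coe] at h1
  have h2 : ((univ.image (fun χ : {i // i ∈ D.code.crossings} → ℤˣ =>
        (qq (fun i j => hh D.code i j ^ 2) χ,
          VV (fun i j => hh D.code i j ^ 2) (hh D.code) χ)) : Finset (ℚ × ℚ)) : Set (ℚ × ℚ))
      ⊆ (phi D.code) '' D.resolutions := by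
    intro p hp
    rw [Finset.mem_coe, Finset.mem_image] at hp
    obtain ⟨χ, _, rfl⟩ := hp
    refine ⟨(changeDiagram D (chg D.code χ)).knot, ?_, ?_⟩
    · exact ⟨chg D.code χ, changeDiagram D (chg D.code χ), rfl, rfl⟩
    · have e1 : knotInv (changeDiagram D (chg D.code χ)).knot
          = (inv2 (D.code.change (chg D.code χ)), inv3 (D.code.change (chg D.code χ))) := rfl
      unfold phi
      rw [e1]
      simp only
      rw [inv2_change, inv3_change, add_sub_cancel_right]
  calc (D.numCrossings : ℕ∞) = (D.code.crossings.card : ℕ∞) := rfl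
    _ ≤ ((univ.image (fun χ : {i // i ∈ D.code.crossings} → ℤˣ =>
        (qq (fun i j => hh D.code i j ^ 2) χ,
          VV (fun i j => hh D.code i j ^ 2) (hh D.code) χ))).card : ℕ∞) := by exact_mod_cast h1
    _ = ((univ.image (fun χ : {i // i ∈ D.code.crossings} → ℤˣ =>
        (qq (fun i j => hh D.code i j ^ 2) χ,
          VV (fun i j => hh D.code i j ^ 2) (hh D.code) χ)) : Finset (ℚ × ℚ)) :
            Set (ℚ × ℚ)).encard := (Set.encard_coe_eq_coe_finsetCard _).symm
    _ ≤ ((phi D.code) '' D.resolutions).encard := Set.encard_le_encard h2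
    _ ≤ D.resolutions.encard := Set.encard_image_le _ _

end Pool.Agent.Lib.MP_ae2e71_gt

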