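import Pool.Agent.Lib.MP_ae2e71_gt.Potential

set_option linter.unusedSectionVars false
set_option linter.unusedVariables false

/-!
# Intersection numbers of loops of a plane curve vanish
-/

namespace Pool.Agent.Lib.MP_ae2e71_gt

open Finset

section Plane

variable {ι κ : Type} [Fintype ι] [DecidableEq ι] [Fintype κ] [DecidableEq κ] {m : ℕ} [NeZero m]

lemma val_succ (t : Fin m) : (t + 1).val = if t.val + 1 = m then 0 else t.val + 1 := by
  have h : (t + 1).val = (t.val + 1) % m := by
    simp [Fin.val_add]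
  rw [h]
  have := t.isLt
  split_ifs with h1
  · rw [h1, Nat.mod_self]
  · exact Nat.mod_eq_of_lt (by omega)

/-- Telescoping over an open arc. -/
lemma arc_sum (f : Fin m → ℚ) (a b : Fin m) (hab : a < b) :
    ∑ t, (if a < t ∧ t < b then f (t + 1) - f t else 0) = f b - f (a + 1) := by
  set H : Fin m → ℚ := fun t => if a.val + 1 < t.val ∧ t.val ≤ b.val then f t else 0 with hH
  have h1 : ∀ t : Fin m, (if a < t ∧ t < b then f (t + 1) else 0) = H (t + 1) := by
    intro t
    simp only [hH]
    have h2 := val_succ t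
    have hb := b.isLt
    by_cases ht : t.val + 1 = m
    · rw [if_pos ht] at h2
      rw [if_neg, if_neg]
      · rw [h2]; omega
      · rw [Fin.lt_def, Fin.lt_def]; omega
    · rw [if_neg ht] at h2
      rw [h2]
      by_cases h3 : a < t ∧ t < b
      · rw [if_pos h3, if_pos]
        rw [Fin.lt_def, Fin.lt_def] at h3; omega
      · rw [if_neg h3, if_neg]
        rw [Fin.lt_def, Fin.lt_def] at h3; omega
  have h2 : ∑ t, H (t + 1) = ∑ t, H t := Equiv.sum_comp (Equiv.addRight (1 : Fin m)) H
  have h3 : ∑ t, (if a < t ∧ t < b then f (t + 1) - f t else 0)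
      = ∑ t, (H t - (if a < t ∧ t < b then f t else 0)) := by
    rw [Finset.sum_sub_distrib, ← h2, ← Finset.sum_sub_distrib]
    refine Finset.sum_congr rfl fun t _ => ?_
    rw [← h1]
    split_ifs <;> ring
  have h4 : ∀ t, H t - (if a < t ∧ t < b then f t else 0)
      = (if t = b then f t else 0) - (if t = a + 1 then f t else 0) := by
    intro t
    simp only [hH]
    have hv := val_succ a
    have hab' : a.val < b.val := hab
    have hb := b.isLt
    have e1 : (t = b) ↔ t.val = b.val := Fin.ext_iff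
    have e2 : (t = a + 1) ↔ t.val = a.val + 1 := by
      rw [Fin.ext_iff, hv, if_neg (by omega)]
    have e3 : (a < t ∧ t < b) ↔ (a.val < t.val ∧ t.val < b.val) := by
      rw [Fin.lt_def, Fin.lt_def]
    simp only [e1, e2, e3]
    split_ifs <;> first | (exfalso; omega) | ring1
  rw [h3, Finset.sum_congr rfl fun t _ => h4 t, Finset.sum_sub_distrib, Finset.sum_ite_eq',
    Finset.sum_ite_eq', if_pos (Finset.mem_univ _), if_pos (Finset.mem_univ _)]

/-- Telescoping over the complementary open arc. -/
lemma arc_sum' (f : Fin m → ℚ) (a b : Fin m) (hab : a < b) :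
    ∑ t, (if t < a ∨ b < t then f (t + 1) - f t else 0) = f a - f (b + 1) := by
  have h0 : ∑ t, (f (t + 1) - f t) = 0 := by
    rw [Finset.sum_sub_distrib]
    have : ∑ t, f (t + 1) = ∑ t, f t := Equiv.sum_comp (Equiv.addRight (1 : Fin m)) f
    rw [this, sub_self]
  have h1 := arc_sum f a b hab
  have h2 : ∀ t, f (t + 1) - f t = (if t < a ∨ b < t then f (t + 1) - f t else 0)
      + (if a < t ∧ t < b then f (t + 1) - f t else 0)
      + (if t = a then f (t + 1) - f t else 0) + (if t = b then f (t + 1) - f t else 0) := by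
    intro t
    have hab' : a.val < b.val := hab
    have e1 : (t = b) ↔ t.val = b.val := Fin.ext_iff
    have e2 : (t = a) ↔ t.val = a.val := Fin.ext_iff
    have e3 : (a < t ∧ t < b) ↔ (a.val < t.val ∧ t.val < b.val) := by
      rw [Fin.lt_def, Fin.lt_def]
    have e4 : (t < a ∨ b < t) ↔ (t.val < a.val ∨ b.val < t.val) := by
      rw [Fin.lt_def, Fin.lt_def]
    simp only [e1, e2, e3, e4]
    split_ifs <;> first | (exfalso; omega) | ring1
  rw [Finset.sum_congr rfl fun t _ => h2 t] at h0
  simp only [Finset.sum_add_distrib] at h0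
  rw [h1, Finset.sum_ite_eq', Finset.sum_ite_eq', if_pos (Finset.mem_univ _),
    if_pos (Finset.mem_univ _)] at h0
  linarith

/-- The indicator of the loop at the crossing `i`, as a function on the arcs
(the arc `t` enters the passage `t`); also the indicator of the passages inside the loop. -/
def zz (E : ι × Bool → Fin m) (i : ι) (t : Fin m) : ℚ :=
  if (E (i, true) < t ↔ E (i, false) < t) then 0 else 1

lemma zz_cases (E : ι × Bool → Fin m) (i : ι) (t : Fin m) : zz E i t = 0 ∨ zz E i t = 1 := by
  unfold zz; split_ifs <;> simp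

lemma zz_succ (E : ι × Bool → Fin m) (i : ι) (t : Fin m) (h1 : t ≠ E (i, true))
    (h2 : t ≠ E (i, false)) : zz E i (t + 1) = zz E i t := by
  unfold zz
  have hv := val_succ t
  have e1 : t.val ≠ (E (i, true)).val := fun h => h1 (Fin.ext h)
  have e2 : t.val ≠ (E (i, false)).val := fun h => h2 (Fin.ext h)
  have b1 := (E (i, true)).isLt
  have b2 := (E (i, false)).isLt
  simp only [Fin.lt_def, hv]
  by_cases ht : t.val + 1 = m
  · simp only [if_pos ht]
    rw [if_pos, if_pos]
    · constructor <;> intro _ <;> omega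
    · constructor <;> intro _ <;> omega
  · simp only [if_neg ht]
    by_cases h3 : ((E (i, true)).val < t.val ↔ (E (i, false)).val < t.val)
    · rw [if_pos h3, if_pos]
      constructor
      · intro h; have := h3.mp (by omega); omega
      · intro h; have := h3.mpr (by omega); omega
    · rw [if_neg h3, if_neg]
      intro h
      apply h3
      constructor
      · intro h'; have := h.mp (by omega); omega
      · intro h'; have := h.mpr (by omega); omega

/-- The signed interlacement number (without the sign of the second crossing). -/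
def ez (E : ι × Bool → Fin m) (i j : ι) : ℚ :=
  if i = j then 0 else zz E i (E (j, true)) - zz E i (E (j, false))

/-- Values of the indicator at the two passages of the crossing itself and right after. -/
lemma zz_self (E : ι × Bool → Fin m) (i : ι) (hne : E (i, true) ≠ E (i, false)) :
    (E (i, true) < E (i, false) → zz E i (E (i, true)) = 0 ∧ zz E i (E (i, true) + 1) = 1 ∧
      zz E i (E (i, false)) = 1 ∧ zz E i (E (i, false) + 1) = 0) ∧
    (E (i, false) < E (i, true) → zz E i (E (i, false)) = 0 ∧ zz E i (E (i, false) + 1) = 1 ∧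
      zz E i (E (i, true)) = 1 ∧ zz E i (E (i, true) + 1) = 0) := by
  have hv1 := val_succ (E (i, true))
  have hv2 := val_succ (E (i, false))
  have b1 := (E (i, true)).isLt
  have b2 := (E (i, false)).isLt
  have hne' : (E (i, true)).val ≠ (E (i, false)).val := fun h => hne (Fin.ext h)
  unfold zz
  simp only [Fin.lt_def, hv1, hv2]
  constructor
  · intro h
    refine ⟨?_, ?_, ?_, ?_⟩
    · rw [if_pos]; omega
    · rw [if_neg]; split_ifs <;> omega
    · rw [if_neg]; omega
    · rw [if_pos]; split_ifs <;> omega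
  · intro h
    refine ⟨?_, ?_, ?_, ?_⟩
    · rw [if_pos]; omega
    · rw [if_neg]; split_ifs <;> omega
    · rw [if_neg]; omega
    · rw [if_pos]; split_ifs <;> omega

/-- Jump of the potential on the left side across a passage. -/
lemma jump {L R : Fin m → κ} {o u : Fin m} {s : ℚ} (hs : s = 1 ∨ s = -1)
    (hc : CrossRel L R o u (s = 1)) (g : κ → ℚ) (z : Fin m → ℚ) (hg : ∀ t, g (L t) - g (R t) = z t)
    (ho : z (o + 1) = z o) (hu : z (u + 1) = z u) :
    g (L (o + 1)) - g (L o) = - (s * z u) ∧ g (L (u + 1)) - g (L u) = s * z o := by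
  have e1 := hg o
  have e2 := hg u
  have e3 := hg (o + 1)
  have e4 := hg (u + 1)
  rcases hs with rfl | rfl
  · obtain ⟨h1, h2, h3, h4⟩ := hc.1 rfl
    rw [h1, h2] at e1
    rw [h3, h4] at e3
    constructor
    · rw [h3, h1]; linarith
    · linarith
  · obtain ⟨h1, h2, h3, h4⟩ := hc.2 (by norm_num)
    rw [h1, h2] at e2
    rw [h3, h4] at e4
    constructor
    · linarith
    · rw [h3, h1]; linarith

/-- If the arcs before `a` and after `b` are not used, the potential agrees there. -/
lemma corner {L R : Fin m → κ} {o u : Fin m} {pos : Prop}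
    (hc : CrossRel L R o u pos) (g : κ → ℚ) (z : Fin m → ℚ) (hg : ∀ t, g (L t) - g (R t) = z t) :
    (z o = 0 → z (u + 1) = 0 → g (L o) = g (L (u + 1))) ∧
    (z u = 0 → z (o + 1) = 0 → g (L u) = g (L (o + 1))) := by
  have e1 := hg o
  have e2 := hg u
  have e3 := hg (o + 1)
  have e4 := hg (u + 1)
  by_cases hp : pos
  · obtain ⟨h1, h2, h3, h4⟩ := hc.1 hp
    rw [h1, h2] at e1
    rw [h3, h4] at e3
    constructor
    · intro _ _; rw [h1]
    · intro ha hb; rw [h3]; linarith
  · obtain ⟨h1, h2, h3, h4⟩ := hc.2 hp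
    rw [h1, h2] at e2
    rw [h3, h4] at e4
    constructor
    · intro ha hb; rw [h3]; linarith
    · intro _ _; rw [h1]

/-- Combinatorial data of a plane curve: `E` lists the passages in cyclic order, `L` and `R` are
the regions on the left and on the right of the arc which enters a given passage. -/
structure PlaneData (ι κ : Type) [Fintype ι] [DecidableEq ι] [Fintype κ] [DecidableEq κ]
    (m : ℕ) [NeZero m] where
  E : ι × Bool ≃ Fin m
  s : ι → ℚ
  hs : ∀ i, s i = 1 ∨ s i = -1
  L : Fin m → κ
  R : Fin m → κ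
  hκ : Fintype.card ι + 2 ≤ Fintype.card κ
  hsurj : ∀ r, ∃ t, L t = r ∨ R t = r
  hcross : ∀ i, CrossRel L R (E (i, true)) (E (i, false)) (s i = 1)

variable (D : PlaneData ι κ m)

/-- The first passage of a crossing. -/
def lo (E : ι × Bool → Fin m) (i : ι) : Fin m := min (E (i, true)) (E (i, false))

/-- The second passage of a crossing. -/
def hi (E : ι × Bool → Fin m) (i : ι) : Fin m := max (E (i, true)) (E (i, false))

lemma lo_hi (E : ι × Bool ≃ Fin m) (i : ι) :
    (lo E i = E (i, true) ∧ hi E i = E (i, false) ∧ E (i, true) < E (i, false)) ∨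
    (lo E i = E (i, false) ∧ hi E i = E (i, true) ∧ E (i, false) < E (i, true)) := by
  have hne : E (i, true) ≠ E (i, false) := fun h => by
    have := E.injective h; simp at this
  rcases lt_or_gt_of_ne hne with h | h
  · left; exact ⟨min_eq_left h.le, max_eq_right h.le, h⟩
  · right; exact ⟨min_eq_right h.le, max_eq_left h.le, h⟩

lemma lo_lt_hi (E : ι × Bool ≃ Fin m) (i : ι) : lo E i < hi E i := by
  rcases lo_hi E i with ⟨h1, h2, h3⟩ | ⟨h1, h2, h3⟩ <;> rw [h1, h2] <;> exact h3

lemma zz_eq (E : ι × Bool ≃ Fin m) (i : ι) (t : Fin m) :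
    zz E i t = if lo E i < t ∧ t ≤ hi E i then 1 else 0 := by
  unfold zz
  rcases lo_hi E i with ⟨h1, h2, h3⟩ | ⟨h1, h2, h3⟩
  · rw [h1, h2]
    simp only [Fin.lt_def, Fin.le_def] at *
    by_cases h : ((E (i, true)).val < t.val ↔ (E (i, false)).val < t.val)
    · rw [if_pos h, if_neg]; omega
    · rw [if_neg h, if_pos]; omega
  · rw [h1, h2]
    simp only [Fin.lt_def, Fin.le_def] at *
    by_cases h : ((E (i, true)).val < t.val ↔ (E (i, false)).val < t.val)
    · rw [if_pos h, if_neg]; omega
    · rw [if_neg h, if_pos]; omega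

lemma E_ne (E : ι × Bool ≃ Fin m) {i j : ι} (hij : i ≠ j) (b c : Bool) : E (i, b) ≠ E (j, c) := by
  intro h
  have := E.injective h
  simp only [Prod.mk.injEq] at this
  exact hij this.1

lemma zz_conserved (i j : ι) : zz D.E i (D.E (j, true)) + zz D.E i (D.E (j, false))
    = zz D.E i (D.E (j, true) + 1) + zz D.E i (D.E (j, false) + 1) := by
  by_cases hij : i = j
  · subst hij
    have hne : D.E (i, true) ≠ D.E (i, false) := fun h => by
      have := D.E.injective h; simp at this
    have hself := zz_self D.E i hne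
    rcases lo_hi D.E i with ⟨h1, h2, h3⟩ | ⟨h1, h2, h3⟩
    · obtain ⟨a, b, c, d⟩ := hself.1 h3
      rw [a, b, c, d]; ring
    · obtain ⟨a, b, c, d⟩ := hself.2 h3
      rw [a, b, c, d]; ring
  · rw [zz_succ D.E i (D.E (j, true)) (E_ne D.E (Ne.symm hij) _ _) (E_ne D.E (Ne.symm hij) _ _),
      zz_succ D.E i (D.E (j, false)) (E_ne D.E (Ne.symm hij) _ _) (E_ne D.E (Ne.symm hij) _ _)]

lemma sum_E (f : Fin m → ℚ) :
    ∑ t, f t = ∑ j, (f (D.E (j, true)) + f (D.E (j, false))) := by
  rw [← Equiv.sum_comp D.E f, Fintype.sum_prod_type]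
  refine Finset.sum_congr rfl fun j _ => ?_
  rw [Fintype.sum_bool]

/-- The algebraic intersection number of the two loops at a crossing vanishes. -/
theorem plane_P1 (i : ι) : ∑ j, D.s j * ez D.E i j = 0 := by
  obtain ⟨g, hg⟩ := potential (fun j => D.E (j, true)) (fun j => D.E (j, false))
    (fun j => D.s j = 1)
    (by
      intro t
      obtain ⟨⟨j, b⟩, hj⟩ := D.E.surjective t
      refine ⟨j, ?_⟩
      cases b
      · right; exact hj.symm
      · left; exact hj.symm)
    D.L D.R D.hκ D.hsurj D.hcross (zz D.E i) (zz_conserved D i)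
  have hne : D.E (i, true) ≠ D.E (i, false) := fun h => by
    have := D.E.injective h; simp at this
  have hself := zz_self D.E i hne
  have harc := arc_sum' (fun t => g (D.L t)) (lo D.E i) (hi D.E i) (lo_lt_hi D.E i)
  have hend : g (D.L (lo D.E i)) - g (D.L (hi D.E i + 1)) = 0 := by
    have hc := corner (D.hcross i) g (zz D.E i) hg
    rcases lo_hi D.E i with ⟨h1, h2, h3⟩ | ⟨h1, h2, h3⟩
    · obtain ⟨a, b, c, d⟩ := hself.1 h3
      rw [h1, h2, hc.1 a d]; ring
    · obtain ⟨a, b, c, d⟩ := hself.2 h3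
      rw [h1, h2, hc.2 a d]; ring
  rw [hend, sum_E D] at harc
  rw [← harc]
  refine Finset.sum_congr rfl fun j _ => ?_
  by_cases hij : i = j
  · subst hij
    have h1 : ¬ (D.E (i, true) < lo D.E i ∨ hi D.E i < D.E (i, true)) := by
      rcases lo_hi D.E i with ⟨h1, h2, h3⟩ | ⟨h1, h2, h3⟩ <;> rw [h1, h2] <;>
        simp only [Fin.lt_def] at * <;> omega
    have h2 : ¬ (D.E (i, false) < lo D.E i ∨ hi D.E i < D.E (i, false)) := by
      rcases lo_hi D.E i with ⟨h1, h2, h3⟩ | ⟨h1, h2, h3⟩ <;> rw [h1, h2] <;>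
        simp only [Fin.lt_def] at * <;> omega
    rw [if_neg h1, if_neg h2]
    simp [ez]
  · have hj := jump (D.hs j) (D.hcross j) g (zz D.E i) hg
      (zz_succ D.E i _ (E_ne D.E (Ne.symm hij) _ _) (E_ne D.E (Ne.symm hij) _ _))
      (zz_succ D.E i _ (E_ne D.E (Ne.symm hij) _ _) (E_ne D.E (Ne.symm hij) _ _))
    rw [hj.1, hj.2]
    unfold ez
    rw [if_neg hij]
    have key : ∀ b, (D.E (j, b) < lo D.E i ∨ hi D.E i < D.E (j, b)) ↔ zz D.E i (D.E (j, b)) = 0 := by
      intro b
      have hlo : (D.E (j, b)).val ≠ (lo D.E i).val := by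
        intro h
        rcases lo_hi D.E i with ⟨h1, h2, h3⟩ | ⟨h1, h2, h3⟩
        · rw [h1] at h; exact E_ne D.E (Ne.symm hij) _ _ (Fin.ext h)
        · rw [h1] at h; exact E_ne D.E (Ne.symm hij) _ _ (Fin.ext h)
      have hhi : (D.E (j, b)).val ≠ (hi D.E i).val := by
        intro h
        rcases lo_hi D.E i with ⟨h1, h2, h3⟩ | ⟨h1, h2, h3⟩
        · rw [h2] at h; exact E_ne D.E (Ne.symm hij) _ _ (Fin.ext h)
        · rw [h2] at h; exact E_ne D.E (Ne.symm hij) _ _ (Fin.ext h)
      rw [zz_eq]
      simp only [Fin.lt_def, Fin.le_def]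
      split_ifs with h
      · constructor
        · intro h'; omega
        · intro h'; norm_num at h'
      · constructor
        · intro _; rfl
        · intro _; omega
    simp only [key]
    rcases zz_cases D.E i (D.E (j, true)) with h1 | h1 <;>
      rcases zz_cases D.E i (D.E (j, false)) with h2 | h2 <;> rw [h1, h2] <;> norm_num

lemma not_mem_arc (k : ι) (b : Bool) :
    ¬ (lo D.E k < D.E (k, b) ∧ D.E (k, b) < hi D.E k) ∧
    ¬ (D.E (k, b) < lo D.E k ∨ hi D.E k < D.E (k, b)) := by
  rcases lo_hi D.E k with ⟨h1, h2, h3⟩ | ⟨h1, h2, h3⟩ <;> rw [h1, h2] <;> cases b <;>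
    simp only [Fin.lt_def] at * <;> constructor <;> omega

lemma ne_lo_hi {j k : ι} (hjk : j ≠ k) (b : Bool) :
    (D.E (j, b)).val ≠ (lo D.E k).val ∧ (D.E (j, b)).val ≠ (hi D.E k).val := by
  constructor
  · intro h
    rcases lo_hi D.E k with ⟨h1, h2, h3⟩ | ⟨h1, h2, h3⟩
    · rw [h1] at h; exact E_ne D.E hjk _ _ (Fin.ext h)
    · rw [h1] at h; exact E_ne D.E hjk _ _ (Fin.ext h)
  · intro h
    rcases lo_hi D.E k with ⟨h1, h2, h3⟩ | ⟨h1, h2, h3⟩
    · rw [h2] at h; exact E_ne D.E hjk _ _ (Fin.ext h)
    · rw [h2] at h; exact E_ne D.E hjk _ _ (Fin.ext h)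

lemma arc_term (i k : ι) (hik : i ≠ k) (z : Fin m → ℚ) (g : κ → ℚ)
    (hg : ∀ t, g (D.L t) - g (D.R t) = z t)
    (hz01 : ∀ t, z t = 0 ∨ z t = 1)
    (hstep : ∀ j b, j ≠ i → z (D.E (j, b) + 1) = z (D.E (j, b)))
    (hk : ∀ b, z (D.E (k, b)) = 0)
    (φ : Fin m → Prop) [DecidablePred φ]
    (hφ : (∀ t, φ t ↔ (lo D.E k < t ∧ t < hi D.E k)) ∨
      (∀ t, φ t ↔ (t < lo D.E k ∨ hi D.E k < t)))
    (hφi : ∀ b, ¬ φ (D.E (i, b)))
    (hφz : ∀ j b, j ≠ i → φ (D.E (j, b)) → z (D.E (j, b)) = 0) :
    ∑ j, D.s j * ((if i = j then 0 else z (D.E (j, true)) - z (D.E (j, false)))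
      * (ez D.E k j) ^ 2) = 0 := by
  have hc := corner (D.hcross k) g z hg
  have e1 : z (D.E (k, true) + 1) = 0 := by rw [hstep k true hik.symm]; exact hk true
  have e2 : z (D.E (k, false) + 1) = 0 := by rw [hstep k false hik.symm]; exact hk false
  have hc1 := hc.1 (hk true) e2
  have hc2 := hc.2 (hk false) e1
  have harc : ∑ t, (if φ t then g (D.L (t + 1)) - g (D.L t) else 0) = 0 := by
    rcases hφ with hφ | hφ
    · have h := arc_sum (fun t => g (D.L t)) (lo D.E k) (hi D.E k) (lo_lt_hi D.E k)
      have hend : g (D.L (hi D.E k)) - g (D.L (lo D.E k + 1)) = 0 := by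
        rcases lo_hi D.E k with ⟨h1, h2, h3⟩ | ⟨h1, h2, h3⟩
        · rw [h1, h2, hc2]; ring
        · rw [h1, h2, hc1]; ring
      rw [hend] at h
      exact (Finset.sum_congr rfl fun t _ => by simp only [hφ t]).trans h
    · have h := arc_sum' (fun t => g (D.L t)) (lo D.E k) (hi D.E k) (lo_lt_hi D.E k)
      have hend : g (D.L (lo D.E k)) - g (D.L (hi D.E k + 1)) = 0 := by
        rcases lo_hi D.E k with ⟨h1, h2, h3⟩ | ⟨h1, h2, h3⟩
        · rw [h1, h2, hc1]; ring
        · rw [h1, h2, hc2]; ring
      rw [hend] at h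
      exact (Finset.sum_congr rfl fun t _ => by simp only [hφ t]).trans h
  rw [sum_E D] at harc
  refine (Finset.sum_congr rfl fun j _ => ?_).trans harc
  by_cases hij : i = j
  · subst hij
    rw [if_neg (hφi true), if_neg (hφi false)]; simp
  · rw [if_neg hij]
    by_cases hkj : k = j
    · subst hkj
      have h1 : ∀ b, ¬ φ (D.E (k, b)) := by
        intro b
        rcases hφ with hφ | hφ
        · rw [hφ]; exact (not_mem_arc D k b).1
        · rw [hφ]; exact (not_mem_arc D k b).2
      rw [if_neg (h1 true), if_neg (h1 false)]; simp [ez]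
    · have hj := jump (D.hs j) (D.hcross j) g z hg (hstep j true (Ne.symm hij))
        (hstep j false (Ne.symm hij))
      rw [hj.1, hj.2]
      unfold ez
      rw [if_neg hkj]
      have hval : ∀ b, zz D.E k (D.E (j, b)) =
          if (lo D.E k < D.E (j, b) ∧ D.E (j, b) < hi D.E k) then 1 else 0 := by
        intro b
        have hb := ne_lo_hi D (Ne.symm hkj) b
        rw [zz_eq]
        simp only [Fin.lt_def, Fin.le_def]
        split_ifs <;> first | rfl | (exfalso; omega)
      have hval' : ∀ b, (D.E (j, b) < lo D.E k ∨ hi D.E k < D.E (j, b)) ↔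
          ¬ (lo D.E k < D.E (j, b) ∧ D.E (j, b) < hi D.E k) := by
        intro b
        have hb := ne_lo_hi D (Ne.symm hkj) b
        simp only [Fin.lt_def]
        constructor <;> intro _ <;> omega
      have h1 := hφz j true (Ne.symm hij)
      have h2 := hφz j false (Ne.symm hij)
      rw [hval, hval]
      rcases hφ with hφ | hφ
      · rw [hφ] at h1 h2
        simp only [hφ]
        rcases hz01 (D.E (j, true)) with h3 | h3 <;>
          rcases hz01 (D.E (j, false)) with h4 | h4 <;> rw [h3] at h1 <;> rw [h4] at h2 <;>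
          rw [h3, h4] <;> split_ifs with h5 h6 h6 <;>
          first
            | (exfalso; exact absurd (h1 h5) one_ne_zero)
            | (exfalso; exact absurd (h2 h6) one_ne_zero)
            | ring1
      · rw [hφ, hval'] at h1 h2
        simp only [hφ, hval']
        rcases hz01 (D.E (j, true)) with h3 | h3 <;>
          rcases hz01 (D.E (j, false)) with h4 | h4 <;> rw [h3] at h1 <;> rw [h4] at h2 <;>
          rw [h3, h4] <;> split_ifs with h5 h6 h6 <;>
          first
            | (exfalso; exact absurd (h1 (by assumption)) one_ne_zero)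
            | (exfalso; exact absurd (h2 (by assumption)) one_ne_zero)
            | ring1

/-- The algebraic intersection numbers of loops at two crossings which are not interlaced vanish. -/
theorem plane_P2 (i k : ι) (hik : i ≠ k) (h0 : ez D.E i k = 0) :
    ∑ j, D.s j * (ez D.E i j * (ez D.E k j) ^ 2) = 0 := by
  classical
  have hpot := fun z hz => potential (fun j => D.E (j, true)) (fun j => D.E (j, false))
    (fun j => D.s j = 1)
    (by
      intro t
      obtain ⟨⟨j, b⟩, hj⟩ := D.E.surjective t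
      refine ⟨j, ?_⟩
      cases b
      · right; exact hj.symm
      · left; exact hj.symm)
    D.L D.R D.hκ D.hsurj D.hcross z hz
  have hk0 : zz D.E i (D.E (k, true)) = zz D.E i (D.E (k, false)) := by
    unfold ez at h0
    rw [if_neg hik] at h0
    linarith
  have hki1 := ne_lo_hi D (Ne.symm hik) true
  have hki2 := ne_lo_hi D (Ne.symm hik) false
  have hik1 := ne_lo_hi D hik true
  have hik2 := ne_lo_hi D hik false
  have hlti := lo_lt_hi D.E i
  have hltk := lo_lt_hi D.E k
  have hLHk := lo_hi D.E k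
  have hLHi := lo_hi D.E i
  rcases zz_cases D.E i (D.E (k, true)) with hz | hz
  · -- k lies outside the loop at i
    have hz' : zz D.E i (D.E (k, false)) = 0 := by rw [← hk0]; exact hz
    obtain ⟨g, hg⟩ := hpot (zz D.E i) (zz_conserved D i)
    have hz1 := hz
    have hz2 := hz'
    rw [zz_eq] at hz1 hz2
    have hz1' : ¬ (lo D.E i < D.E (k, true) ∧ D.E (k, true) ≤ hi D.E i) := by
      intro h; rw [if_pos h] at hz1; exact one_ne_zero hz1
    have hz2' : ¬ (lo D.E i < D.E (k, false) ∧ D.E (k, false) ≤ hi D.E i) := by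
      intro h; rw [if_pos h] at hz2; exact one_ne_zero hz2
    by_cases hnest : lo D.E k < lo D.E i ∧ hi D.E i < hi D.E k
    · -- the loop at i is inside the interval of k
      have h := arc_term D i k hik (zz D.E i) g hg (zz_cases D.E i)
        (fun j b hj => zz_succ D.E i _ (E_ne D.E hj _ _) (E_ne D.E hj _ _))
        (fun b => by cases b; exact hz'; exact hz)
        (fun t => t < lo D.E k ∨ hi D.E k < t) (Or.inr fun t => Iff.rfl)
        (fun b => by
          rcases hLHi with ⟨h1, h2, h3⟩ | ⟨h1, h2, h3⟩ <;> rw [h1, h2] at hnest <;> cases b <;>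
            simp only [Fin.lt_def] at * <;> omega)
        (fun j b hj h => by
          rw [zz_eq, if_neg]
          simp only [Fin.lt_def, Fin.le_def] at *
          omega)
      rw [← h]
      rfl
    · have h := arc_term D i k hik (zz D.E i) g hg (zz_cases D.E i)
        (fun j b hj => zz_succ D.E i _ (E_ne D.E hj _ _) (E_ne D.E hj _ _))
        (fun b => by cases b; exact hz'; exact hz)
        (fun t => lo D.E k < t ∧ t < hi D.E k) (Or.inl fun t => Iff.rfl)
        (fun b => by
          rcases hLHi with ⟨h1, h2, h3⟩ | ⟨h1, h2, h3⟩ <;>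
          rcases hLHk with ⟨h4, h5, h6⟩ | ⟨h4, h5, h6⟩ <;>
            rw [h1, h2] at hz1' hz2' hnest <;> rw [h4, h5] at hnest ⊢ <;> cases b <;>
            simp only [Fin.lt_def, Fin.le_def] at * <;> omega)
        (fun j b hj h => by
          rw [zz_eq, if_neg]
          rcases hLHi with ⟨h1, h2, h3⟩ | ⟨h1, h2, h3⟩ <;>
          rcases hLHk with ⟨h4, h5, h6⟩ | ⟨h4, h5, h6⟩ <;>
            rw [h1, h2] at hz1' hz2' hnest ⊢ <;> rw [h4, h5] at hnest h <;>
            simp only [Fin.lt_def, Fin.le_def] at * <;> omega)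
      rw [← h]
      rfl
  · -- k lies inside the loop at i
    have hz' : zz D.E i (D.E (k, false)) = 1 := by rw [← hk0]; exact hz
    obtain ⟨g, hg⟩ := hpot (fun t => 1 - zz D.E i t) (fun j => by
      have := zz_conserved D i j
      linarith)
    have hz1 := hz
    have hz2 := hz'
    rw [zz_eq] at hz1 hz2
    have hz1' : (lo D.E i < D.E (k, true) ∧ D.E (k, true) ≤ hi D.E i) := by
      by_contra h; rw [if_neg h] at hz1; exact zero_ne_one hz1
    have hz2' : (lo D.E i < D.E (k, false) ∧ D.E (k, false) ≤ hi D.E i) := by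
      by_contra h; rw [if_neg h] at hz2; exact zero_ne_one hz2
    have h := arc_term D i k hik (fun t => 1 - zz D.E i t) g hg
      (fun t => by rcases zz_cases D.E i t with e | e <;> rw [e] <;> norm_num)
      (fun j b hj => by
        rw [zz_succ D.E i _ (E_ne D.E hj _ _) (E_ne D.E hj _ _)])
      (fun b => by cases b; simp only [hz']; norm_num; simp only [hz]; norm_num)
      (fun t => lo D.E k < t ∧ t < hi D.E k) (Or.inl fun t => Iff.rfl)
      (fun b => by
        rcases hLHi with ⟨h1, h2, h3⟩ | ⟨h1, h2, h3⟩ <;>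
        rcases hLHk with ⟨h4, h5, h6⟩ | ⟨h4, h5, h6⟩ <;>
          rw [h1, h2] at hz1' hz2' <;> rw [h4, h5] <;> cases b <;>
          simp only [Fin.lt_def, Fin.le_def] at * <;> omega)
      (fun j b hj h => by
        rw [zz_eq, if_pos]
        · norm_num
        rcases hLHi with ⟨h1, h2, h3⟩ | ⟨h1, h2, h3⟩ <;>
        rcases hLHk with ⟨h4, h5, h6⟩ | ⟨h4, h5, h6⟩ <;>
          rw [h1, h2] at hz1' hz2' ⊢ <;> rw [h4, h5] at h <;>
          simp only [Fin.lt_def, Fin.le_def] at * <;> omega)
    have h2 : ∑ j, D.s j * (ez D.E i j * (ez D.E k j) ^ 2) = - ∑ j, D.s j *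
        ((if i = j then 0 else (1 - zz D.E i (D.E (j, true))) - (1 - zz D.E i (D.E (j, false))))
          * (ez D.E k j) ^ 2) := by
      rw [← Finset.sum_neg_distrib]
      refine Finset.sum_congr rfl fun j _ => ?_
      have : ez D.E i j = - (if i = j then 0 else
          (1 - zz D.E i (D.E (j, true))) - (1 - zz D.E i (D.E (j, false)))) := by
        unfold ez
        split_ifs <;> ring
      rw [this]; ring
    rw [h2, h, neg_zero]

end Plane

end Pool.Agent.Lib.MP_ae2e71_gt
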