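import Pool.Agent.Lib.MP_ae2e71_gt.Third
import Pool.Agent.Lib.MP_ae2e71_gt.Planar
import Pool.Agent.Lib.MP_ae2e71_gt.Defs

set_option linter.unusedVariables false
set_option linter.unusedSimpArgs false

namespace Pool.Agent.Lib.MP_ae2e71_gt

open Finset Pool.Agent.KnotCode

/-- Indicator that the passage `y` lies between the two passages of `i`. -/
def ins (P : Passage → ℕ) (i : ℕ) (y : Passage) : ℤ :=
  if (P (i, true) < P y ↔ P (i, false) < P y) then 0 else 1

/-- The signed interlacement number (without the sign of the second crossing). -/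
def ee (P : Passage → ℕ) (i j : ℕ) : ℤ :=
  if i = j then 0 else ins P i (j, true) - ins P i (j, false)

lemma ins_cases (P : Passage → ℕ) (i : ℕ) (y : Passage) : ins P i y = 0 ∨ ins P i y = 1 := by
  unfold ins; split_ifs <;> simp

lemma ee_self (P : Passage → ℕ) (i : ℕ) : ee P i i = 0 := by simp [ee]

lemma ee_val (P : Passage → ℕ) (i j : ℕ) : ee P i j = 0 ∨ ee P i j = 1 ∨ ee P i j = -1 := by
  unfold ee
  split_ifs
  · left; rfl
  · rcases ins_cases P i (j, true) with h | h <;> rcases ins_cases P i (j, false) with h' | h' <;>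
      rw [h, h'] <;> simp

/-- The order of the two passages of a crossing. -/
def eps (P : Passage → ℕ) (i : ℕ) : ℤ := if P (i, true) < P (i, false) then 1 else -1

lemma eps_cases (P : Passage → ℕ) (i : ℕ) : eps P i = 1 ∨ eps P i = -1 := by
  unfold eps; split_ifs <;> simp

/-- The four passages of two crossings have different positions. -/
def Sep (P : Passage → ℕ) (i j : ℕ) : Prop :=
  P (i, true) ≠ P (i, false) ∧ P (j, true) ≠ P (j, false) ∧ ∀ b c, P (i, b) ≠ P (j, c)

lemma ee_prod_aux (p q r t : ℕ) (h1 : p ≠ q) (h2 : r ≠ t) (h3 : p ≠ r) (h4 : p ≠ t) (h5 : q ≠ r)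
    (h6 : q ≠ t) :
    ((if (p < r ↔ q < r) then (0 : ℤ) else 1) - (if (p < t ↔ q < t) then 0 else 1))
      * ((if (r < p ↔ t < p) then (0 : ℤ) else 1) - (if (r < q ↔ t < q) then 0 else 1))
    = - ((if p < q then (1 : ℤ) else -1) * (if r < t then 1 else -1)) *
      ((if (p < r ↔ q < r) then (0 : ℤ) else 1) - (if (p < t ↔ q < t) then 0 else 1)) ^ 2 ∧
    ((if (p < r ↔ q < r) then (0 : ℤ) else 1) - (if (p < t ↔ q < t) then 0 else 1)) ^ 2
      = ((if (r < p ↔ t < p) then (0 : ℤ) else 1) - (if (r < q ↔ t < q) then 0 else 1)) ^ 2 := by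
  have a1 : r < p ↔ ¬ p < r := by omega
  have a2 : t < p ↔ ¬ p < t := by omega
  have a3 : r < q ↔ ¬ q < r := by omega
  have a4 : t < q ↔ ¬ q < t := by omega
  simp only [a1, a2, a3, a4]
  by_cases b1 : p < r <;> by_cases b2 : q < r <;> by_cases b3 : p < t <;> by_cases b4 : q < t <;>
    by_cases b5 : p < q <;> by_cases b6 : r < t <;> first
    | (exfalso; omega)
    | simp only [b1, b2, b3, b4, b5, b6, if_true, if_false, not_true_eq_false, not_false_eq_true,
        iff_true, iff_false, iff_self, true_iff, false_iff] <;> norm_num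

lemma ee_prod (P : Passage → ℕ) (i j : ℕ) (h : i ≠ j → Sep P i j) :
    ee P i j * ee P j i = - (eps P i * eps P j) * ee P i j ^ 2 ∧ ee P i j ^ 2 = ee P j i ^ 2 := by
  by_cases hij : i = j
  · subst hij; simp [ee_self]
  · obtain ⟨h1, h2, h3⟩ := h hij
    unfold ee ins eps
    rw [if_neg hij, if_neg (Ne.symm hij)]
    exact ee_prod_aux _ _ _ _ h1 h2 (h3 _ _) (h3 _ _) (h3 _ _) (h3 _ _)

lemma ee_congr {P P' : Passage → ℕ} {i j i' j' : ℕ} (hij : i = j ↔ i' = j')
    (h : i ≠ j → ∀ b c, P (i, b) < P (j, c) ↔ P' (i', b) < P' (j', c)) :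
    ee P i j = ee P' i' j' := by
  unfold ee ins
  by_cases hij' : i = j
  · rw [if_pos hij', if_pos (hij.mp hij')]
  · rw [if_neg hij', if_neg (fun e => hij' (hij.mpr e))]
    have := h hij'
    simp only [this]

end Pool.Agent.Lib.MP_ae2e71_gt
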