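import Pool.Agent.Lib.MP_ae2e71_gt.Triangle

set_option linter.unusedVariables false
set_option linter.unusedSimpArgs false

namespace Pool.Agent.Lib.MP_ae2e71_gt

open Finset Pool.Agent.KnotCode Pool.Agent.KnotCode.Code

lemma pair_coe (a : Bool) (x y : Passage) :
    ((pair a x y : List Passage) : Multiset Passage) = {x} + {y} := by
  unfold pair
  split_ifs
  · rfl
  · rw [add_comm]; rfl

lemma six_perm (a b c : Bool) (x1 x2 y1 y2 z1 z2 : Passage) (u v w : List Passage) :
    (pair a x1 x2 ++ u ++ pair b y1 y2 ++ v ++ pair c z1 z2 ++ w).Perm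
      ([x1, x2, y1, y2, z1, z2] ++ (u ++ v ++ w)) := by
  rw [← Multiset.coe_eq_coe]
  simp only [← Multiset.coe_add, pair_coe]
  have : (([x1, x2, y1, y2, z1, z2] : List Passage) : Multiset Passage)
      = {x1} + {x2} + {y1} + {y2} + {z1} + {z2} := rfl
  rw [this]
  abel

lemma six_data {i j k : ℕ} {r : List Passage} {D : Code}
    (hperm : D.word.Perm ([(i, true), (j, true), (i, false), (k, true), (j, false), (k, false)]
      ++ r)) (hw : D.WellFormed) :
    i ≠ j ∧ i ≠ k ∧ j ≠ k ∧ i ∉ (r.map Prod.fst).toFinset ∧ j ∉ (r.map Prod.fst).toFinset ∧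
    k ∉ (r.map Prod.fst).toFinset ∧ D.crossings = {i, j, k} ∪ (r.map Prod.fst).toFinset := by
  have hnd := hperm.nodup_iff.mp hw.1
  have hd := (List.nodup_append.mp hnd).2.2
  have hnd1 := (List.nodup_append.mp hnd).1
  simp only [List.nodup_cons, List.mem_cons, Prod.mk.injEq, not_or, and_true, and_false,
    List.not_mem_nil, not_false_eq_true, true_and, List.nodup_nil, reduceCtorEq] at hnd1
  have hT : ∀ t : ℕ, t = i ∨ t = j ∨ t = k → ∀ c, (t, c) ∉ r := by
    intro t ht c hc
    apply hd (t, c) _ (t, c) hc rfl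
    rcases ht with e | e | e <;> subst e <;> cases c <;> simp
  have hn : ∀ t : ℕ, t = i ∨ t = j ∨ t = k → t ∉ (r.map Prod.fst).toFinset := by
    intro t ht h
    rw [List.mem_toFinset, List.mem_map] at h
    obtain ⟨⟨t', c⟩, hc, e⟩ := h
    simp only at e
    subst e
    exact hT _ ht c hc
  refine ⟨?_, ?_, ?_, hn i (Or.inl rfl), hn j (Or.inr (Or.inl rfl)), hn k (Or.inr (Or.inr rfl)),
    ?_⟩
  · tauto
  · tauto
  · tauto
  · ext y
    rw [mem_crossings]
    simp only [Finset.mem_union, Finset.mem_insert, Finset.mem_singleton, List.mem_toFinset,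
      List.mem_map]
    constructor
    · rintro ⟨c, hc⟩
      rw [hperm.mem_iff] at hc
      simp only [List.mem_append, List.mem_cons, List.not_mem_nil, or_false,
        Prod.mk.injEq] at hc
      rcases hc with (h | h | h | h | h | h) | h
      · left; left; exact h.1
      · left; right; left; exact h.1
      · left; left; exact h.1
      · left; right; right; exact h.1
      · left; right; left; exact h.1
      · left; right; right; exact h.1
      · right; exact ⟨_, h, rfl⟩
    · rintro ((h | h | h) | ⟨⟨y', c⟩, h, e⟩)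
      · refine ⟨true, hperm.mem_iff.mpr ?_⟩
        rw [h]; simp
      · refine ⟨true, hperm.mem_iff.mpr ?_⟩
        rw [h]; simp
      · refine ⟨true, hperm.mem_iff.mpr ?_⟩
        rw [h]; simp
      · simp only at e
        subst e
        exact ⟨c, hperm.mem_iff.mpr (List.mem_append_right _ h)⟩

lemma ne_of_not_mem {X : Finset ℕ} {x i : ℕ} (hx : x ∈ X) (hi : i ∉ X) (d c : Bool) :
    ((x, d) : Passage) ≠ (i, c) := by
  intro e
  simp only [Prod.mk.injEq] at e
  exact hi (e.1 ▸ hx)

lemma triPos_r3 {i j k : ℕ} {a b c : Bool} {u v w : List Passage} {D : Code}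
    (hD : D.word = pair a (i, true) (j, true) ++ u ++ pair b (i, false) (k, true) ++ v
          ++ pair c (j, false) (k, false) ++ w) (hw : D.WellFormed) :
    TriPos (((u ++ v ++ w).map Prod.fst).toFinset) i j k (pos D.word) (qpos u v w) u.length
      v.length true a b c ∧ D.crossings = {i, j, k} ∪ ((u ++ v ++ w).map Prod.fst).toFinset := by
  have hperm : D.word.Perm ([(i, true), (j, true), (i, false), (k, true), (j, false), (k, false)]
      ++ (u ++ v ++ w)) := by rw [hD]; exact six_perm _ _ _ _ _ _ _ _ _ _ _ _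
  obtain ⟨h1, h2, h3, h4, h5, h6, h7⟩ := six_data hperm hw
  have hnd := hw.1
  rw [hD] at hnd
  obtain ⟨p1, p2, p3, p4, p5, p6⟩ := six_pos (by simp [h1]) (by simp) (by simp [h3]) hnd
  refine ⟨⟨h1, h2, h3, h4, h5, h6, ?_, ?_, ?_, ?_, ?_, ?_, ?_, ?_⟩, h7⟩
  · rw [hD]; exact p1
  · rw [hD]; exact p2
  · rw [hD, if_pos rfl]; exact p3
  · rw [hD, if_pos rfl]; exact p4
  · rw [hD, if_pos rfl]; exact p5
  · rw [hD, if_pos rfl]; exact p6
  · intro x hx d
    rw [hD]
    exact six_other (ne_of_not_mem hx h4 _ _) (ne_of_not_mem hx h5 _ _)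
      (ne_of_not_mem hx h4 _ _) (ne_of_not_mem hx h6 _ _) (ne_of_not_mem hx h5 _ _)
      (ne_of_not_mem hx h6 _ _)
  · intro x hx d
    exact qpos_bounds _ _ _ _

lemma triPos_r3' {i j k : ℕ} {a b c : Bool} {u v w : List Passage} {D : Code}
    (hD : D.word = pair a (i, true) (j, true) ++ u ++ pair c (j, false) (k, false) ++ v
          ++ pair b (i, false) (k, true) ++ w) (hw : D.WellFormed) :
    TriPos (((u ++ v ++ w).map Prod.fst).toFinset) i j k (pos D.word) (qpos u v w) u.length
      v.length false a b c ∧ D.crossings = {i, j, k} ∪ ((u ++ v ++ w).map Prod.fst).toFinset := by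
  have hperm : D.word.Perm ([(i, true), (j, true), (i, false), (k, true), (j, false), (k, false)]
      ++ (u ++ v ++ w)) := by
    rw [hD]
    refine (six_perm _ _ _ _ _ _ _ _ _ _ _ _).trans ?_
    rw [← Multiset.coe_eq_coe]
    simp only [← Multiset.coe_add]
    congr 1
    have e1 : (([(i, true), (j, true), (j, false), (k, false), (i, false), (k, true)] :
        List Passage) : Multiset Passage)
      = {(i, true)} + {(j, true)} + {(j, false)} + {(k, false)} + {(i, false)} + {(k, true)} := rfl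
    have e2 : (([(i, true), (j, true), (i, false), (k, true), (j, false), (k, false)] :
        List Passage) : Multiset Passage)
      = {(i, true)} + {(j, true)} + {(i, false)} + {(k, true)} + {(j, false)} + {(k, false)} := rfl
    rw [e1, e2]
    abel
  obtain ⟨h1, h2, h3, h4, h5, h6, h7⟩ := six_data hperm hw
  have hnd := hw.1
  rw [hD] at hnd
  obtain ⟨p1, p2, p3, p4, p5, p6⟩ := six_pos (by simp [h1]) (by simp [h3]) (by simp) hnd
  refine ⟨⟨h1, h2, h3, h4, h5, h6, ?_, ?_, ?_, ?_, ?_, ?_, ?_, ?_⟩, h7⟩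
  · rw [hD]; exact p1
  · rw [hD]; exact p2
  · rw [hD, if_neg (by simp)]; exact p5
  · rw [hD, if_neg (by simp)]; exact p6
  · rw [hD, if_neg (by simp)]; exact p3
  · rw [hD, if_neg (by simp)]; exact p4
  · intro x hx d
    rw [hD]
    exact six_other (ne_of_not_mem hx h4 _ _) (ne_of_not_mem hx h5 _ _)
      (ne_of_not_mem hx h5 _ _) (ne_of_not_mem hx h6 _ _) (ne_of_not_mem hx h4 _ _)
      (ne_of_not_mem hx h6 _ _)
  · intro x hx d
    exact qpos_bounds _ _ _ _

/-- The two sums are invariant under the elementary moves. -/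
theorem move_inv {D D' : Code} (h : Code.Move D D') (hw : D.WellFormed) (hp : D.Planar)
    (hw' : D'.WellFormed) (hp' : D'.Planar) : inv2 D' = inv2 D ∧ inv3 D' = inv3 D := by
  cases h with
  | rotate x w s => exact rotate_inv x w s hw hp
  | reverse w s => exact reverse_inv w s hw
  | rename w s t f h => exact rename_inv w s t f h
  | r1 i b w s => exact r1_inv i b w s hw
  | r2 i j a u v s h => exact r2_inv i j a u v s h hw
  | r3 i j k a b c u v w s h₁ h₂ =>
    obtain ⟨T, hX⟩ := triPos_r3 rfl hw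
    obtain ⟨T', hX'⟩ := triPos_r3 rfl hw'
    exact tri_inv i j k true a b c _ _ _ s _ _ rfl rfl h₁ h₂ _ hX hX' hw hp hw' hp' T T'
  | r3' i j k a b c u v w s h₁ h₂ =>
    obtain ⟨T, hX⟩ := triPos_r3' rfl hw
    obtain ⟨T', hX'⟩ := triPos_r3' rfl hw'
    exact tri_inv i j k false a b c _ _ _ s _ _ rfl rfl h₁ h₂ _ hX hX' hw hp hw' hp' T T'

/-- The pair of invariants of a knot. -/
def knotInv : Knot → ℤ × ℤ :=
  Quot.lift (fun D : Diagram => (inv2 D.code, inv3 D.code)) (by
    intro D D' h
    obtain ⟨h1, h2⟩ := move_inv h D.wellFormed D.planar D'.wellFormed D'.planar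
    rw [h1, h2])

end Pool.Agent.Lib.MP_ae2e71_gt
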