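import Pool.Agent.Lib.MP_ae2e71_gt.Rotate

set_option linter.unusedVariables false
set_option linter.unusedSimpArgs false

namespace Pool.Agent.Lib.MP_ae2e71_gt

open Finset Pool.Agent.KnotCode Pool.Agent.KnotCode.Code

/-! ### Reversal of the orientation -/

lemma pos_reverse {w : List Passage} (hw : w.Nodup) {x : Passage} (hx : x ∈ w) :
    pos w.reverse x + 1 + pos w x = w.length := by
  have h1 := pos_lt hx
  have hn : w.reverse.Nodup := List.nodup_reverse.mpr hw
  have h2 : w.length - 1 - pos w x < w.reverse.length := by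
    rw [List.length_reverse]; omega
  have h3 : w.reverse[w.length - 1 - pos w x]'h2 = x := by
    rw [List.getElem_reverse]
    have h4 : w.length - 1 - (w.length - 1 - pos w x) = pos w x := by omega
    simp only [h4]
    exact List.getElem_idxOf _
  have h5 := hn.idxOf_getElem _ h2
  rw [h3] at h5
  unfold pos at *
  omega

lemma reverse_inv (w : List Passage) (s : ℕ → ℤˣ) (hw : (⟨w, s⟩ : Code).WellFormed) :
    inv2 ⟨w.reverse, s⟩ = inv2 ⟨w, s⟩ ∧ inv3 ⟨w.reverse, s⟩ = inv3 ⟨w, s⟩ := by
  set D : Code := ⟨w, s⟩ with hD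
  have hX : (⟨w.reverse, s⟩ : Code).crossings = D.crossings := by
    unfold Code.crossings
    ext y
    simp [hD]
  have key : ∀ i ∈ D.crossings, ∀ j ∈ D.crossings,
      ee (pos w.reverse) i j = ee (pos w) i j := by
    intro i hi j hj
    by_cases hij : i = j
    · rw [hij, ee_self, ee_self]
    have hk : ∀ b, ins (pos w.reverse) i (j, b) = ins (pos w) i (j, b) := by
      intro b
      have a1 := pos_reverse hw.1 (wf_mem hw hi true)
      have a2 := pos_reverse hw.1 (wf_mem hw hi false)
      have a3 := pos_reverse hw.1 (wf_mem hw hj b)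
      have b1 := pos_ne (wf_mem hw hi true) (y := (j, b)) (by simp [hij])
      have b2 := pos_ne (wf_mem hw hi false) (y := (j, b)) (by simp [hij])
      simp only [hD] at a1 a2 a3 b1 b2
      unfold ins
      by_cases h : (pos w (i, true) < pos w (j, b) ↔ pos w (i, false) < pos w (j, b))
      · rw [if_pos h, if_pos (by omega)]
      · rw [if_neg h, if_neg (by omega)]
    unfold ee
    rw [if_neg hij, if_neg hij, hk, hk]
  constructor
  · unfold inv2
    rw [hX]
    exact W2_congr key fun _ _ => rfl
  · unfold inv3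
    rw [hX]
    exact W3_congr key fun _ _ => rfl

/-! ### Renaming -/

lemma pos_map {g : Passage → Passage} (hg : Function.Injective g) (w : List Passage)
    (x : Passage) : pos (w.map g) (g x) = pos w x := by
  induction w with
  | nil => rfl
  | cons y w ih =>
    rw [List.map_cons]
    by_cases h : y = x
    · rw [h, pos_cons_self, pos_cons_self]
    · rw [pos_cons_ne h, pos_cons_ne (fun e => h (hg e)), ih]

lemma rename_inv (w : List Passage) (s t : ℕ → ℤˣ) (f : ℕ ≃ ℕ) (h : ∀ x ∈ w, t (f x.1) = s x.1) :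
    inv2 ⟨w.map (fun x => (f x.1, x.2)), t⟩ = inv2 ⟨w, s⟩ ∧
    inv3 ⟨w.map (fun x => (f x.1, x.2)), t⟩ = inv3 ⟨w, s⟩ := by
  have hg : Function.Injective (fun x : Passage => ((f x.1, x.2) : Passage)) := by
    rintro ⟨a, b⟩ ⟨c, d⟩ e
    simp only [Prod.mk.injEq, EmbeddingLike.apply_eq_iff_eq] at e
    rw [e.1, e.2]
  have hX : (⟨w.map (fun x => (f x.1, x.2)), t⟩ : Code).crossings
      = (⟨w, s⟩ : Code).crossings.image f := by
    unfold Code.crossings
    ext y
    simp
  have he : ∀ i j, ee (pos (w.map (fun x => (f x.1, x.2)))) (f i) (f j) = ee (pos w) i j := by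
    intro i j
    symm
    apply ee_congr
    · simp
    · intro _ b c
      have h1 := pos_map hg w (i, b)
      have h2 := pos_map hg w (j, c)
      simp only at h1 h2
      rw [h1, h2]
  have hs : ∀ i ∈ (⟨w, s⟩ : Code).crossings, t (f i) = s i := by
    intro i hi
    obtain ⟨b, hb⟩ := mem_crossings.mp hi
    exact h _ hb
  have hinj : ∀ x ∈ (⟨w, s⟩ : Code).crossings, ∀ y ∈ (⟨w, s⟩ : Code).crossings,
      f x = f y → x = y := fun x _ y _ e => f.injective e
  constructor
  · unfold inv2 W2
    rw [hX, Finset.sum_image hinj]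
    refine Finset.sum_congr rfl fun i hi => ?_
    rw [Finset.sum_image hinj]
    refine Finset.sum_congr rfl fun j hj => ?_
    simp only
    rw [he, he, hs i hi, hs j hj]
  · unfold inv3 W3 w3
    rw [hX, Finset.sum_image hinj]
    refine Finset.sum_congr rfl fun i hi => ?_
    rw [Finset.sum_image hinj]
    refine Finset.sum_congr rfl fun j hj => ?_
    rw [Finset.sum_image hinj]
    refine Finset.sum_congr rfl fun k hk => ?_
    simp only
    rw [he, he, he, hs i hi, hs j hj, hs k hk]

/-! ### First move -/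

lemma r1_inv (i : ℕ) (b : Bool) (w : List Passage) (s : ℕ → ℤˣ)
    (hw : (⟨(i, b) :: (i, !b) :: w, s⟩ : Code).WellFormed) :
    inv2 ⟨w, s⟩ = inv2 ⟨(i, b) :: (i, !b) :: w, s⟩ ∧
    inv3 ⟨w, s⟩ = inv3 ⟨(i, b) :: (i, !b) :: w, s⟩ := by
  set D : Code := ⟨(i, b) :: (i, !b) :: w, s⟩ with hD
  set X := (⟨w, s⟩ : Code).crossings with hX
  have hnd := hw.1
  simp only [hD, List.nodup_cons, List.mem_cons, not_or] at hnd
  obtain ⟨⟨h1, h2⟩, h3, h4⟩ := hnd
  have hiw : ∀ c, (i, c) ∉ w := by
    intro c
    rcases Bool.eq_or_eq_not c b with e | e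
    · rw [e]; exact h2
    · rw [e]; exact h3
  have hiX : i ∉ X := by
    intro h
    obtain ⟨c, hc⟩ := mem_crossings.mp h
    exact hiw c hc
  have hDX : D.crossings = insert i X := by
    rw [hX]
    unfold Code.crossings
    ext y
    simp [hD]
  have hmem : ∀ j ∈ X, ∀ c, (j, c) ∈ w := by
    intro j hj c
    have h5 : j ∈ D.crossings := by rw [hDX]; exact Finset.mem_insert_of_mem hj
    have h6 := wf_mem hw h5 c
    have h7 : j ≠ i := fun e => hiX (e ▸ hj)
    simpa [hD, h7] using h6
  have q1 : ∀ j ∈ X, ∀ c, pos D.word (j, c) = pos w (j, c) + 2 := by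
    intro j hj c
    have h7 : i ≠ j := fun e => hiX (e ▸ hj)
    rw [hD]
    simp only
    rw [pos_cons_ne (by simp [h7]), pos_cons_ne (by simp [h7])]
  have q2 : ∀ c, pos D.word (i, c) < 2 := by
    intro c
    rw [hD]
    simp only
    rcases Bool.eq_or_eq_not c b with e | e
    · rw [e, pos_cons_self]; omega
    · rw [e, pos_cons_ne (by simp), pos_cons_self]; omega
  have e1 : ∀ j ∈ X, ee (pos D.word) i j = 0 := by
    intro j hj
    have h7 : i ≠ j := fun e => hiX (e ▸ hj)
    have h8 : ∀ c, ins (pos D.word) i (j, c) = 0 := by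
      intro c
      unfold ins
      have a1 := q1 j hj c
      have a2 := q2 true
      have a3 := q2 false
      rw [if_pos]; omega
    unfold ee
    rw [h8, h8, if_neg h7]; rfl
  have e2 : ∀ j ∈ X, ee (pos D.word) j i = 0 := by
    intro j hj
    have h7 : i ≠ j := fun e => hiX (e ▸ hj)
    have h8 : ∀ c, ins (pos D.word) j (i, c) = 0 := by
      intro c
      unfold ins
      have a1 := q1 j hj true
      have a2 := q1 j hj false
      have a3 := q2 c
      rw [if_pos]; omega
    unfold ee
    rw [h8, h8, if_neg (Ne.symm h7)]; rfl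
  have e3 : ∀ j ∈ X, ∀ k ∈ X, ee (pos w) j k = ee (pos D.word) j k := by
    intro j hj k hk
    apply ee_congr (Iff.rfl)
    intro _ c d
    rw [q1 j hj c, q1 k hk d]
    omega
  constructor
  · unfold inv2
    rw [hDX, W2_r1 hiX (ee_self _ _) e1 e2, ← hX]
    exact W2_congr e3 fun _ _ => rfl
  · unfold inv3
    rw [hDX, W3_r1 hiX (ee_self _ _) e1 e2, ← hX]
    exact W3_congr e3 fun _ _ => rfl

/-! ### Second move -/

lemma mem_pair {a : Bool} {x y z : Passage} : z ∈ pair a x y ↔ z = x ∨ z = y := by
  unfold pair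
  split_ifs <;> simp [or_comm]

lemma length_pair (a : Bool) (x y : Passage) : (pair a x y).length = 2 := by
  unfold pair
  split_ifs <;> rfl

lemma pos_pair_left {a : Bool} {x y : Passage} (h : x ≠ y) (l : List Passage) :
    pos (pair a x y ++ l) x = if a = true then 0 else 1 := by
  unfold pair
  split_ifs
  · exact pos_cons_self _ _
  · show pos (y :: x :: l) x = 1
    rw [pos_cons_ne (Ne.symm h), pos_cons_self]

lemma pos_pair_right {a : Bool} {x y : Passage} (h : x ≠ y) (l : List Passage) :
    pos (pair a x y ++ l) y = if a = true then 1 else 0 := by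
  unfold pair
  split_ifs
  · show pos (x :: y :: l) y = 1
    rw [pos_cons_ne h, pos_cons_self]
  · exact pos_cons_self _ _

lemma pos_pair_other {a : Bool} {x y z : Passage} (h1 : z ≠ x) (h2 : z ≠ y) (l : List Passage) :
    pos (pair a x y ++ l) z = 2 + pos l z := by
  rw [pos_append_not (by rw [mem_pair]; tauto), length_pair]


lemma r2_inv (i j : ℕ) (a : Bool) (u v : List Passage) (s : ℕ → ℤˣ) (h : s i = - s j)
    (hw : (⟨(i, true) :: (j, true) :: (u ++ pair a (i, false) (j, false) ++ v), s⟩ :
      Code).WellFormed) :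
    inv2 ⟨u ++ v, s⟩
      = inv2 ⟨(i, true) :: (j, true) :: (u ++ pair a (i, false) (j, false) ++ v), s⟩ ∧
    inv3 ⟨u ++ v, s⟩
      = inv3 ⟨(i, true) :: (j, true) :: (u ++ pair a (i, false) (j, false) ++ v), s⟩ := by
  set D : Code := ⟨(i, true) :: (j, true) :: (u ++ pair a (i, false) (j, false) ++ v), s⟩ with hD
  set X := (⟨u ++ v, s⟩ : Code).crossings with hX
  have hnd : ((i, true) :: (j, true) :: (u ++ pair a (i, false) (j, false) ++ v)).Nodup := hw.1
  have hij : i ≠ j := by
    intro e
    rw [e] at hnd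
    simp at hnd
  have hnd2 : (pair a (i, false) (j, false) ++ v).Nodup := by
    have h1 := (List.nodup_cons.mp (List.nodup_cons.mp hnd).2).2
    rw [List.append_assoc] at h1
    exact (List.nodup_append.mp h1).2.1
  have hp : ∀ y ∈ pair a (i, false) (j, false), y ∉ u ∧ y ∉ v := by
    intro y hy
    have h1 := (List.nodup_cons.mp (List.nodup_cons.mp hnd).2).2
    constructor
    · intro hu
      rw [List.append_assoc] at h1
      exact (List.nodup_append.mp h1).2.2 _ hu _ (List.mem_append_left _ hy) rfl
    · intro hv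
      exact (List.nodup_append.mp hnd2).2.2 _ hy _ hv rfl
  have hi1 : (i, true) ∉ u ∧ (i, true) ∉ v := by
    have h1 := (List.nodup_cons.mp hnd).1
    simp only [List.mem_cons, List.mem_append, not_or] at h1
    exact ⟨h1.2.1.1, h1.2.2⟩
  have hj1 : (j, true) ∉ u ∧ (j, true) ∉ v := by
    have h1 := (List.nodup_cons.mp (List.nodup_cons.mp hnd).2).1
    simp only [List.mem_append, not_or] at h1
    exact ⟨h1.1.1, h1.2⟩
  have hi2 := hp (i, false) (by rw [mem_pair]; left; rfl)
  have hj2 := hp (j, false) (by rw [mem_pair]; right; rfl)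
  have huv : ∀ y, y ∈ u ++ v → y.1 ≠ i ∧ y.1 ≠ j := by
    rintro ⟨y, c⟩ hy
    rw [List.mem_append] at hy
    constructor
    · rintro e
      simp only at e
      subst e
      cases c
      · exact hy.elim hi2.1 hi2.2
      · exact hy.elim hi1.1 hi1.2
    · rintro e
      simp only at e
      subst e
      cases c
      · exact hy.elim hj2.1 hj2.2
      · exact hy.elim hj1.1 hj1.2
  have hiX : i ∉ X := by
    intro h
    obtain ⟨c, hc⟩ := mem_crossings.mp h
    exact (huv _ hc).1 rfl
  have hjX : j ∉ X := by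
    intro h
    obtain ⟨c, hc⟩ := mem_crossings.mp h
    exact (huv _ hc).2 rfl
  have hDX : D.crossings = insert i (insert j X) := by
    ext y
    rw [mem_crossings, Finset.mem_insert, Finset.mem_insert, hX, mem_crossings]
    simp only [hD, List.mem_cons, List.mem_append, mem_pair, Prod.mk.injEq]
    constructor
    · rintro ⟨c, hc⟩
      rcases hc with hc | hc | (hc | hc | hc) | hc
      · left; exact hc.1
      · right; left; exact hc.1
      · right; right; exact ⟨c, Or.inl hc⟩
      · left; exact hc.1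
      · right; left; exact hc.1
      · right; right; exact ⟨c, Or.inr hc⟩
    · rintro (e | e | ⟨c, hc | hc⟩)
      · exact ⟨true, Or.inl ⟨e, rfl⟩⟩
      · exact ⟨true, Or.inr (Or.inl ⟨e, rfl⟩)⟩
      · exact ⟨c, Or.inr (Or.inr (Or.inl (Or.inl hc)))⟩
      · exact ⟨c, Or.inr (Or.inr (Or.inr hc))⟩
  have hmem : ∀ k ∈ X, ∀ c, (k, c) ∈ u ++ v := by
    intro k hk c
    have h5 : k ∈ D.crossings := by
      rw [hDX]; exact Finset.mem_insert_of_mem (Finset.mem_insert_of_mem hk)
    have h6 := wf_mem hw h5 c
    have h7 : k ≠ i := fun e => hiX (e ▸ hk)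
    have h8 : k ≠ j := fun e => hjX (e ▸ hk)
    simp only [hD, List.mem_cons, List.mem_append, mem_pair, Prod.mk.injEq, h7, h8, false_and,
      false_or, or_false] at h6
    exact List.mem_append.mpr h6
  have q : ∀ y ∈ u ++ v, (pos (u ++ v) y < u.length ∧ pos D.word y = pos (u ++ v) y + 2) ∨
      (u.length ≤ pos (u ++ v) y ∧ pos D.word y = pos (u ++ v) y + 4) := by
    intro y hy
    obtain ⟨h1, h2⟩ := huv y hy
    have e1 : (i, true) ≠ y := fun e => h1 (e ▸ rfl)
    have e2 : (j, true) ≠ y := fun e => h2 (e ▸ rfl)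
    have e3 : y ≠ (i, false) := fun e => h1 (e ▸ rfl)
    have e4 : y ≠ (j, false) := fun e => h2 (e ▸ rfl)
    rw [hD]
    simp only
    rw [pos_cons_ne e1, pos_cons_ne e2, List.append_assoc]
    by_cases hyu : y ∈ u
    · left
      rw [pos_append_mem hyu, pos_append_mem hyu]
      exact ⟨pos_lt hyu, by omega⟩
    · right
      rw [pos_append_not hyu, pos_append_not hyu, pos_pair_other e3 e4]
      exact ⟨by omega, by omega⟩
  have hijF : ((i, false) : Passage) ≠ (j, false) := by simp [hij]
  have p1 : pos D.word (i, true) = 0 := pos_cons_self _ _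
  have p2 : pos D.word (j, true) = 1 := by
    rw [hD]; simp only
    rw [pos_cons_ne (by simp [hij]), pos_cons_self]
  have p3 : pos D.word (i, false) = u.length + 2 + (if a = true then 0 else 1) := by
    rw [hD]; simp only
    rw [pos_cons_ne (by simp), pos_cons_ne (by simp), List.append_assoc,
      pos_append_not hi2.1, pos_pair_left hijF]
    omega
  have p4 : pos D.word (j, false) = u.length + 2 + (if a = true then 1 else 0) := by
    rw [hD]; simp only
    rw [pos_cons_ne (by simp), pos_cons_ne (by simp), List.append_assoc,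
      pos_append_not hj2.1, pos_pair_right hijF]
    omega
  have g1 : ∀ k ∈ X, ee (pos D.word) i k = ee (pos D.word) j k := by
    intro k hk
    have h7 : i ≠ k := fun e => hiX (e ▸ hk)
    have h8 : j ≠ k := fun e => hjX (e ▸ hk)
    have h9 : ∀ c, ins (pos D.word) i (k, c) = ins (pos D.word) j (k, c) := by
      intro c
      have := q _ (hmem k hk c)
      unfold ins
      rw [p1, p2, p3, p4]
      by_cases h : pos (u ++ v) (k, c) < u.length
      · rw [if_neg, if_neg]
        · cases a <;> simp <;> omega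
        · cases a <;> simp <;> omega
      · rw [if_pos, if_pos]
        · cases a <;> simp <;> omega
        · cases a <;> simp <;> omega
    unfold ee
    rw [h9, h9, if_neg h7, if_neg h8]
  have g2 : ∀ k ∈ X, ee (pos D.word) k i = ee (pos D.word) k j := by
    intro k hk
    have h7 : k ≠ i := fun e => hiX (e ▸ hk)
    have h8 : k ≠ j := fun e => hjX (e ▸ hk)
    have h9 : ∀ c, ins (pos D.word) k (i, c) = ins (pos D.word) k (j, c) := by
      intro c
      have f1 := q _ (hmem k hk true)
      have f2 := q _ (hmem k hk false)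
      unfold ins
      cases c
      · rw [p3, p4]
        by_cases h : (pos D.word (k, true) < u.length + 2 + (if a = true then 0 else 1) ↔
          pos D.word (k, false) < u.length + 2 + (if a = true then 0 else 1))
        · rw [if_pos h, if_pos]
          cases a <;> simp only [if_true, if_false, Bool.false_eq_true] at h ⊢ <;> omega
        · rw [if_neg h, if_neg]
          cases a <;> simp only [if_true, if_false, Bool.false_eq_true] at h ⊢ <;> omega
      · rw [p1, p2, if_pos, if_pos] <;> omega
    unfold ee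
    rw [h9, h9, if_neg h7, if_neg h8]
  have g3 : ∀ k ∈ X, ∀ l ∈ X, ee (pos (u ++ v)) k l = ee (pos D.word) k l := by
    intro k hk l hl
    apply ee_congr (Iff.rfl)
    intro _ c d
    have f1 := q _ (hmem k hk c)
    have f2 := q _ (hmem l hl d)
    omega
  have g4 : ee (pos D.word) j i = - ee (pos D.word) i j := by
    unfold ee ins
    rw [if_neg hij, if_neg (Ne.symm hij), p1, p2, p3, p4]
    cases a
    · simp only [if_false, Bool.false_eq_true]
      rw [if_pos (by omega), if_pos (by omega), if_neg (by omega), if_neg (by omega)]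
      rfl
    · simp only [if_true]
      rw [if_pos (by omega), if_neg (by omega), if_neg (by omega), if_pos (by omega)]
      rfl
  have hsymm : ∀ k ∈ X, ee (pos D.word) k j ^ 2 = ee (pos D.word) j k ^ 2 := by
    intro k hk
    refine (ee_prod (pos D.word) k j (fun hne => sep_of_wf hw ?_ ?_ hne)).2
    · rw [hDX]; exact Finset.mem_insert_of_mem (Finset.mem_insert_of_mem hk)
    · rw [hDX]; exact Finset.mem_insert_of_mem (Finset.mem_insert_self _ _)
  have hsgn : ((s i : ℤˣ) : ℤ) = - ((s j : ℤˣ) : ℤ) := by rw [h]; simp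
  have hsj : ((s j : ℤˣ) : ℤ) = 1 ∨ ((s j : ℤˣ) : ℤ) = -1 := by
    rcases Int.units_eq_one_or (s j) with e | e <;> rw [e] <;> simp
  constructor
  · unfold inv2
    rw [hDX, W2_r2 hiX hjX hij (ee_self _ _) (ee_self _ _) g4 hsgn g1 g2, ← hX]
    exact W2_congr g3 fun _ _ => rfl
  · unfold inv3
    rw [hDX, W3_r2 hiX hjX hij (ee_self _ _) (ee_self _ _) g4 hsgn hsj (ee_val _ _ _) g1 g2
      hsymm (fun _ _ => ee_val _ _ _) (fun _ _ => ee_val _ _ _), ← hX]
    exact W3_congr g3 fun _ _ => rfl

end Pool.Agent.Lib.MP_ae2e71_gt
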