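import Mathlib

set_option linter.unusedSectionVars false

/-!
# Potentials on the regions of a plane curve

A closed curve with `n` crossings cutting a surface into `n + 2` regions: every
conservative edge function is the difference of a function on the regions.
-/

namespace Pool.Agent.Lib.MP_ae2e71_gt

open Finset

/-- A function on `Fin m` which is invariant under `t ↦ t + 1` is constant. -/
lemma const_of_succ {m : ℕ} [NeZero m] {α : Type} (f : Fin m → α) (h : ∀ t, f (t + 1) = f t) :
    ∀ t, f t = f 0 := by
  have hk : ∀ k : ℕ, f (Fin.ofNat m k) = f 0 := by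
    intro k
    induction k with
    | zero => congr 1
    | succ k ih =>
      rw [← ih, ← h (Fin.ofNat m k)]
      congr 1
      apply Fin.ext
      simp [Fin.val_add, Fin.ofNat]
  intro t
  have := hk t.val
  have h2 : Fin.ofNat m t.val = t := by
    apply Fin.ext
    simp [Fin.ofNat, Nat.mod_eq_of_lt t.isLt]
  rwa [h2] at this

/-- The relations between the regions at a crossing. -/
def CrossRel {κ : Type} {m : ℕ} [NeZero m] (L R : Fin m → κ) (o u : Fin m) (pos : Prop) : Prop :=
  (pos → L o = L (u + 1) ∧ R o = L u ∧ L (o + 1) = R (u + 1) ∧ R (o + 1) = R u) ∧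
  (¬ pos → L u = L (o + 1) ∧ R u = L o ∧ L (u + 1) = R (o + 1) ∧ R (u + 1) = R o)

theorem potential {ι κ : Type} [Fintype ι] [Fintype κ] [DecidableEq κ] {m : ℕ} [NeZero m]
    (o u : ι → Fin m) (pos : ι → Prop) (hou : ∀ t, ∃ i, t = o i ∨ t = u i) (L R : Fin m → κ)
    (hκ : Fintype.card ι + 2 ≤ Fintype.card κ) (hsurj : ∀ r, ∃ t, L t = r ∨ R t = r)
    (hcross : ∀ i, CrossRel L R (o i) (u i) (pos i))
    (z : Fin m → ℚ) (hz : ∀ i, z (o i) + z (u i) = z (o i + 1) + z (u i + 1)) :
    ∃ g : κ → ℚ, ∀ t, g (L t) - g (R t) = z t := by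
  -- the coboundary
  let δ : (κ → ℚ) →ₗ[ℚ] (Fin m → ℚ) :=
    { toFun := fun g t => g (L t) - g (R t)
      map_add' := by intro a b; funext t; simp only [Pi.add_apply]; ring
      map_smul' := by intro c a; funext t; simp only [Pi.smul_apply, smul_eq_mul, RingHom.id_apply]; ring }
  -- the conservative functions
  let Z : Submodule ℚ (Fin m → ℚ) :=
    { carrier := {z | ∀ i, z (o i) + z (u i) = z (o i + 1) + z (u i + 1)}
      add_mem' := by
        intro a b ha hb i
        have h1 := ha i
        have h2 := hb i
        simp only [Pi.add_apply]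
        linarith
      zero_mem' := by intro i; simp
      smul_mem' := by
        intro c a ha i
        have h1 := ha i
        simp only [Pi.smul_apply, smul_eq_mul]
        rw [← mul_add, ← mul_add, h1] }
  have hδZ : LinearMap.range δ ≤ Z := by
    rintro _ ⟨g, rfl⟩ i
    change g (L (o i)) - g (R (o i)) + (g (L (u i)) - g (R (u i)))
      = g (L (o i + 1)) - g (R (o i + 1)) + (g (L (u i + 1)) - g (R (u i + 1)))
    by_cases hp : pos i
    · obtain ⟨h1, h2, h3, h4⟩ := (hcross i).1 hp
      rw [h1, h2, h3, h4]; ring
    · obtain ⟨h1, h2, h3, h4⟩ := (hcross i).2 hp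
      rw [h1, h2, h3, h4]; ring
  have hker : LinearMap.ker δ ≤ Submodule.span ℚ {fun _ => (1 : ℚ)} := by
    intro g hg
    have hg' : ∀ t, g (L t) = g (R t) := by
      intro t
      have h1 : δ g t = 0 := by rw [LinearMap.mem_ker.mp hg]; rfl
      have h2 : g (L t) - g (R t) = 0 := h1
      linarith
    have hstep : ∀ t, g (L (t + 1)) = g (L t) := by
      intro t
      obtain ⟨i, hi⟩ := hou t
      by_cases hp : pos i
      · obtain ⟨h1, h2, h3, h4⟩ := (hcross i).1 hp
        have e1 := hg' (o i)
        have e2 := hg' (u i)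
        have e3 := hg' (o i + 1)
        have e4 := hg' (u i + 1)
        rw [h1, h2] at e1
        rw [h3, h4] at e3
        rcases hi with rfl | rfl
        · rw [h1, h3]; linarith
        · linarith
      · obtain ⟨h1, h2, h3, h4⟩ := (hcross i).2 hp
        have e1 := hg' (o i)
        have e2 := hg' (u i)
        have e3 := hg' (o i + 1)
        have e4 := hg' (u i + 1)
        rw [h1, h2] at e2
        rw [h3, h4] at e4
        rcases hi with rfl | rfl
        · linarith
        · rw [h1, h3]; linarith
    have hc := const_of_succ (fun t => g (L t)) hstep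
    rw [Submodule.mem_span_singleton]
    refine ⟨g (L 0), ?_⟩
    funext r
    simp only [Pi.smul_apply, smul_eq_mul, mul_one]
    obtain ⟨t, ht | ht⟩ := hsurj r
    · rw [← ht]; exact (hc t).symm
    · rw [← ht, ← hg' t]; exact (hc t).symm
  -- the dimension of Z
  let Θ : Z →ₗ[ℚ] ((ι → ℚ) × ℚ) :=
    { toFun := fun z => (fun i => z.1 (o i + 1) - z.1 (o i), z.1 0)
      map_add' := by
        intro a b
        refine Prod.ext ?_ rfl
        funext i
        simp only [Submodule.coe_add, Pi.add_apply, Prod.fst_add]
        ring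
      map_smul' := by
        intro c a
        refine Prod.ext ?_ rfl
        funext i
        simp only [Submodule.coe_smul, Pi.smul_apply, smul_eq_mul, Prod.smul_fst, RingHom.id_apply]
        ring }
  have hΘ : Function.Injective Θ := by
    rw [injective_iff_map_eq_zero]
    intro z hz0
    have h1 : ∀ i, z.1 (o i + 1) - z.1 (o i) = 0 := fun i => congrFun (congrArg Prod.fst hz0) i
    have h2 : z.1 0 = 0 := congrArg Prod.snd hz0
    have h3 : ∀ t, z.1 (t + 1) = z.1 t := by
      intro t
      obtain ⟨i, rfl | rfl⟩ := hou t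
      · linarith [h1 i]
      · have := z.2 i
        linarith [h1 i]
    have h4 := const_of_succ z.1 h3
    apply Subtype.ext
    funext t
    rw [h4 t, h2]; rfl
  have hZdim : Module.finrank ℚ Z ≤ Fintype.card ι + 1 := by
    have := LinearMap.finrank_le_finrank_of_injective hΘ
    simpa [Module.finrank_prod] using this
  have hkerdim : Module.finrank ℚ (LinearMap.ker δ) ≤ 1 := by
    refine le_trans (Submodule.finrank_mono hker) ?_
    refine le_trans (finrank_span_le_card _) ?_
    simp
  have hrank := LinearMap.finrank_range_add_finrank_ker δ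
  rw [Module.finrank_fintype_fun_eq_card] at hrank
  have hrange : LinearMap.range δ = Z :=
    Submodule.eq_of_le_of_finrank_le hδZ (by omega)
  have hzmem : z ∈ LinearMap.range δ := by rw [hrange]; exact hz
  obtain ⟨g, hg⟩ := hzmem
  exact ⟨g, fun t => congrFun hg t⟩

end Pool.Agent.Lib.MP_ae2e71_gt
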