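import Pool.Agent.Lib.MP_ae2e71_gt.CodePlane

set_option linter.unusedVariables false
set_option linter.unusedSimpArgs false

namespace Pool.Agent.Lib.MP_ae2e71_gt

open Finset Pool.Agent.KnotCode

/-- The quadratic invariant. -/
def inv2 (D : Code) : ℤ := W2 D.crossings (ee (pos D.word)) (fun i => (D.sign i : ℤ))

/-- The cubic invariant. -/
def inv3 (D : Code) : ℤ := W3 D.crossings (ee (pos D.word)) (fun i => (D.sign i : ℤ))

lemma pos_cons_self (x : Passage) (w : List Passage) : pos (x :: w) x = 0 := by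
  simp [pos]

lemma pos_cons_ne {x y : Passage} (h : x ≠ y) (w : List Passage) :
    pos (x :: w) y = pos w y + 1 := by
  unfold pos
  exact List.idxOf_cons_ne _ h

lemma pos_append_mem {l₁ l₂ : List Passage} {x : Passage} (h : x ∈ l₁) :
    pos (l₁ ++ l₂) x = pos l₁ x := List.idxOf_append_of_mem h

lemma pos_append_not {l₁ l₂ : List Passage} {x : Passage} (h : x ∉ l₁) :
    pos (l₁ ++ l₂) x = l₁.length + pos l₂ x := List.idxOf_append_of_notMem h

lemma pos_lt {l : List Passage} {x : Passage} (h : x ∈ l) : pos l x < l.length :=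
  List.idxOf_lt_length_of_mem h

/-! ### Change of base point -/

lemma W3_flip {X : Finset ℕ} {e e' : ℕ → ℕ → ℤ} {s : ℕ → ℤ} {i0 : ℕ}
    (h1 : ∀ i ∈ X, ∀ j ∈ X, i ≠ i0 → e' i j = e i j) (h2 : ∀ j ∈ X, e' i0 j = - e i0 j) :
    W3 X e' s = W3 X e s := by
  unfold W3
  refine Finset.sum_congr rfl fun i hi => Finset.sum_congr rfl fun j hj =>
    Finset.sum_congr rfl fun k hk => ?_
  unfold w3
  have h3 : e' j k ^ 2 = e j k ^ 2 := by
    by_cases h : j = i0
    · rw [h, h2 k hk]; ring
    · rw [h1 j hj k hk h]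
  rw [h3]
  by_cases h : i = i0
  · rw [h, h2 j hj, h2 k hk]; ring
  · rw [h1 i hi j hj h, h1 i hi k hk h]

lemma W2_flip {X : Finset ℕ} {e e' : ℕ → ℕ → ℤ} {s : ℕ → ℤ} {i0 : ℕ} (hi0 : i0 ∈ X)
    (h1 : ∀ i ∈ X, ∀ j ∈ X, i ≠ i0 → e' i j = e i j) (h2 : ∀ j ∈ X, e' i0 j = - e i0 j)
    (h0 : e i0 i0 = 0) (h3 : ∑ j ∈ X, s j * (e i0 j * e j i0) = 0) :
    W2 X e' s = W2 X e s := by
  have hX : X = {i0} ∪ X.erase i0 := by
    ext x
    simp only [Finset.mem_union, Finset.mem_singleton, Finset.mem_erase]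
    constructor
    · intro hx
      by_cases h : x = i0
      · left; exact h
      · right; exact ⟨h, hx⟩
    · rintro (h | h)
      · rw [h]; exact hi0
      · exact h.2
  have hd : Disjoint {i0} (X.erase i0) := by
    rw [Finset.disjoint_singleton_left]; simp
  have h4 : ∑ j ∈ X.erase i0, s j * (e i0 j * e j i0) = 0 := by
    have := Finset.sum_erase_add X (fun j => s j * (e i0 j * e j i0)) hi0
    rw [h3, h0] at this
    simpa using this
  unfold W2
  rw [hX, sum2_union _ _ hd, sum2_union _ _ hd]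
  have a1 : ∑ a ∈ X.erase i0, ∑ b ∈ X.erase i0, s a * s b * (e' a b * (e' a b + e' b a))
      = ∑ a ∈ X.erase i0, ∑ b ∈ X.erase i0, s a * s b * (e a b * (e a b + e b a)) := by
    refine Finset.sum_congr rfl fun a ha => Finset.sum_congr rfl fun b hb => ?_
    have ha' := Finset.mem_of_mem_erase ha
    have hb' := Finset.mem_of_mem_erase hb
    rw [h1 a ha' b hb' (Finset.ne_of_mem_erase ha), h1 b hb' a ha' (Finset.ne_of_mem_erase hb)]
  have a2 : ∑ b ∈ X.erase i0, ∑ p ∈ ({i0} : Finset ℕ), (s p * s b * (e' p b * (e' p b + e' b p))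
      + s b * s p * (e' b p * (e' b p + e' p b)))
      = ∑ b ∈ X.erase i0, ∑ p ∈ ({i0} : Finset ℕ), (s p * s b * (e p b * (e p b + e b p))
      + s b * s p * (e b p * (e b p + e p b))) + -4 * s i0 * ∑ j ∈ X.erase i0,
        s j * (e i0 j * e j i0) := by
    rw [Finset.mul_sum, ← Finset.sum_add_distrib]
    refine Finset.sum_congr rfl fun b hb => ?_
    have hb' := Finset.mem_of_mem_erase hb
    rw [Finset.sum_singleton, Finset.sum_singleton, h2 b hb',
      h1 b hb' i0 hi0 (Finset.ne_of_mem_erase hb)]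
    ring
  have a3 : ∑ p ∈ ({i0} : Finset ℕ), ∑ q ∈ ({i0} : Finset ℕ), s p * s q *
      (e' p q * (e' p q + e' q p)) = ∑ p ∈ ({i0} : Finset ℕ), ∑ q ∈ ({i0} : Finset ℕ),
      s p * s q * (e p q * (e p q + e q p)) := by
    simp only [Finset.sum_singleton]
    rw [h2 i0 hi0, h0]; ring
  rw [a1, a2, a3, h4]
  ring

lemma rotate_inv (x : Passage) (w : List Passage) (s : ℕ → ℤˣ)
    (hw : (⟨x :: w, s⟩ : Code).WellFormed) (hp : (⟨x :: w, s⟩ : Code).Planar) :
    inv2 ⟨w ++ [x], s⟩ = inv2 ⟨x :: w, s⟩ ∧ inv3 ⟨w ++ [x], s⟩ = inv3 ⟨x :: w, s⟩ := by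
  obtain ⟨i0, b0⟩ := x
  set D : Code := ⟨(i0, b0) :: w, s⟩ with hD
  have hX : (⟨w ++ [(i0, b0)], s⟩ : Code).crossings = D.crossings := by
    unfold Code.crossings
    ext y
    simp [hD, or_comm]
  have hnd : ((i0, b0) :: w).Nodup := hw.1
  have hxw : (i0, b0) ∉ w := (List.nodup_cons.mp hnd).1
  have hi0 : i0 ∈ D.crossings := mem_crossings.mpr ⟨b0, by simp [hD]⟩
  have hmem : ∀ i ∈ D.crossings, ∀ b, (i, b) ≠ (i0, b0) → (i, b) ∈ w := by
    intro i hi b hb
    have := wf_mem hw hi b
    rw [hD] at this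
    simp only [List.mem_cons] at this
    exact this.resolve_left hb
  have q1 : ∀ y, y ≠ (i0, b0) → pos D.word y = pos w y + 1 := by
    intro y hy
    exact pos_cons_ne (Ne.symm hy) w
  have q2 : pos D.word (i0, b0) = 0 := pos_cons_self _ _
  have q3 : ∀ y ∈ w, pos (w ++ [(i0, b0)]) y = pos w y := fun y hy => pos_append_mem hy
  have q4 : pos (w ++ [(i0, b0)]) (i0, b0) = w.length := by
    rw [pos_append_not hxw, pos_cons_self]; rfl
  have q5 : ∀ y ∈ w, pos w y < w.length := fun y hy => pos_lt hy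
  -- rows other than `i0`
  have r1 : ∀ i ∈ D.crossings, ∀ j ∈ D.crossings, i ≠ i0 →
      ee (pos (w ++ [(i0, b0)])) i j = ee (pos D.word) i j := by
    intro i hi j hj hi0'
    have hiw : ∀ b, (i, b) ∈ w := fun b => hmem i hi b (by simp [hi0'])
    have key : ∀ y, y ∈ w ∨ y = (i0, b0) →
        ins (pos (w ++ [(i0, b0)])) i y = ins (pos D.word) i y := by
      intro y hy
      unfold ins
      rw [q3 _ (hiw true), q3 _ (hiw false), q1 (i, true) (by simp [hi0']),
        q1 (i, false) (by simp [hi0'])]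
      by_cases hy' : y = (i0, b0)
      · rw [hy', q4, q2]
        have h1 := q5 _ (hiw true)
        have h2 := q5 _ (hiw false)
        rw [if_pos (by constructor <;> intro _ <;> omega),
          if_pos (by constructor <;> intro _ <;> omega)]
      · have hyw : y ∈ w := hy.resolve_right hy'
        rw [q3 _ hyw, q1 _ hy']
        simp only [Nat.add_lt_add_iff_right]
    have hy : ∀ b, (j, b) ∈ w ∨ (j, b) = (i0, b0) := by
      intro b
      by_cases h : (j, b) = (i0, b0)
      · right; exact h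
      · left; exact hmem j hj b h
    unfold ee
    rw [key _ (hy _), key _ (hy _)]
  have r2 : ∀ j ∈ D.crossings, ee (pos (w ++ [(i0, b0)])) i0 j = - ee (pos D.word) i0 j := by
    intro j hj
    by_cases hij : i0 = j
    · rw [hij, ee_self, ee_self]; rfl
    have hjw : ∀ b, (j, b) ∈ w := fun b => hmem j hj b (by simp [Ne.symm hij])
    have hoth : (i0, !b0) ∈ w := hmem i0 hi0 _ (by simp)
    have hsep := fun b => pos_ne (D := D) (wf_mem hw hi0 (!b0)) (y := (j, b)) (by simp [hij])
    have key : ∀ y ∈ w, pos D.word (i0, !b0) ≠ pos D.word y →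
        ins (pos (w ++ [(i0, b0)])) i0 y = 1 - ins (pos D.word) i0 y := by
      intro y hy hne
      have hy0 : y ≠ (i0, b0) := fun e => hxw (e ▸ hy)
      have e1 := q1 y hy0
      have e2 := q1 (i0, !b0) (by simp)
      have e3 := q3 y hy
      have e4 := q3 _ hoth
      have e5 := q5 y hy
      unfold ins
      cases b0
      · rw [q4, q2]
        simp only [Bool.not_false] at *
        rw [e1, e2, e3, e4]
        by_cases h : pos w (i0, true) < pos w y
        · rw [if_neg (by omega), if_pos (by constructor <;> intro _ <;> omega)]; rfl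
        · rw [if_pos (by constructor <;> intro _ <;> omega), if_neg (by omega)]; rfl
      · rw [q4, q2]
        simp only [Bool.not_true] at *
        rw [e1, e2, e3, e4]
        by_cases h : pos w (i0, false) < pos w y
        · rw [if_neg (by omega), if_pos (by constructor <;> intro _ <;> omega)]; rfl
        · rw [if_pos (by constructor <;> intro _ <;> omega), if_neg (by omega)]; rfl
    unfold ee
    rw [if_neg hij, if_neg hij, key _ (hjw true) (hsep true), key _ (hjw false) (hsep false)]
    ring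
  have r3 : ∑ j ∈ D.crossings, (s j : ℤ) * (ee (pos D.word) i0 j * ee (pos D.word) j i0) = 0 := by
    have h1 := code_P1 D hw hp i0 hi0
    have h2 : ∀ j ∈ D.crossings, (s j : ℤ) * (ee (pos D.word) i0 j * ee (pos D.word) j i0)
        = (if b0 = true then -1 else 1) * ((s j : ℤ) * ee (pos D.word) i0 j) := by
      intro j hj
      by_cases hij : i0 = j
      · rw [hij, ee_self]; ring
      have hsq := (ee_prod (pos D.word) i0 j (fun h => sep_of_wf hw hi0 hj h)).2
      have h3 : ee (pos D.word) j i0 = (if b0 = true then -1 else 1) *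
          ins (pos D.word) j (i0, !b0) := by
        have h4 : ins (pos D.word) j (i0, b0) = 0 := by
          unfold ins
          rw [q2, if_pos]; constructor <;> intro _ <;> omega
        unfold ee
        rw [if_neg (Ne.symm hij)]
        cases b0
        · rw [h4]; simp
        · rw [h4]; simp
      rw [h3] at hsq ⊢
      rcases ee_val (pos D.word) i0 j with h4 | h4 | h4 <;>
        rcases ins_cases (pos D.word) j (i0, !b0) with h5 | h5 <;> rw [h4, h5] at hsq <;>
        rw [h4, h5] <;> cases b0 <;> simp at hsq ⊢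
    rw [Finset.sum_congr rfl h2, ← Finset.mul_sum]
    have h3 : ∑ j ∈ D.crossings, (s j : ℤ) * ee (pos D.word) i0 j = 0 := h1
    rw [h3, mul_zero]
  constructor
  · unfold inv2
    rw [hX]
    exact W2_flip hi0 r1 r2 (ee_self _ _) r3
  · unfold inv3
    rw [hX]
    exact W3_flip r1 r2

end Pool.Agent.Lib.MP_ae2e71_gt
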