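import Mathlib

/-!
# The two Gauss diagram sums and how they change under local modifications
-/

namespace Pool.Agent.Lib.MP_ae2e71_gt

open Finset

/-- The quadratic Gauss diagram sum. -/
def W2 (X : Finset ℕ) (e : ℕ → ℕ → ℤ) (s : ℕ → ℤ) : ℤ :=
  ∑ i ∈ X, ∑ j ∈ X, s i * s j * (e i j * (e i j + e j i))

/-- The summand of the cubic Gauss diagram sum. -/
def w3 (e : ℕ → ℕ → ℤ) (s : ℕ → ℤ) (i j k : ℕ) : ℤ :=
  s i * s j * s k * (e i j ^ 2 * e i k ^ 2 * (3 - e j k ^ 2 * (1 + 3 * (e i j * e i k))))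

/-- The cubic Gauss diagram sum. -/
def W3 (X : Finset ℕ) (e : ℕ → ℕ → ℤ) (s : ℕ → ℤ) : ℤ :=
  ∑ i ∈ X, ∑ j ∈ X, ∑ k ∈ X, w3 e s i j k

lemma W2_congr {X : Finset ℕ} {e e' : ℕ → ℕ → ℤ} {s s' : ℕ → ℤ}
    (he : ∀ i ∈ X, ∀ j ∈ X, e i j = e' i j) (hs : ∀ i ∈ X, s i = s' i) :
    W2 X e s = W2 X e' s' := by
  unfold W2
  refine Finset.sum_congr rfl fun i hi => Finset.sum_congr rfl fun j hj => ?_
  rw [he i hi j hj, he j hj i hi, hs i hi, hs j hj]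

lemma W3_congr {X : Finset ℕ} {e e' : ℕ → ℕ → ℤ} {s s' : ℕ → ℤ}
    (he : ∀ i ∈ X, ∀ j ∈ X, e i j = e' i j) (hs : ∀ i ∈ X, s i = s' i) :
    W3 X e s = W3 X e' s' := by
  unfold W3 w3
  refine Finset.sum_congr rfl fun i hi => Finset.sum_congr rfl fun j hj =>
    Finset.sum_congr rfl fun k hk => ?_
  rw [he i hi j hj, he i hi k hk, he j hj k hk, hs i hi, hs j hj, hs k hk]

lemma sum2_union (Y X : Finset ℕ) (h : Disjoint Y X) (f : ℕ → ℕ → ℤ) :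
    ∑ a ∈ Y ∪ X, ∑ b ∈ Y ∪ X, f a b = ∑ a ∈ X, ∑ b ∈ X, f a b
      + ∑ b ∈ X, ∑ p ∈ Y, (f p b + f b p) + ∑ p ∈ Y, ∑ q ∈ Y, f p q := by
  simp only [Finset.sum_union h, Finset.sum_add_distrib]
  have h1 : ∑ p ∈ Y, ∑ b ∈ X, f p b = ∑ b ∈ X, ∑ p ∈ Y, f p b := Finset.sum_comm
  rw [h1]; ring

lemma sum3_union (Y X : Finset ℕ) (h : Disjoint Y X) (f : ℕ → ℕ → ℕ → ℤ) :
    ∑ a ∈ Y ∪ X, ∑ b ∈ Y ∪ X, ∑ c ∈ Y ∪ X, f a b c =
      ∑ a ∈ X, ∑ b ∈ X, ∑ c ∈ X, f a b c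
      + ∑ b ∈ X, ∑ c ∈ X, ∑ p ∈ Y, (f p b c + f b p c + f b c p)
      + ∑ c ∈ X, ∑ p ∈ Y, ∑ q ∈ Y, (f p q c + f p c q + f c p q)
      + ∑ p ∈ Y, ∑ q ∈ Y, ∑ r ∈ Y, f p q r := by
  simp only [Finset.sum_union h, Finset.sum_add_distrib]
  have h1 : ∑ p ∈ Y, ∑ b ∈ X, ∑ c ∈ X, f p b c = ∑ b ∈ X, ∑ c ∈ X, ∑ p ∈ Y, f p b c := by
    rw [Finset.sum_comm]
    exact Finset.sum_congr rfl fun b _ => Finset.sum_comm
  have h2 : ∑ b ∈ X, ∑ p ∈ Y, ∑ c ∈ X, f b p c = ∑ b ∈ X, ∑ c ∈ X, ∑ p ∈ Y, f b p c :=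
    Finset.sum_congr rfl fun b _ => Finset.sum_comm
  have h3 : ∑ p ∈ Y, ∑ q ∈ Y, ∑ c ∈ X, f p q c = ∑ c ∈ X, ∑ p ∈ Y, ∑ q ∈ Y, f p q c := by
    have : ∀ p ∈ Y, ∑ q ∈ Y, ∑ c ∈ X, f p q c = ∑ c ∈ X, ∑ q ∈ Y, f p q c :=
      fun p _ => Finset.sum_comm
    rw [Finset.sum_congr rfl this, Finset.sum_comm]
  have h4 : ∑ p ∈ Y, ∑ c ∈ X, ∑ q ∈ Y, f p c q = ∑ c ∈ X, ∑ p ∈ Y, ∑ q ∈ Y, f p c q :=
    Finset.sum_comm
  rw [h1, h2, h3, h4]; ring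

/-! ### First move -/

lemma W2_r1 {X : Finset ℕ} {i : ℕ} (hi : i ∉ X) {e : ℕ → ℕ → ℤ} {s : ℕ → ℤ}
    (hii : e i i = 0) (h1 : ∀ j ∈ X, e i j = 0) (h2 : ∀ j ∈ X, e j i = 0) :
    W2 (insert i X) e s = W2 X e s := by
  have hd : Disjoint {i} X := by rw [Finset.disjoint_singleton_left]; exact hi
  unfold W2
  rw [Finset.insert_eq, sum2_union _ _ hd]
  have e1 : ∑ b ∈ X, ∑ p ∈ ({i} : Finset ℕ), (s p * s b * (e p b * (e p b + e b p))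
      + s b * s p * (e b p * (e b p + e p b))) = 0 := by
    refine Finset.sum_eq_zero fun b hb => ?_
    rw [Finset.sum_singleton, h1 b hb, h2 b hb]; ring
  rw [e1]
  simp [hii]

lemma W3_r1 {X : Finset ℕ} {i : ℕ} (hi : i ∉ X) {e : ℕ → ℕ → ℤ} {s : ℕ → ℤ}
    (hii : e i i = 0) (h1 : ∀ j ∈ X, e i j = 0) (h2 : ∀ j ∈ X, e j i = 0) :
    W3 (insert i X) e s = W3 X e s := by
  have hd : Disjoint {i} X := by rw [Finset.disjoint_singleton_left]; exact hi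
  unfold W3
  rw [Finset.insert_eq, sum3_union _ _ hd]
  have e1 : ∑ b ∈ X, ∑ c ∈ X, ∑ p ∈ ({i} : Finset ℕ),
      (w3 e s p b c + w3 e s b p c + w3 e s b c p) = 0 := by
    refine Finset.sum_eq_zero fun b hb => Finset.sum_eq_zero fun c hc => ?_
    rw [Finset.sum_singleton]
    unfold w3
    rw [h1 b hb, h1 c hc, h2 b hb]
    ring
  have e2 : ∑ c ∈ X, ∑ p ∈ ({i} : Finset ℕ), ∑ q ∈ ({i} : Finset ℕ),
      (w3 e s p q c + w3 e s p c q + w3 e s c p q) = 0 := by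
    refine Finset.sum_eq_zero fun c hc => ?_
    rw [Finset.sum_singleton, Finset.sum_singleton]
    unfold w3
    rw [h1 c hc, h2 c hc]
    ring
  rw [e1, e2]
  simp [w3, hii]

/-! ### Second move -/

lemma W2_r2 {X : Finset ℕ} {i j : ℕ} (hi : i ∉ X) (hj : j ∉ X) (hij : i ≠ j)
    {e : ℕ → ℕ → ℤ} {s : ℕ → ℤ} (hii : e i i = 0) (hjj : e j j = 0) (hanti : e j i = - e i j)
    (hs : s i = - s j) (h1 : ∀ c ∈ X, e i c = e j c) (h2 : ∀ c ∈ X, e c i = e c j) :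
    W2 (insert i (insert j X)) e s = W2 X e s := by
  have hd : Disjoint {i, j} X := by
    rw [Finset.disjoint_insert_left, Finset.disjoint_singleton_left]; exact ⟨hi, hj⟩
  have hu : insert i (insert j X) = {i, j} ∪ X := by
    ext x; simp
  unfold W2
  rw [hu, sum2_union _ _ hd]
  have e1 : ∑ b ∈ X, ∑ p ∈ ({i, j} : Finset ℕ), (s p * s b * (e p b * (e p b + e b p))
      + s b * s p * (e b p * (e b p + e p b))) = 0 := by
    refine Finset.sum_eq_zero fun b hb => ?_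
    rw [Finset.sum_pair hij, h1 b hb, h2 b hb, hs]; ring
  rw [e1]
  have e2 : ∑ p ∈ ({i, j} : Finset ℕ), ∑ q ∈ ({i, j} : Finset ℕ),
      s p * s q * (e p q * (e p q + e q p)) = 0 := by
    rw [Finset.sum_pair hij, Finset.sum_pair hij, Finset.sum_pair hij, hii, hjj, hanti]; ring
  rw [e2]; ring

lemma W3_r2 {X : Finset ℕ} {i j : ℕ} (hi : i ∉ X) (hj : j ∉ X) (hij : i ≠ j)
    {e : ℕ → ℕ → ℤ} {s : ℕ → ℤ} (hii : e i i = 0) (hjj : e j j = 0) (hanti : e j i = - e i j)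
    (hs : s i = - s j) (hsj : s j = 1 ∨ s j = -1)
    (hval : e i j = 0 ∨ e i j = 1 ∨ e i j = -1)
    (h1 : ∀ c ∈ X, e i c = e j c) (h2 : ∀ c ∈ X, e c i = e c j)
    (h3 : ∀ c ∈ X, e c j ^ 2 = e j c ^ 2)
    (h4 : ∀ c ∈ X, e c j = 0 ∨ e c j = 1 ∨ e c j = -1)
    (h5 : ∀ c ∈ X, e j c = 0 ∨ e j c = 1 ∨ e j c = -1) :
    W3 (insert i (insert j X)) e s = W3 X e s := by
  have hd : Disjoint {i, j} X := by
    rw [Finset.disjoint_insert_left, Finset.disjoint_singleton_left]; exact ⟨hi, hj⟩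
  have hu : insert i (insert j X) = {i, j} ∪ X := by
    ext x; simp
  unfold W3
  rw [hu, sum3_union _ _ hd]
  have e1 : ∑ b ∈ X, ∑ c ∈ X, ∑ p ∈ ({i, j} : Finset ℕ),
      (w3 e s p b c + w3 e s b p c + w3 e s b c p) = 0 := by
    refine Finset.sum_eq_zero fun b hb => Finset.sum_eq_zero fun c hc => ?_
    rw [Finset.sum_pair hij]
    unfold w3
    rw [h1 b hb, h1 c hc, h2 b hb, h2 c hc, hs]
    ring
  have e2 : ∑ c ∈ X, ∑ p ∈ ({i, j} : Finset ℕ), ∑ q ∈ ({i, j} : Finset ℕ),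
      (w3 e s p q c + w3 e s p c q + w3 e s c p q) = 0 := by
    refine Finset.sum_eq_zero fun c hc => ?_
    rw [Finset.sum_pair hij, Finset.sum_pair hij, Finset.sum_pair hij]
    unfold w3
    rw [h1 c hc, h2 c hc, hs, hii, hjj, hanti]
    have h3' := h3 c hc
    rcases h4 c hc with h | h | h <;> rcases h5 c hc with h' | h' | h' <;>
      rw [h, h'] at h3' <;> (try norm_num at h3') <;> rw [h, h'] <;>
      rcases hval with h'' | h'' | h'' <;> rw [h''] <;>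
      rcases hsj with h6 | h6 <;> rw [h6] <;> ring
  have e3 : ∑ p ∈ ({i, j} : Finset ℕ), ∑ q ∈ ({i, j} : Finset ℕ), ∑ r ∈ ({i, j} : Finset ℕ),
      w3 e s p q r = 0 := by
    simp only [Finset.sum_pair hij]
    unfold w3
    rw [hs, hii, hjj, hanti]
    ring
  rw [e1, e2, e3]; ring

end Pool.Agent.Lib.MP_ae2e71_gt
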