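import Pool.Agent.Lib.MP_ae2e71_gt.Sums

namespace Pool.Agent.Lib.MP_ae2e71_gt

open Finset

/-! ### Third move -/

/-- `1` for true and `0` for false. -/
def bi (t : Bool) : ℤ := if t = true then 1 else 0

/-- `1` for true and `-1` for false. -/
def pm (t : Bool) : ℤ := if t = true then 1 else -1

/-- The three possible values. -/
def tern (t : Fin 3) : ℤ := if t = 0 then 0 else if t = 1 then 1 else -1

lemma exists_tern {x : ℤ} (h : x = 0 ∨ x = 1 ∨ x = -1) : ∃ t, x = tern t := by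
  rcases h with h | h | h
  · exact ⟨0, by rw [h]; rfl⟩
  · exact ⟨1, by rw [h]; rfl⟩
  · exact ⟨2, by rw [h]; rfl⟩

lemma exists_pm {x : ℤ} (h : x = 1 ∨ x = -1) : ∃ t, x = pm t := by
  rcases h with h | h
  · exact ⟨true, by rw [h]; rfl⟩
  · exact ⟨false, by rw [h]; rfl⟩

/-- The part of the cubic sum coming from two fixed crossings and a third one. -/
def T3 (sp sq sc pq qp pc cp qc cq : ℤ) : ℤ :=
  sp * sq * sc * (pq ^ 2 * pc ^ 2 * (3 - qc ^ 2 * (1 + 3 * (pq * pc)))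
    + pc ^ 2 * pq ^ 2 * (3 - cq ^ 2 * (1 + 3 * (pc * pq)))
    + cp ^ 2 * cq ^ 2 * (3 - pq ^ 2 * (1 + 3 * (cp * cq)))
    + qp ^ 2 * qc ^ 2 * (3 - pc ^ 2 * (1 + 3 * (qp * qc)))
    + qc ^ 2 * qp ^ 2 * (3 - cp ^ 2 * (1 + 3 * (qc * qp)))
    + cq ^ 2 * cp ^ 2 * (3 - qp ^ 2 * (1 + 3 * (cq * cp))))

/-- The part of the cubic sum coming from three fixed crossings. -/
def L3 (si sj sk ij ji ik ki jk kj : ℤ) : ℤ :=
  3 * (si * (sj ^ 2 * ij ^ 4 + sk ^ 2 * ik ^ 4) + sj * (si ^ 2 * ji ^ 4 + sk ^ 2 * jk ^ 4)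
    + sk * (si ^ 2 * ki ^ 4 + sj ^ 2 * kj ^ 4))
  + si * sj * sk * (ij ^ 2 * ik ^ 2 * (3 - jk ^ 2 * (1 + 3 * (ij * ik)))
    + ik ^ 2 * ij ^ 2 * (3 - kj ^ 2 * (1 + 3 * (ik * ij)))
    + ji ^ 2 * jk ^ 2 * (3 - ik ^ 2 * (1 + 3 * (ji * jk)))
    + jk ^ 2 * ji ^ 2 * (3 - ki ^ 2 * (1 + 3 * (jk * ji)))
    + ki ^ 2 * kj ^ 2 * (3 - ij ^ 2 * (1 + 3 * (ki * kj)))
    + kj ^ 2 * ki ^ 2 * (3 - ji ^ 2 * (1 + 3 * (kj * ki))))

/-- Local interlacement numbers of the three crossings of a triangle. -/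
def lij (o a : Bool) : ℤ := if o = true then bi a else - bi (!a)
/-- Local interlacement numbers of the three crossings of a triangle. -/
def lji (o a : Bool) : ℤ := if o = true then - bi a else bi (!a)
/-- Local interlacement numbers of the three crossings of a triangle. -/
def lik (o b : Bool) : ℤ := if o = true then bi (!b) else - bi b
/-- Local interlacement numbers of the three crossings of a triangle. -/
def lki (o b : Bool) : ℤ := if o = true then - bi (!b) else - bi b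
/-- Local interlacement numbers of the three crossings of a triangle. -/
def ljk (o c : Bool) : ℤ := if o = true then bi c else - bi (!c)
/-- Local interlacement numbers of the three crossings of a triangle. -/
def lkj (o c : Bool) : ℤ := if o = true then - bi c else - bi (!c)

lemma key1 : ∀ (o a b c sj : Bool) (ic jc kc ci ck : Fin 3),
    (tern ic ^ 2 = tern ci ^ 2 ∧ tern kc ^ 2 = tern ck ^ 2 ∧
      tern jc ^ 2 = (tern ci + tern ck) ^ 2 ∧
      (if o = true then tern jc = tern ic + tern kc else tern ic = tern jc + tern kc)) →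
    (T3 (pm b * pm c * pm sj) (pm sj) 1 (lij o (!a)) (lji o (!a)) (tern ic) (tern ci) (tern jc)
        (tern ci + tern ck)
      + T3 (pm b * pm c * pm sj) (pm a * pm b * pm sj) 1 (lik o (!b)) (lki o (!b)) (tern ic)
        (tern ci) (tern kc) (tern ck)
      + T3 (pm sj) (pm a * pm b * pm sj) 1 (ljk o (!c)) (lkj o (!c)) (tern jc)
        (tern ci + tern ck) (tern kc) (tern ck))
    - (T3 (pm b * pm c * pm sj) (pm sj) 1 (lij o a) (lji o a) (tern ic) (tern ci) (tern jc)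
        (tern ci + tern ck)
      + T3 (pm b * pm c * pm sj) (pm a * pm b * pm sj) 1 (lik o b) (lki o b) (tern ic)
        (tern ci) (tern kc) (tern ck)
      + T3 (pm sj) (pm a * pm b * pm sj) 1 (ljk o c) (lkj o c) (tern jc)
        (tern ci + tern ck) (tern kc) (tern ck))
    = -12 * (pm a * pm b * pm c) * (tern ic * tern kc ^ 2) := by
  decide +kernel

/-- Value of the correction term. -/
def corr (o a b c sj : Bool) : ℤ :=
  (if o = true then -1 else 1) * pm sj * (if b = true then bi a * bi c else bi (!a) * bi (!c))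

lemma key2 : ∀ (o a b c sj : Bool),
    L3 (pm b * pm c * pm sj) (pm sj) (pm a * pm b * pm sj) (lij o (!a)) (lji o (!a))
      (lik o (!b)) (lki o (!b)) (ljk o (!c)) (lkj o (!c))
    - L3 (pm b * pm c * pm sj) (pm sj) (pm a * pm b * pm sj) (lij o a) (lji o a)
      (lik o b) (lki o b) (ljk o c) (lkj o c)
    = 12 * (pm a * pm b * pm c) * corr o a b c sj := by
  decide +kernel

lemma key3 : ∀ (o a b c sj : Bool) (x : ℤ),
    (lik o b = 0 → x = - (pm sj * (lij o a * lkj o c ^ 2))) →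
    (lik o (!b) = 0 → x = - (pm sj * (lij o (!a) * lkj o (!c) ^ 2))) →
    x = corr o a b c sj := by
  intro o a b c sj x h1 h2
  cases o <;> cases a <;> cases b <;> cases c <;> cases sj <;>
    simp [lik, bi, lij, lkj, corr, pm] at h1 h2 ⊢ <;> first | exact h1 | exact h2

lemma key4 : ∀ (o a b c sj : Bool),
    (pm b * pm c * pm sj) * (pm sj) * (lij o (!a) * (lij o (!a) + lji o (!a)))
    + (pm b * pm c * pm sj) * (pm a * pm b * pm sj) * (lik o (!b) * (lik o (!b) + lki o (!b)))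
    + (pm sj) * (pm b * pm c * pm sj) * (lji o (!a) * (lji o (!a) + lij o (!a)))
    + (pm sj) * (pm a * pm b * pm sj) * (ljk o (!c) * (ljk o (!c) + lkj o (!c)))
    + (pm a * pm b * pm sj) * (pm b * pm c * pm sj) * (lki o (!b) * (lki o (!b) + lik o (!b)))
    + (pm a * pm b * pm sj) * (pm sj) * (lkj o (!c) * (lkj o (!c) + ljk o (!c)))
    = (pm b * pm c * pm sj) * (pm sj) * (lij o a * (lij o a + lji o a))
    + (pm b * pm c * pm sj) * (pm a * pm b * pm sj) * (lik o b * (lik o b + lki o b))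
    + (pm sj) * (pm b * pm c * pm sj) * (lji o a * (lji o a + lij o a))
    + (pm sj) * (pm a * pm b * pm sj) * (ljk o c * (ljk o c + lkj o c))
    + (pm a * pm b * pm sj) * (pm b * pm c * pm sj) * (lki o b * (lki o b + lik o b))
    + (pm a * pm b * pm sj) * (pm sj) * (lkj o c * (lkj o c + ljk o c)) := by
  decide +kernel

/-- The data of a triangle move: `e` before and `e'` after the move. -/
structure Tri (X : Finset ℕ) (i j k : ℕ) (e e' : ℕ → ℕ → ℤ) (s : ℕ → ℤ) (o a b c : Bool) :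
    Prop where
  hi : i ∉ X
  hj : j ∉ X
  hk : k ∉ X
  hij : i ≠ j
  hik : i ≠ k
  hjk : j ≠ k
  hsj : s j = 1 ∨ s j = -1
  hsi : s i = pm b * pm c * s j
  hsk : s k = pm a * pm b * s j
  hX : ∀ p ∈ X, ∀ q ∈ X, e' p q = e p q
  hic : ∀ x ∈ X, e' i x = e i x
  hci : ∀ x ∈ X, e' x i = e x i
  hjc : ∀ x ∈ X, e' j x = e j x
  hcj : ∀ x ∈ X, e' x j = e x j
  hkc : ∀ x ∈ X, e' k x = e k x
  hck : ∀ x ∈ X, e' x k = e x k
  hself : ∀ x, e x x = 0
  hself' : ∀ x, e' x x = 0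
  hval : ∀ x y, e x y = 0 ∨ e x y = 1 ∨ e x y = -1
  hsym : ∀ x y, e x y ^ 2 = e y x ^ 2
  hrel : ∀ x ∈ X, e x j = e x i + e x k
  hrel' : ∀ x ∈ X, if o = true then e j x = e i x + e k x else e i x = e j x + e k x
  h1 : e i j = lij o a
  h2 : e j i = lji o a
  h3 : e i k = lik o b
  h4 : e k i = lki o b
  h5 : e j k = ljk o c
  h6 : e k j = lkj o c
  h1' : e' i j = lij o (!a)
  h2' : e' j i = lji o (!a)
  h3' : e' i k = lik o (!b)
  h4' : e' k i = lki o (!b)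
  h5' : e' j k = ljk o (!c)
  h6' : e' k j = lkj o (!c)

lemma sum_triple {i j k : ℕ} (hij : i ≠ j) (hik : i ≠ k) (hjk : j ≠ k) (f : ℕ → ℤ) :
    ∑ p ∈ ({i, j, k} : Finset ℕ), f p = f i + f j + f k := by
  rw [Finset.sum_insert (by simp [hij, hik]), Finset.sum_pair hjk]; ring

lemma Tri.disj {X : Finset ℕ} {i j k : ℕ} {e e' : ℕ → ℕ → ℤ} {s : ℕ → ℤ} {o a b c : Bool}
    (T : Tri X i j k e e' s o a b c) : Disjoint {i, j, k} X := by
  rw [Finset.disjoint_insert_left, Finset.disjoint_insert_left, Finset.disjoint_singleton_left]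
  exact ⟨T.hi, T.hj, T.hk⟩

lemma Tri.W2_eq {X : Finset ℕ} {i j k : ℕ} {e e' : ℕ → ℕ → ℤ} {s : ℕ → ℤ} {o a b c : Bool}
    (T : Tri X i j k e e' s o a b c) :
    W2 ({i, j, k} ∪ X) e' s = W2 ({i, j, k} ∪ X) e s := by
  unfold W2
  rw [sum2_union _ _ T.disj, sum2_union _ _ T.disj]
  have e1 : ∑ x ∈ X, ∑ y ∈ X, s x * s y * (e' x y * (e' x y + e' y x))
      = ∑ x ∈ X, ∑ y ∈ X, s x * s y * (e x y * (e x y + e y x)) := by
    refine Finset.sum_congr rfl fun x hx => Finset.sum_congr rfl fun y hy => ?_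
    rw [T.hX x hx y hy, T.hX y hy x hx]
  have e2 : ∑ x ∈ X, ∑ p ∈ ({i, j, k} : Finset ℕ), (s p * s x * (e' p x * (e' p x + e' x p))
      + s x * s p * (e' x p * (e' x p + e' p x)))
      = ∑ x ∈ X, ∑ p ∈ ({i, j, k} : Finset ℕ), (s p * s x * (e p x * (e p x + e x p))
      + s x * s p * (e x p * (e x p + e p x))) := by
    refine Finset.sum_congr rfl fun x hx => ?_
    rw [sum_triple T.hij T.hik T.hjk, sum_triple T.hij T.hik T.hjk, T.hic x hx, T.hci x hx,
      T.hjc x hx, T.hcj x hx, T.hkc x hx, T.hck x hx]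
  have e3 : ∑ p ∈ ({i, j, k} : Finset ℕ), ∑ q ∈ ({i, j, k} : Finset ℕ),
      s p * s q * (e' p q * (e' p q + e' q p))
      = ∑ p ∈ ({i, j, k} : Finset ℕ), ∑ q ∈ ({i, j, k} : Finset ℕ),
      s p * s q * (e p q * (e p q + e q p)) := by
    simp only [sum_triple T.hij T.hik T.hjk]
    obtain ⟨t, ht⟩ := exists_pm T.hsj
    rw [T.hself, T.hself, T.hself, T.hself', T.hself', T.hself', T.h1, T.h2, T.h3, T.h4, T.h5,
      T.h6, T.h1', T.h2', T.h3', T.h4', T.h5', T.h6', T.hsi, T.hsk, ht]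
    have := key4 o a b c t
    linarith
  rw [e1, e2, e3]

lemma Tri.W3_eq {X : Finset ℕ} {i j k : ℕ} {e e' : ℕ → ℕ → ℤ} {s : ℕ → ℤ} {o a b c : Bool}
    (T : Tri X i j k e e' s o a b c)
    (hP : e i k = 0 → ∑ x ∈ {i, j, k} ∪ X, s x * (e i x * e k x ^ 2) = 0)
    (hP' : e' i k = 0 → ∑ x ∈ {i, j, k} ∪ X, s x * (e' i x * e' k x ^ 2) = 0) :
    W3 ({i, j, k} ∪ X) e' s = W3 ({i, j, k} ∪ X) e s := by
  obtain ⟨t, ht⟩ := exists_pm T.hsj
  have hT : ∑ x ∈ X, s x * (e i x * e k x ^ 2) = corr o a b c t := by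
    apply key3
    · intro h0
      have h := hP (by rw [T.h3]; exact h0)
      rw [Finset.sum_union T.disj, sum_triple T.hij T.hik T.hjk, T.hself, T.hself, T.h1, T.h6,
        ht] at h
      linarith
    · intro h0
      have h := hP' (by rw [T.h3']; exact h0)
      rw [Finset.sum_union T.disj, sum_triple T.hij T.hik T.hjk, T.hself', T.hself', T.h1', T.h6',
        ht] at h
      have h7 : ∑ x ∈ X, s x * (e' i x * e' k x ^ 2) = ∑ x ∈ X, s x * (e i x * e k x ^ 2) :=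
        Finset.sum_congr rfl fun x hx => by rw [T.hic x hx, T.hkc x hx]
      rw [h7] at h
      linarith
  unfold W3
  rw [sum3_union _ _ T.disj, sum3_union _ _ T.disj]
  have e1 : ∑ x ∈ X, ∑ y ∈ X, ∑ z ∈ X, w3 e' s x y z = ∑ x ∈ X, ∑ y ∈ X, ∑ z ∈ X, w3 e s x y z := by
    refine Finset.sum_congr rfl fun x hx => Finset.sum_congr rfl fun y hy =>
      Finset.sum_congr rfl fun z hz => ?_
    unfold w3
    rw [T.hX x hx y hy, T.hX x hx z hz, T.hX y hy z hz]
  have e2 : ∑ x ∈ X, ∑ y ∈ X, ∑ p ∈ ({i, j, k} : Finset ℕ),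
      (w3 e' s p x y + w3 e' s x p y + w3 e' s x y p)
      = ∑ x ∈ X, ∑ y ∈ X, ∑ p ∈ ({i, j, k} : Finset ℕ),
      (w3 e s p x y + w3 e s x p y + w3 e s x y p) := by
    refine Finset.sum_congr rfl fun x hx => Finset.sum_congr rfl fun y hy => ?_
    rw [sum_triple T.hij T.hik T.hjk, sum_triple T.hij T.hik T.hjk]
    unfold w3
    rw [T.hX x hx y hy, T.hic x hx, T.hci x hx, T.hjc x hx, T.hcj x hx, T.hkc x hx, T.hck x hx,
      T.hic y hy, T.hci y hy, T.hjc y hy, T.hcj y hy, T.hkc y hy, T.hck y hy]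
  have e4 : ∑ p ∈ ({i, j, k} : Finset ℕ), ∑ q ∈ ({i, j, k} : Finset ℕ),
      ∑ r ∈ ({i, j, k} : Finset ℕ), w3 e' s p q r
      = ∑ p ∈ ({i, j, k} : Finset ℕ), ∑ q ∈ ({i, j, k} : Finset ℕ),
      ∑ r ∈ ({i, j, k} : Finset ℕ), w3 e s p q r
      + 12 * (pm a * pm b * pm c) * corr o a b c t := by
    have a1 : ∀ f : ℕ → ℕ → ℤ, (∀ x, f x x = 0) → ∑ p ∈ ({i, j, k} : Finset ℕ),
        ∑ q ∈ ({i, j, k} : Finset ℕ), ∑ r ∈ ({i, j, k} : Finset ℕ), w3 f s p q r
        = L3 (s i) (s j) (s k) (f i j) (f j i) (f i k) (f k i) (f j k) (f k j) := by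
      intro f hf
      simp only [sum_triple T.hij T.hik T.hjk]
      unfold w3 L3
      rw [hf, hf, hf]
      ring
    rw [a1 e' T.hself', a1 e T.hself, T.h1, T.h2, T.h3, T.h4, T.h5,
      T.h6, T.h1', T.h2', T.h3', T.h4', T.h5', T.h6', T.hsi, T.hsk, ht]
    have := key2 o a b c t
    linarith
  have e3 : ∑ x ∈ X, ∑ p ∈ ({i, j, k} : Finset ℕ), ∑ q ∈ ({i, j, k} : Finset ℕ),
      (w3 e' s p q x + w3 e' s p x q + w3 e' s x p q)
      = ∑ x ∈ X, ∑ p ∈ ({i, j, k} : Finset ℕ), ∑ q ∈ ({i, j, k} : Finset ℕ),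
      (w3 e s p q x + w3 e s p x q + w3 e s x p q)
      + -12 * (pm a * pm b * pm c) * ∑ x ∈ X, s x * (e i x * e k x ^ 2) := by
    rw [Finset.mul_sum, ← Finset.sum_add_distrib]
    refine Finset.sum_congr rfl fun x hx => ?_
    have a1 : ∀ f : ℕ → ℕ → ℤ, (∀ x, f x x = 0) → ∑ p ∈ ({i, j, k} : Finset ℕ),
        ∑ q ∈ ({i, j, k} : Finset ℕ), (w3 f s p q x + w3 f s p x q + w3 f s x p q)
        = s x * (T3 (s i) (s j) 1 (f i j) (f j i) (f i x) (f x i) (f j x) (f x j)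
          + T3 (s i) (s k) 1 (f i k) (f k i) (f i x) (f x i) (f k x) (f x k)
          + T3 (s j) (s k) 1 (f j k) (f k j) (f j x) (f x j) (f k x) (f x k))
          + 3 * s x * (s i ^ 2 * f x i ^ 4 + s j ^ 2 * f x j ^ 4 + s k ^ 2 * f x k ^ 4) := by
      intro f hf
      simp only [sum_triple T.hij T.hik T.hjk]
      unfold w3 T3
      rw [hf, hf, hf]
      ring
    rw [a1 e' T.hself', a1 e T.hself, T.h1, T.h2, T.h3, T.h4, T.h5,
      T.h6, T.h1', T.h2', T.h3', T.h4', T.h5', T.h6', T.hsi, T.hsk, ht,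
      T.hic x hx, T.hci x hx, T.hjc x hx, T.hcj x hx, T.hkc x hx, T.hck x hx]
    obtain ⟨u1, hu1⟩ := exists_tern (T.hval i x)
    obtain ⟨u2, hu2⟩ := exists_tern (T.hval j x)
    obtain ⟨u3, hu3⟩ := exists_tern (T.hval k x)
    obtain ⟨u4, hu4⟩ := exists_tern (T.hval x i)
    obtain ⟨u6, hu6⟩ := exists_tern (T.hval x k)
    have hj := T.hrel x hx
    have q1 := T.hsym i x
    have q2 := T.hsym j x
    have q3 := T.hsym k x
    have q4 := T.hrel' x hx
    rw [hj] at q2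
    rw [hj]
    rw [hu1, hu4] at q1
    rw [hu2, hu4, hu6] at q2
    rw [hu3, hu6] at q3
    rw [hu1, hu2, hu3] at q4
    rw [hu1, hu2, hu3, hu4, hu6]
    have := key1 o a b c t u1 u2 u3 u4 u6 ⟨q1, q3, q2, q4⟩
    linear_combination (s x) * this
  rw [e1, e2, e3, e4, hT]
  ring

end Pool.Agent.Lib.MP_ae2e71_gt
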