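import Pool.Agent.Lib.MP_ae2e71_gt.Moves

set_option linter.unusedVariables false
set_option linter.unusedSimpArgs false

namespace Pool.Agent.Lib.MP_ae2e71_gt

open Finset Pool.Agent.KnotCode Pool.Agent.KnotCode.Code

/-! ### Third move -/

lemma six_pos {a b c : Bool} {x1 x2 y1 y2 z1 z2 : Passage} {u v w : List Passage}
    (hx : x1 ≠ x2) (hy : y1 ≠ y2) (hz : z1 ≠ z2)
    (h : (pair a x1 x2 ++ u ++ pair b y1 y2 ++ v ++ pair c z1 z2 ++ w).Nodup) :
    pos (pair a x1 x2 ++ u ++ pair b y1 y2 ++ v ++ pair c z1 z2 ++ w) x1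
      = (if a = true then 0 else 1) ∧
    pos (pair a x1 x2 ++ u ++ pair b y1 y2 ++ v ++ pair c z1 z2 ++ w) x2
      = (if a = true then 1 else 0) ∧
    pos (pair a x1 x2 ++ u ++ pair b y1 y2 ++ v ++ pair c z1 z2 ++ w) y1
      = (u.length + 2) + (if b = true then 0 else 1) ∧
    pos (pair a x1 x2 ++ u ++ pair b y1 y2 ++ v ++ pair c z1 z2 ++ w) y2
      = (u.length + 2) + (if b = true then 1 else 0) ∧
    pos (pair a x1 x2 ++ u ++ pair b y1 y2 ++ v ++ pair c z1 z2 ++ w) z1
      = (u.length + v.length + 4) + (if c = true then 0 else 1) ∧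
    pos (pair a x1 x2 ++ u ++ pair b y1 y2 ++ v ++ pair c z1 z2 ++ w) z2
      = (u.length + v.length + 4) + (if c = true then 1 else 0) := by
  have h1 := (List.nodup_append.mp h).1
  have h2 : ∀ t ∈ pair c z1 z2, t ∉ pair a x1 x2 ++ u ++ pair b y1 y2 ++ v := by
    intro t ht ht'
    exact (List.nodup_append.mp h1).2.2 _ ht' _ ht rfl
  have h3 := (List.nodup_append.mp (List.nodup_append.mp h1).1).1
  have h4 : ∀ t ∈ pair b y1 y2, t ∉ pair a x1 x2 ++ u := by
    intro t ht ht'
    exact (List.nodup_append.mp h3).2.2 _ ht' _ ht rfl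
  have l1 : (pair a x1 x2 ++ u ++ pair b y1 y2 ++ v).length = u.length + v.length + 4 := by
    simp only [List.length_append, length_pair]; omega
  have l2 : (pair a x1 x2 ++ u).length = u.length + 2 := by
    simp only [List.length_append, length_pair]; omega
  have m1 : y1 ∈ pair b y1 y2 := by rw [mem_pair]; left; rfl
  have m2 : y2 ∈ pair b y1 y2 := by rw [mem_pair]; right; rfl
  have m3 : z1 ∈ pair c z1 z2 := by rw [mem_pair]; left; rfl
  have m4 : z2 ∈ pair c z1 z2 := by rw [mem_pair]; right; rfl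
  refine ⟨?_, ?_, ?_, ?_, ?_, ?_⟩
  · simp only [List.append_assoc]
    exact pos_pair_left hx _
  · simp only [List.append_assoc]
    exact pos_pair_right hx _
  · have e : pair a x1 x2 ++ u ++ pair b y1 y2 ++ v ++ pair c z1 z2 ++ w
      = (pair a x1 x2 ++ u) ++ (pair b y1 y2 ++ (v ++ pair c z1 z2 ++ w)) := by
      simp only [List.append_assoc]
    rw [e, pos_append_not (h4 _ m1), l2, pos_pair_left hy]
  · have e : pair a x1 x2 ++ u ++ pair b y1 y2 ++ v ++ pair c z1 z2 ++ w
      = (pair a x1 x2 ++ u) ++ (pair b y1 y2 ++ (v ++ pair c z1 z2 ++ w)) := by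
      simp only [List.append_assoc]
    rw [e, pos_append_not (h4 _ m2), l2, pos_pair_right hy]
  · rw [List.append_assoc _ (pair c z1 z2) w, pos_append_not (h2 _ m3), l1, pos_pair_left hz]
  · rw [List.append_assoc _ (pair c z1 z2) w, pos_append_not (h2 _ m4), l1, pos_pair_right hz]

/-- The position of the other passages. -/
def qpos (u v w : List Passage) (t : Passage) : ℕ :=
  if t ∈ u then 2 + pos u t else if t ∈ v then u.length + 4 + pos v t
    else u.length + v.length + 6 + pos w t

lemma six_other {a b c : Bool} {x1 x2 y1 y2 z1 z2 t : Passage} {u v w : List Passage}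
    (h1 : t ≠ x1) (h2 : t ≠ x2) (h3 : t ≠ y1) (h4 : t ≠ y2) (h5 : t ≠ z1) (h6 : t ≠ z2) :
    pos (pair a x1 x2 ++ u ++ pair b y1 y2 ++ v ++ pair c z1 z2 ++ w) t = qpos u v w t := by
  unfold qpos
  simp only [List.append_assoc]
  rw [pos_pair_other h1 h2]
  by_cases hu : t ∈ u
  · rw [if_pos hu, pos_append_mem hu]
  · rw [if_neg hu, pos_append_not hu, pos_pair_other h3 h4]
    by_cases hv : t ∈ v
    · rw [if_pos hv, pos_append_mem hv]; omega
    · rw [if_neg hv, pos_append_not hv, pos_pair_other h5 h6]; omega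

lemma qpos_bounds (u v w : List Passage) (t : Passage) :
    (2 ≤ qpos u v w t ∧ qpos u v w t < u.length + 2) ∨
    (u.length + 4 ≤ qpos u v w t ∧ qpos u v w t < u.length + v.length + 4) ∨
    u.length + v.length + 6 ≤ qpos u v w t := by
  unfold qpos
  by_cases hu : t ∈ u
  · rw [if_pos hu]
    have := pos_lt hu
    left; omega
  · rw [if_neg hu]
    by_cases hv : t ∈ v
    · rw [if_pos hv]
      have := pos_lt hv
      right; left; omega
    · rw [if_neg hv]
      right; right; omega

/-- Positions of the passages in the third move. -/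
structure TriPos (X : Finset ℕ) (i j k : ℕ) (P Q : Passage → ℕ) (U V : ℕ) (o a b c : Bool) :
    Prop where
  hij : i ≠ j
  hik : i ≠ k
  hjk : j ≠ k
  hi : i ∉ X
  hj : j ∉ X
  hk : k ∉ X
  iT : P (i, true) = if a = true then 0 else 1
  jT : P (j, true) = if a = true then 1 else 0
  iF : P (i, false) = (if o = true then U + 2 else U + V + 4) + (if b = true then 0 else 1)
  kT : P (k, true) = (if o = true then U + 2 else U + V + 4) + (if b = true then 1 else 0)
  jF : P (j, false) = (if o = true then U + V + 4 else U + 2) + (if c = true then 0 else 1)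
  kF : P (k, false) = (if o = true then U + V + 4 else U + 2) + (if c = true then 1 else 0)
  rest : ∀ x ∈ X, ∀ d, P (x, d) = Q (x, d)
  bd : ∀ x ∈ X, ∀ d, (2 ≤ Q (x, d) ∧ Q (x, d) < U + 2) ∨ (U + 4 ≤ Q (x, d) ∧ Q (x, d) < U + V + 4)
    ∨ U + V + 6 ≤ Q (x, d)

lemma TriPos.loc {X : Finset ℕ} {i j k : ℕ} {P Q : Passage → ℕ} {U V : ℕ} {o a b c : Bool}
    (T : TriPos X i j k P Q U V o a b c) :
    ee P i j = lij o a ∧ ee P j i = lji o a ∧ ee P i k = lik o b ∧ ee P k i = lki o b ∧
    ee P j k = ljk o c ∧ ee P k j = lkj o c := by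
  unfold ee ins
  rw [if_neg T.hij, if_neg (Ne.symm T.hij), if_neg T.hik, if_neg (Ne.symm T.hik), if_neg T.hjk,
    if_neg (Ne.symm T.hjk), T.iT, T.jT, T.iF, T.jF, T.kT, T.kF]
  refine ⟨?_, ?_, ?_, ?_, ?_, ?_⟩ <;> cases o <;> cases a <;> cases b <;> cases c <;>
    simp only [lij, lji, lik, lki, ljk, lkj, bi, if_true, if_false, Bool.false_eq_true,
      Bool.not_true, Bool.not_false] <;>
    split_ifs <;> omega


lemma TriPos.outer {X : Finset ℕ} {i j k : ℕ} {P Q : Passage → ℕ} {U V : ℕ} {o a b c : Bool}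
    (T : TriPos X i j k P Q U V o a b c) {x : ℕ} (hx : x ∈ X) :
    (∀ d, ins P i (x, d) = if Q (x, d) < (if o = true then U + 2 else U + V + 4) then 1 else 0) ∧
    (∀ d, ins P j (x, d) = if Q (x, d) < (if o = true then U + V + 4 else U + 2) then 1 else 0) ∧
    (∀ d, ins P k (x, d) = if (Q (x, d) < U + 2 ↔ Q (x, d) < U + V + 4) then 0 else 1) ∧
    ins P x (i, true) = 0 ∧ ins P x (j, true) = 0 ∧
    ins P x (i, false) = ins P x (k, true) ∧ ins P x (j, false) = ins P x (k, false) ∧
    ins P x (k, true) = (if (Q (x, true) < (if o = true then U + 2 else U + V + 4) ↔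
      Q (x, false) < (if o = true then U + 2 else U + V + 4)) then 0 else 1) ∧
    ins P x (k, false) = (if (Q (x, true) < (if o = true then U + V + 4 else U + 2) ↔
      Q (x, false) < (if o = true then U + V + 4 else U + 2)) then 0 else 1) := by
  have b1 := T.bd x hx true
  have b2 := T.bd x hx false
  refine ⟨?_, ?_, ?_, ?_, ?_, ?_, ?_, ?_, ?_⟩
  · intro d
    have b3 := T.bd x hx d
    unfold ins
    rw [T.rest x hx, T.iT, T.iF]
    cases o <;> cases a <;> cases b <;>
      simp only [if_true, if_false, Bool.false_eq_true] <;> split_ifs <;> omega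
  · intro d
    have b3 := T.bd x hx d
    unfold ins
    rw [T.rest x hx, T.jT, T.jF]
    cases o <;> cases a <;> cases c <;>
      simp only [if_true, if_false, Bool.false_eq_true] <;> split_ifs <;> omega
  · intro d
    have b3 := T.bd x hx d
    unfold ins
    rw [T.rest x hx, T.kT, T.kF]
    cases o <;> cases b <;> cases c <;>
      simp only [if_true, if_false, Bool.false_eq_true] <;> split_ifs <;> omega
  · unfold ins
    rw [T.rest x hx, T.rest x hx, T.iT, if_pos]
    cases a <;> simp only [if_true, if_false, Bool.false_eq_true] <;> omega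
  · unfold ins
    rw [T.rest x hx, T.rest x hx, T.jT, if_pos]
    cases a <;> simp only [if_true, if_false, Bool.false_eq_true] <;> omega
  · unfold ins
    rw [T.rest x hx, T.rest x hx, T.iF, T.kT]
    cases o <;> cases b <;>
      simp only [if_true, if_false, Bool.false_eq_true] <;> split_ifs <;> omega
  · unfold ins
    rw [T.rest x hx, T.rest x hx, T.jF, T.kF]
    cases o <;> cases c <;>
      simp only [if_true, if_false, Bool.false_eq_true] <;> split_ifs <;> omega
  · unfold ins
    rw [T.rest x hx, T.rest x hx, T.kT]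
    cases o <;> cases b <;>
      simp only [if_true, if_false, Bool.false_eq_true] <;> split_ifs <;> omega
  · unfold ins
    rw [T.rest x hx, T.rest x hx, T.kF]
    cases o <;> cases c <;>
      simp only [if_true, if_false, Bool.false_eq_true] <;> split_ifs <;> omega

lemma TriPos.rel {X : Finset ℕ} {i j k : ℕ} {P Q : Passage → ℕ} {U V : ℕ} {o a b c : Bool}
    (T : TriPos X i j k P Q U V o a b c) {x : ℕ} (hx : x ∈ X) :
    ee P x j = ee P x i + ee P x k ∧
    (if o = true then ee P j x = ee P i x + ee P k x else ee P i x = ee P j x + ee P k x) := by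
  obtain ⟨h1, h2, h3, h4, h5, h6, h7, h8, h9⟩ := T.outer hx
  have n1 : i ≠ x := fun e => T.hi (e ▸ hx)
  have n2 : j ≠ x := fun e => T.hj (e ▸ hx)
  have n3 : k ≠ x := fun e => T.hk (e ▸ hx)
  unfold ee
  rw [if_neg n1, if_neg n2, if_neg n3, if_neg (Ne.symm n1), if_neg (Ne.symm n2),
    if_neg (Ne.symm n3)]
  constructor
  · rw [h4, h5, h6, h7]; ring
  · rw [h1, h1, h2, h2, h3, h3]
    cases o <;> simp only [if_true, if_false, Bool.false_eq_true] <;> split_ifs <;> omega

lemma TriPos.same {X : Finset ℕ} {i j k : ℕ} {P P' Q : Passage → ℕ} {U V : ℕ}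
    {o a b c a' b' c' : Bool} (T : TriPos X i j k P Q U V o a b c)
    (T' : TriPos X i j k P' Q U V o a' b' c') {x : ℕ} (hx : x ∈ X) :
    ee P' i x = ee P i x ∧ ee P' x i = ee P x i ∧ ee P' j x = ee P j x ∧ ee P' x j = ee P x j ∧
    ee P' k x = ee P k x ∧ ee P' x k = ee P x k := by
  obtain ⟨h1, h2, h3, h4, h5, h6, h7, h8, h9⟩ := T.outer hx
  obtain ⟨g1, g2, g3, g4, g5, g6, g7, g8, g9⟩ := T'.outer hx
  have n1 : i ≠ x := fun e => T.hi (e ▸ hx)
  have n2 : j ≠ x := fun e => T.hj (e ▸ hx)
  have n3 : k ≠ x := fun e => T.hk (e ▸ hx)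
  unfold ee
  rw [if_neg n1, if_neg n2, if_neg n3, if_neg (Ne.symm n1), if_neg (Ne.symm n2),
    if_neg (Ne.symm n3), if_neg n1, if_neg n2, if_neg n3, if_neg (Ne.symm n1),
    if_neg (Ne.symm n2), if_neg (Ne.symm n3)]
  rw [h4, h5, h6, h7, g4, g5, g6, g7, h8, h9, g8, g9, h1, h1, h2, h2, h3, h3, g1, g1, g2, g2,
    g3, g3]
  exact ⟨rfl, rfl, rfl, rfl, rfl, rfl⟩

lemma agree_cast (a b : Bool) : ((agree a b : ℤˣ) : ℤ) = pm a * pm b := by
  cases a <;> cases b <;> simp [agree, pm]

/-- The third move, in both arrangements of the three strands. -/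
lemma tri_inv (i j k : ℕ) (o a b c : Bool) (U V : ℕ) (Q : Passage → ℕ) (s : ℕ → ℤˣ)
    (D D' : Code) (hs : D.sign = s) (hs' : D'.sign = s)
    (h₁ : s i = agree b c * s j) (h₂ : s k = agree a b * s j)
    (X : Finset ℕ) (hX : D.crossings = {i, j, k} ∪ X) (hX' : D'.crossings = {i, j, k} ∪ X)
    (hw : D.WellFormed) (hp : D.Planar) (hw' : D'.WellFormed) (hp' : D'.Planar)
    (T : TriPos X i j k (pos D.word) Q U V o a b c)
    (T' : TriPos X i j k (pos D'.word) Q U V o (!a) (!b) (!c)) :
    inv2 D' = inv2 D ∧ inv3 D' = inv3 D := by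
  obtain ⟨l1, l2, l3, l4, l5, l6⟩ := T.loc
  obtain ⟨m1, m2, m3, m4, m5, m6⟩ := T'.loc
  have hi : i ∈ D.crossings := by rw [hX]; simp
  have hk : k ∈ D.crossings := by rw [hX]; simp
  have hi' : i ∈ D'.crossings := by rw [hX']; simp
  have hk' : k ∈ D'.crossings := by rw [hX']; simp
  have hsymm : ∀ x ∈ D.crossings, ∀ y ∈ D.crossings,
      ee (pos D.word) x y ^ 2 = ee (pos D.word) y x ^ 2 := fun x hx y hy =>
    (ee_prod (pos D.word) x y (fun h => sep_of_wf hw hx hy h)).2
  have TT : Tri X i j k (fun x y => if x ∈ D.crossings ∧ y ∈ D.crossings then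
      ee (pos D.word) x y else 0) (ee (pos D'.word)) (fun t => (s t : ℤ)) o a b c := by
    have hin : ∀ x ∈ X, x ∈ D.crossings := fun x hx => by
      rw [hX]; exact Finset.mem_union_right _ hx
    have hjj : j ∈ D.crossings := by rw [hX]; simp
    refine ⟨T.hi, T.hj, T.hk, T.hij, T.hik, T.hjk, ?_, ?_, ?_, ?_, ?_, ?_, ?_, ?_, ?_, ?_, ?_, ?_,
      ?_, ?_, ?_, ?_, ?_, ?_, ?_, ?_, ?_, ?_, m1, m2, m3, m4, m5, m6⟩
    · rcases Int.units_eq_one_or (s j) with e | e <;> rw [e] <;> simp
    · rw [h₁, Units.val_mul, agree_cast]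
    · rw [h₂, Units.val_mul, agree_cast]
    · intro p hp q hq
      simp only [hin p hp, hin q hq, and_self, if_true]
      apply ee_congr (Iff.rfl)
      intro _ d1 d2
      rw [T.rest p hp, T.rest q hq, T'.rest p hp, T'.rest q hq]
    · intro x hx; simp only [hin x hx, hi, and_self, if_true]; exact (T.same T' hx).1
    · intro x hx; simp only [hin x hx, hi, and_self, if_true]; exact (T.same T' hx).2.1
    · intro x hx; simp only [hin x hx, hjj, and_self, if_true]; exact (T.same T' hx).2.2.1
    · intro x hx; simp only [hin x hx, hjj, and_self, if_true]; exact (T.same T' hx).2.2.2.1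
    · intro x hx; simp only [hin x hx, hk, and_self, if_true]; exact (T.same T' hx).2.2.2.2.1
    · intro x hx; simp only [hin x hx, hk, and_self, if_true]; exact (T.same T' hx).2.2.2.2.2
    · intro x; simp [ee_self]
    · intro x; exact ee_self _ _
    · intro x y
      by_cases h : x ∈ D.crossings ∧ y ∈ D.crossings
      · simp only [if_pos h]; exact ee_val _ _ _
      · simp only [if_neg h]; left; trivial
    · intro x y
      by_cases h : x ∈ D.crossings ∧ y ∈ D.crossings
      · simp only [if_pos h, if_pos h.symm]; exact hsymm x h.1 y h.2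
      · simp only [if_neg h, if_neg (fun h' => h (And.symm h'))]
    · intro x hx
      simp only [hin x hx, hi, hjj, hk, and_self, if_true]
      exact (T.rel hx).1
    · intro x hx
      simp only [hin x hx, hi, hjj, hk, and_self, if_true]
      exact (T.rel hx).2
    · simp only [hi, hjj, and_self, if_true]; exact l1
    · simp only [hi, hjj, and_self, if_true]; exact l2
    · simp only [hi, hk, and_self, if_true]; exact l3
    · simp only [hi, hk, and_self, if_true]; exact l4
    · simp only [hjj, hk, and_self, if_true]; exact l5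
    · simp only [hjj, hk, and_self, if_true]; exact l6
  have hc2 : W2 D.crossings (ee (pos D.word)) (fun t => (s t : ℤ)) = W2 D.crossings
      (fun x y => if x ∈ D.crossings ∧ y ∈ D.crossings then
      ee (pos D.word) x y else 0) (fun t => (s t : ℤ)) :=
    W2_congr (fun x hx y hy => by simp only [hx, hy, and_self, if_true]) (fun _ _ => rfl)
  have hc3 : W3 D.crossings (ee (pos D.word)) (fun t => (s t : ℤ)) = W3 D.crossings
      (fun x y => if x ∈ D.crossings ∧ y ∈ D.crossings then
      ee (pos D.word) x y else 0) (fun t => (s t : ℤ)) :=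
    W3_congr (fun x hx y hy => by simp only [hx, hy, and_self, if_true]) (fun _ _ => rfl)
  constructor
  · unfold inv2
    rw [hs, hs', hc2, hX', hX]
    rw [hX] at TT
    exact TT.W2_eq
  · unfold inv3
    rw [hs, hs', hc3, hX', hX]
    rw [hX] at TT
    apply TT.W3_eq
    · intro h0
      have h0' : ee (pos D.word) i k = 0 := by
        rw [← hX] at h0
        simpa only [hi, hk, and_self, if_true] using h0
      have := code_P2 D hw hp i k hi hk T.hik h0'
      rw [hs] at this
      rw [← this, ← hX]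
      refine Finset.sum_congr rfl fun x hx => ?_
      simp only [hx, hi, hk, and_self, if_true]
    · intro h0
      have := code_P2 D' hw' hp' i k hi' hk' T.hik h0
      rw [hs', hX'] at this
      exact this

end Pool.Agent.Lib.MP_ae2e71_gt
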